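import Mathlib

set_option autoImplicit false

/-! Homeomorphisms of normed spaces with distortion `1 + o(r)` on small spheres. -/

namespace Pool.Agent.Helper137_QC

open Filter Topology Set

variable {E F : Type*} [NormedAddCommGroup E] [NormedSpace ℝ E]
  [NormedAddCommGroup F] [NormedSpace ℝ F]

/-- On all spheres around `x` of radius `r < δ` the distances of the images of two points from
`f x` agree up to the factor `1 + η r`. -/
def RoundAt (f : E → F) (η δ : ℝ) (x : E) : Prop :=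
  ∀ y z : E, ‖y - x‖ = ‖z - x‖ → ‖y - x‖ < δ →
    ‖f y - f x‖ ≤ (1 + η * ‖y - x‖) * ‖f z - f x‖

/-- the ray from `f q` through `f p`, beyond `f p` -/
noncomputable def ray (f : E → F) (p q : E) (μ : ℝ) : F :=
  f p + (μ / ‖f p - f q‖) • (f p - f q)

theorem norm_ray_sub_q (f : E → F) (p q : E) (h : f p ≠ f q) {μ : ℝ} (hμ : 0 ≤ μ) :
    ‖ray f p q μ - f q‖ = ‖f p - f q‖ + μ := by
  have hw : 0 < ‖f p - f q‖ := norm_pos_iff.mpr (sub_ne_zero.mpr h)
  have e : ray f p q μ - f q = (1 + μ / ‖f p - f q‖) • (f p - f q) := by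
    unfold ray
    rw [add_smul, one_smul]; abel
  rw [e, norm_smul, Real.norm_of_nonneg (by positivity)]
  field_simp

theorem norm_ray_sub_p (f : E → F) (p q : E) (h : f p ≠ f q) {μ : ℝ} (hμ : 0 ≤ μ) :
    ‖ray f p q μ - f p‖ = μ := by
  have hw : 0 < ‖f p - f q‖ := norm_pos_iff.mpr (sub_ne_zero.mpr h)
  have e : ray f p q μ - f p = (μ / ‖f p - f q‖) • (f p - f q) := by
    unfold ray; abel
  rw [e, norm_smul, Real.norm_of_nonneg (by positivity)]
  field_simp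

theorem continuous_ray (f : E → F) (p q : E) : Continuous (ray f p q) := by
  unfold ray; fun_prop

theorem bounded_image (f : E ≃ₜ F) {η δ : ℝ} (hη : 0 ≤ η) {e : E} (he : ‖e‖ = 1) {c : E} {R : ℝ}
    (hRδ : R < δ) (hc : RoundAt f η δ c) :
    ∃ M, ∀ y, ‖y - c‖ ≤ R → ‖f y - f c‖ ≤ M := by
  have hcont : ContinuousOn (fun r : ℝ => f (c + r • e) - f c) (Icc 0 R) := by
    apply Continuous.continuousOn
    exact (f.continuous.comp (by fun_prop)).sub continuous_const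
  obtain ⟨M, hM⟩ := isCompact_Icc.exists_bound_of_continuousOn hcont
  refine ⟨(1 + η * |R|) * |M|, fun y hy => ?_⟩
  have h1 := hc y (c + ‖y - c‖ • e) (by simp [norm_smul, he]) (lt_of_le_of_lt hy hRδ)
  have h2 := hM ‖y - c‖ ⟨norm_nonneg _, hy⟩
  have h3 : η * ‖y - c‖ ≤ η * |R| := mul_le_mul_of_nonneg_left (hy.trans (le_abs_self R)) hη
  have h4 : 0 ≤ η * ‖y - c‖ := by positivity
  calc ‖f y - f c‖ ≤ (1 + η * ‖y - c‖) * ‖f (c + ‖y - c‖ • e) - f c‖ := h1
    _ ≤ (1 + η * |R|) * |M| := by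
        apply mul_le_mul (by linarith) (h2.trans (le_abs_self M)) (norm_nonneg _) (by linarith)

theorem exit (f : E ≃ₜ F) {η δ : ℝ} (hη : 0 ≤ η) {e : E} (he : ‖e‖ = 1) {p q c : E}
    (hpq : f p ≠ f q) {R μ₀ : ℝ} (hRδ : R < δ) (hc : RoundAt f η δ c)
    (hμ : 0 ≤ μ₀) (h0 : ‖f.symm (ray f p q μ₀) - c‖ ≤ R) :
    ∃ μ, μ₀ ≤ μ ∧ ‖f.symm (ray f p q μ) - c‖ = R := by
  obtain ⟨M, hM⟩ := bounded_image f hη he hRδ hc
  set μ₁ := max μ₀ (M + ‖f p - f c‖ + 1) with hμ₁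
  have h01 : μ₀ ≤ μ₁ := le_max_left _ _
  have hfar : R < ‖f.symm (ray f p q μ₁) - c‖ := by
    by_contra hcon
    push Not at hcon
    have h1 := hM _ hcon
    rw [f.apply_symm_apply] at h1
    have h2 := norm_ray_sub_p f p q hpq (hμ.trans h01)
    have h3 : ‖ray f p q μ₁ - f p‖ ≤ ‖ray f p q μ₁ - f c‖ + ‖f c - f p‖ := by
      calc ‖ray f p q μ₁ - f p‖ = ‖(ray f p q μ₁ - f c) + (f c - f p)‖ := by congr 1; abel
        _ ≤ _ := norm_add_le _ _
    rw [h2, norm_sub_rev (f c)] at h3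
    have h4 : M + ‖f p - f c‖ + 1 ≤ μ₁ := le_max_right _ _
    linarith
  have hcont : ContinuousOn (fun μ => ‖f.symm (ray f p q μ) - c‖) (Icc μ₀ μ₁) := by
    apply Continuous.continuousOn
    exact ((f.symm.continuous.comp (continuous_ray f p q)).sub continuous_const).norm
  obtain ⟨μ, hμm, hμe⟩ := intermediate_value_Icc h01 hcont ⟨h0, hfar.le⟩
  exact ⟨μ, hμm.1, hμe⟩

/-- Near-collinearity: the image of a point at distance `s + t` is almost as far away as the sum. -/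
theorem lower (f : E ≃ₜ F) {η δ : ℝ} (hη : 0 ≤ η) {e : E} (he : ‖e‖ = 1) {q p z y' : E}
    {s t : ℝ} (hs : 0 < s) (ht : 0 < t) (hst : s + t < δ)
    (hq : RoundAt f η δ q) (hp : RoundAt f η δ p) (hpq : ‖p - q‖ = t) (hz : ‖z - q‖ = s + t)
    (hy : ‖y' - p‖ = s) :
    ‖f p - f q‖ + ‖f y' - f p‖ ≤ (1 + η * s) * ((1 + η * (s + t)) * ‖f z - f q‖) := by
  have hne : f p ≠ f q := by
    intro h
    have := f.injective h
    subst this
    simp at hpq
    linarith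
  have h0 : ‖f.symm (ray f p q 0) - p‖ ≤ s := by
    have : ray f p q 0 = f p := by simp [ray]
    rw [this, f.symm_apply_apply]; simp [hs.le]
  obtain ⟨μ₁, hμ₁, he₁⟩ := exit f hη he hne (by linarith : s < δ) hp le_rfl h0
  have h1 := hp y' (f.symm (ray f p q μ₁)) (by rw [hy, he₁]) (by rw [hy]; linarith)
  rw [f.apply_symm_apply, norm_ray_sub_p f p q hne hμ₁, hy] at h1
  have h2 : ‖f.symm (ray f p q μ₁) - q‖ ≤ s + t := by
    calc ‖f.symm (ray f p q μ₁) - q‖ = ‖(f.symm (ray f p q μ₁) - p) + (p - q)‖ := by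
          congr 1; abel
      _ ≤ ‖f.symm (ray f p q μ₁) - p‖ + ‖p - q‖ := norm_add_le _ _
      _ = s + t := by rw [he₁, hpq]
  obtain ⟨μ₂, hμ₂, he₂⟩ := exit f hη he hne hst hq hμ₁ h2
  have h3 := hq (f.symm (ray f p q μ₂)) z (by rw [he₂, hz]) (by rw [he₂]; exact hst)
  rw [f.apply_symm_apply, norm_ray_sub_q f p q hne (hμ₁.trans hμ₂), he₂] at h3
  have h4 : ‖f p - f q‖ + μ₁ ≤ (1 + η * (s + t)) * ‖f z - f q‖ := by linarith
  have h5 : 0 ≤ η * s := by positivity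
  have h6 : ‖f p - f q‖ ≤ (1 + η * s) * ‖f p - f q‖ := by nlinarith [norm_nonneg (f p - f q)]
  calc ‖f p - f q‖ + ‖f y' - f p‖ ≤ (1 + η * s) * ‖f p - f q‖ + (1 + η * s) * μ₁ := by linarith
    _ = (1 + η * s) * (‖f p - f q‖ + μ₁) := by ring
    _ ≤ _ := mul_le_mul_of_nonneg_left h4 (by linarith)

end Pool.Agent.Helper137_QC
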