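import Pool.Agent.Helper137_QC.A

set_option autoImplicit false

namespace Pool.Agent.Helper137_QC

open Filter Topology Set

variable {E F : Type*} [NormedAddCommGroup E] [NormedSpace ℝ E]
  [NormedAddCommGroup F] [NormedSpace ℝ F]

/-- distance of the images of `x` and `x + r e` -/
noncomputable def phi (f : E → F) (e x : E) (r : ℝ) : ℝ := ‖f (x + r • e) - f x‖

theorem phi_nonneg (f : E → F) (e x : E) (r : ℝ) : 0 ≤ phi f e x r := norm_nonneg _

/-- the roundness condition at all points of the segment from `x` to `x + T e` -/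
def SegRound (f : E → F) (η δ : ℝ) (e x : E) (T : ℝ) : Prop :=
  ∀ s : ℝ, 0 ≤ s → s ≤ T → RoundAt f η δ (x + s • e)

theorem SegRound.shift {f : E → F} {η δ : ℝ} {e x : E} {T : ℝ} (h : SegRound f η δ e x T)
    {a T' : ℝ} (ha : 0 ≤ a) (hT : a + T' ≤ T) : SegRound f η δ e (x + a • e) T' := by
  intro s hs hsT
  have := h (a + s) (by linarith) (by linarith)
  rwa [add_smul, ← add_assoc] at this

theorem SegRound.mono {f : E → F} {η δ : ℝ} {e x : E} {T T' : ℝ} (h : SegRound f η δ e x T)
    (hT : T' ≤ T) : SegRound f η δ e x T' :=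
  fun s hs hs' => h s hs (hs'.trans hT)

theorem one_add_le_exp (a : ℝ) : 1 + a ≤ Real.exp a := by linarith [Real.add_one_le_exp a]

theorem phi_step {f : E → F} {η δ : ℝ} {e x : E} (he : ‖e‖ = 1) {h : ℝ}
    (hh : 0 < h) (hhδ : h < δ) (hp : RoundAt f η δ (x + h • e)) :
    phi f e x h ≤ Real.exp (η * h) * phi f e (x + h • e) h ∧
      phi f e (x + h • e) h ≤ Real.exp (η * h) * phi f e x h := by
  have h1 : ‖x - (x + h • e)‖ = h := by
    rw [sub_add_cancel_left, norm_neg, norm_smul, he, mul_one, Real.norm_of_nonneg hh.le]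
  have h2 : ‖x + h • e + h • e - (x + h • e)‖ = h := by
    rw [add_sub_cancel_left, norm_smul, he, mul_one, Real.norm_of_nonneg hh.le]
  have h3 := hp x (x + h • e + h • e) (by rw [h1, h2]) (by rw [h1]; exact hhδ)
  have h4 := hp (x + h • e + h • e) x (by rw [h1, h2]) (by rw [h2]; exact hhδ)
  rw [h1] at h3
  rw [h2] at h4
  rw [norm_sub_rev (f x)] at h3 h4
  constructor
  · exact h3.trans (mul_le_mul_of_nonneg_right (one_add_le_exp _) (norm_nonneg _))
  · exact h4.trans (mul_le_mul_of_nonneg_right (one_add_le_exp _) (norm_nonneg _))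

theorem phi_steps {f : E → F} {η δ : ℝ} {e : E} (he : ‖e‖ = 1) {h : ℝ}
    (hh : 0 < h) (hhδ : h < δ) (n : ℕ) : ∀ x : E, SegRound f η δ e x (n * h) →
    phi f e x h ≤ Real.exp (η * (n * h)) * phi f e (x + ((n : ℝ) * h) • e) h ∧
      phi f e (x + ((n : ℝ) * h) • e) h ≤ Real.exp (η * (n * h)) * phi f e x h := by
  induction n with
  | zero => intro x _; simp
  | succ n ih =>
    intro x hseg
    push_cast at hseg ⊢
    have hn : (0 : ℝ) ≤ n := Nat.cast_nonneg n
    have hp : RoundAt f η δ (x + h • e) := hseg h hh.le (by nlinarith)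
    obtain ⟨h1, h2⟩ := phi_step he hh hhδ hp
    obtain ⟨h3, h4⟩ := ih (x + h • e) (hseg.shift hh.le (by linarith))
    have e1 : x + h • e + ((n : ℝ) * h) • e = x + (((n : ℝ) + 1) * h) • e := by
      rw [add_assoc, ← add_smul]; congr 2; ring
    rw [e1] at h3 h4
    have e2 : Real.exp (η * (((n : ℝ) + 1) * h)) = Real.exp (η * h) * Real.exp (η * (n * h)) := by
      rw [← Real.exp_add]; congr 1; ring
    rw [e2]
    constructor
    · calc _ ≤ _ := h1
        _ ≤ Real.exp (η * h) * (Real.exp (η * (n * h)) * phi f e (x + (((n : ℝ) + 1) * h) • e) h) :=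
          mul_le_mul_of_nonneg_left h3 (Real.exp_nonneg _)
        _ = _ := by ring
    · calc _ ≤ _ := h4
        _ ≤ Real.exp (η * (n * h)) * (Real.exp (η * h) * phi f e x h) :=
          mul_le_mul_of_nonneg_left h2 (Real.exp_nonneg _)
        _ = _ := by ring

theorem phi_add (f : E → F) (e x : E) (a b : ℝ) :
    phi f e x (a + b) ≤ phi f e x a + phi f e (x + a • e) b := by
  unfold phi
  have : f (x + (a + b) • e) - f x =
      (f (x + a • e) - f x) + (f (x + a • e + b • e) - f (x + a • e)) := by
    rw [add_smul, ← add_assoc]; abel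
  rw [this]
  exact norm_add_le _ _

theorem upper_steps {f : E → F} {η δ : ℝ} {e : E} (hη : 0 ≤ η) (he : ‖e‖ = 1) {h : ℝ}
    (hh : 0 < h) (hhδ : h < δ) (x : E) (n : ℕ) : SegRound f η δ e x (n * h) →
    phi f e x (n * h) ≤ n * (Real.exp (η * (n * h)) * phi f e x h) := by
  induction n with
  | zero => intro _; simp [phi]
  | succ n ih =>
    intro hseg
    have hseg' : SegRound f η δ e x (n * h) := hseg.mono (by push_cast; nlinarith)
    have h1 := ih hseg'
    have h2 := (phi_steps he hh hhδ n x hseg').2
    have h3 := phi_add f e x (n * h) h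
    push_cast
    have e1 : ((n : ℝ) + 1) * h = n * h + h := by ring
    rw [e1]
    have h4 : Real.exp (η * (n * h)) ≤ Real.exp (η * (n * h + h)) :=
      Real.exp_le_exp.mpr (mul_le_mul_of_nonneg_left (by linarith) hη)
    have h5 : Real.exp (η * (n * h)) * phi f e x h ≤ Real.exp (η * (n * h + h)) * phi f e x h :=
      mul_le_mul_of_nonneg_right h4 (phi_nonneg _ _ _ _)
    have hn : (0 : ℝ) ≤ n := Nat.cast_nonneg n
    have h6 := mul_le_mul_of_nonneg_left h5 hn
    linarith

theorem lower_steps (f : E ≃ₜ F) {η δ : ℝ} (hη : 0 ≤ η) {e : E} (he : ‖e‖ = 1) {h : ℝ}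
    (hh : 0 < h) (n : ℕ) : ∀ x : E, n * h < δ → SegRound f η δ e x (n * h) →
    n * phi f e x h ≤ Real.exp (6 * (η * (n * h))) * phi f e x (n * h) := by
  induction n using Nat.strong_induction_on with
  | _ n ih =>
    intro x hn hseg
    rcases Nat.lt_or_ge n 2 with h2 | h2
    · interval_cases n
      · simp [phi]
      · simp only [Nat.cast_one, one_mul]
        have : (1 : ℝ) ≤ Real.exp (6 * (η * h)) := Real.one_le_exp (by positivity)
        exact le_mul_of_one_le_left (phi_nonneg _ _ _ _) this
    · obtain ⟨a, b, hab, ha1, hb1, h3a, hab'⟩ : ∃ a b : ℕ, a + b = n ∧ 1 ≤ a ∧ 1 ≤ b ∧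
          n ≤ 3 * a ∧ a ≤ b := ⟨n / 2, n - n / 2, by omega, by omega, by omega, by omega, by omega⟩
      have hnr : (n : ℝ) = a + b := by rw [← hab]; push_cast; ring
      have ha1r : (1 : ℝ) ≤ a := by exact_mod_cast ha1
      have hb1r : (1 : ℝ) ≤ b := by exact_mod_cast hb1
      have h3ar : (a : ℝ) + b ≤ 3 * a := by rw [← hnr]; exact_mod_cast h3a
      have habr : (a : ℝ) ≤ b := by exact_mod_cast hab'
      rw [hnr] at hn hseg ⊢
      set A : ℝ := (a : ℝ) * h with hA
      set B : ℝ := (b : ℝ) * h with hB
      have eAB : ((a : ℝ) + b) * h = A + B := by rw [hA, hB]; ring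
      rw [eAB] at hn hseg ⊢
      have hApos : 0 < A := by positivity
      have hBpos : 0 < B := by positivity
      have hA3 : A + B ≤ 3 * A := by rw [hA, hB]; nlinarith
      have hABle : A ≤ B := by rw [hA, hB]; nlinarith
      have hhδ : h < δ := by
        have : h ≤ A := by rw [hA]; nlinarith
        linarith
      have hsegB : SegRound f η δ e x B := hseg.mono (by linarith)
      have hsegp : SegRound f η δ e (x + B • e) A := hseg.shift hBpos.le (by linarith)
      have i1 := ih b (by omega) x (by rw [← hB]; linarith) (by rw [← hB]; exact hsegB)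
      have i2 := ih a (by omega) (x + B • e) (by rw [← hA]; linarith) (by rw [← hA]; exact hsegp)
      rw [← hB] at i1
      rw [← hA] at i2
      have i3 := (phi_steps he hh hhδ b x (by rw [← hB]; exact hsegB)).1
      rw [← hB] at i3
      have hx : RoundAt f η δ x := by simpa using hseg 0 le_rfl (by positivity)
      have hp : RoundAt f η δ (x + B • e) := hseg B hBpos.le (by linarith)
      have hl := lower f hη he (q := x) (p := x + B • e) (z := x + (A + B) • e)
        (y' := x + B • e + A • e) hApos hBpos hn hx hp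
        (by rw [add_sub_cancel_left, norm_smul, he, mul_one, Real.norm_of_nonneg hBpos.le])
        (by rw [add_sub_cancel_left, norm_smul, he, mul_one,
              Real.norm_of_nonneg (by positivity)])
        (by rw [add_sub_cancel_left, norm_smul, he, mul_one, Real.norm_of_nonneg hApos.le])
      change phi f e x B + phi f e (x + B • e) A ≤
        (1 + η * A) * ((1 + η * (A + B)) * phi f e x (A + B)) at hl
      have p0 := phi_nonneg f e x h
      have p1 := phi_nonneg f e x B
      have p2 := phi_nonneg f e (x + B • e) A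
      have p3 := phi_nonneg f e x (A + B)
      have p4 := phi_nonneg f e (x + B • e) h
      have hηA : 0 ≤ η * A := by positivity
      have hηB : 0 ≤ η * B := by positivity
      have hηAB : η * A ≤ η * B := mul_le_mul_of_nonneg_left hABle hη
      have hηA3 : η * A + η * B ≤ 3 * (η * A) := by
        have := mul_le_mul_of_nonneg_left hA3 hη
        linarith
      have hM1 : Real.exp (6 * (η * B)) ≤ Real.exp (4 * (η * (A + B))) :=
        Real.exp_le_exp.mpr (by linarith)
      have hM2 : Real.exp (η * B) * Real.exp (6 * (η * A)) ≤ Real.exp (4 * (η * (A + B))) := by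
        rw [← Real.exp_add]
        exact Real.exp_le_exp.mpr (by linarith)
      have j1 : (b : ℝ) * phi f e x h ≤ Real.exp (4 * (η * (A + B))) * phi f e x B :=
        i1.trans (mul_le_mul_of_nonneg_right hM1 p1)
      have j2 : (a : ℝ) * phi f e x h ≤
          Real.exp (4 * (η * (A + B))) * phi f e (x + B • e) A := by
        calc (a : ℝ) * phi f e x h ≤ a * (Real.exp (η * B) * phi f e (x + B • e) h) :=
              mul_le_mul_of_nonneg_left i3 (by linarith)
          _ = Real.exp (η * B) * (a * phi f e (x + B • e) h) := by ring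
          _ ≤ Real.exp (η * B) * (Real.exp (6 * (η * A)) * phi f e (x + B • e) A) :=
              mul_le_mul_of_nonneg_left i2 (Real.exp_nonneg _)
          _ = (Real.exp (η * B) * Real.exp (6 * (η * A))) * phi f e (x + B • e) A := by ring
          _ ≤ _ := mul_le_mul_of_nonneg_right hM2 p2
      have k1 : (1 + η * A) * ((1 + η * (A + B)) * phi f e x (A + B)) ≤
          Real.exp (2 * (η * (A + B))) * phi f e x (A + B) := by
        calc (1 + η * A) * ((1 + η * (A + B)) * phi f e x (A + B))
            = ((1 + η * A) * (1 + η * (A + B))) * phi f e x (A + B) := by ring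
          _ ≤ (Real.exp (η * (A + B)) * Real.exp (η * (A + B))) * phi f e x (A + B) := by
              apply mul_le_mul_of_nonneg_right _ p3
              apply mul_le_mul
              · exact (one_add_le_exp _).trans (Real.exp_le_exp.mpr (by linarith))
              · exact one_add_le_exp _
              · have : 0 ≤ η * (A + B) := by positivity
                linarith
              · exact Real.exp_nonneg _
          _ = _ := by rw [← Real.exp_add]; congr 2; ring
      calc ((a : ℝ) + b) * phi f e x h = b * phi f e x h + a * phi f e x h := by ring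
        _ ≤ Real.exp (4 * (η * (A + B))) * phi f e x B +
            Real.exp (4 * (η * (A + B))) * phi f e (x + B • e) A := add_le_add j1 j2
        _ = Real.exp (4 * (η * (A + B))) * (phi f e x B + phi f e (x + B • e) A) := by ring
        _ ≤ Real.exp (4 * (η * (A + B))) * (Real.exp (2 * (η * (A + B))) * phi f e x (A + B)) :=
            mul_le_mul_of_nonneg_left (hl.trans k1) (Real.exp_nonneg _)
        _ = (Real.exp (4 * (η * (A + B))) * Real.exp (2 * (η * (A + B)))) *
              phi f e x (A + B) := by ring
        _ = _ := by rw [← Real.exp_add]; congr 2; ring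

end Pool.Agent.Helper137_QC
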