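import Pool.Agent.Helper137_QC.B

set_option autoImplicit false
set_option linter.unusedSectionVars false

namespace Pool.Agent.Helper137_QC

open Filter Topology Set

variable {E F : Type*} [NormedAddCommGroup E] [NormedSpace ℝ E]
  [NormedAddCommGroup F] [NormedSpace ℝ F]

theorem compare_discrete (f : E ≃ₜ F) {η δ : ℝ} (hη : 0 ≤ η) {e : E} (he : ‖e‖ = 1) (x : E)
    {r : ℝ} (hr : 0 < r) (hrδ : r < δ) (hseg : SegRound f η δ e x r) (m N : ℕ) (hN : 0 < N)
    (hmN : m ≤ N) :
    phi f e x (((m : ℝ) / N) * r) ≤ ((m : ℝ) / N) * (Real.exp (7 * (η * r)) * phi f e x r) ∧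
      ((m : ℝ) / N) * phi f e x r ≤ Real.exp (7 * (η * r)) * phi f e x (((m : ℝ) / N) * r) := by
  have hNr : (0 : ℝ) < N := by exact_mod_cast hN
  have hmr : (m : ℝ) ≤ N := by exact_mod_cast hmN
  have hm0 : (0 : ℝ) ≤ m := Nat.cast_nonneg m
  set h : ℝ := r / N with hh
  have hhpos : 0 < h := by positivity
  have e1 : (N : ℝ) * h = r := by rw [hh]; field_simp
  have e2 : ((m : ℝ) / N) * r = m * h := by rw [hh]; field_simp
  have hmh : (m : ℝ) * h ≤ r := by rw [← e1]; nlinarith
  have hmh0 : 0 ≤ (m : ℝ) * h := by positivity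
  have hhδ : h < δ := by
    have : h ≤ N * h := by
      have h1 : (1 : ℝ) ≤ N := by exact_mod_cast hN
      nlinarith
    linarith
  have hsegN : SegRound f η δ e x (N * h) := by rw [e1]; exact hseg
  have hsegm : SegRound f η δ e x (m * h) := hseg.mono hmh
  have u1 := upper_steps hη he hhpos hhδ x m hsegm
  have u2 := upper_steps hη he hhpos hhδ x N hsegN
  have l1 := lower_steps f hη he hhpos N x (by rw [e1]; exact hrδ) hsegN
  have l2 := lower_steps f hη he hhpos m x (by linarith) hsegm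
  rw [e1] at u2 l1
  rw [e2]
  have q1 := phi_nonneg f e x h
  have q2 := phi_nonneg f e x r
  have q3 := phi_nonneg f e x (m * h)
  have hηr : 0 ≤ η * r := by positivity
  have hηm : η * (m * h) ≤ η * r := mul_le_mul_of_nonneg_left hmh hη
  have x1 : Real.exp (η * (m * h)) * Real.exp (6 * (η * r)) ≤ Real.exp (7 * (η * r)) := by
    rw [← Real.exp_add]; exact Real.exp_le_exp.mpr (by linarith)
  have x2 : Real.exp (η * r) * Real.exp (6 * (η * (m * h))) ≤ Real.exp (7 * (η * r)) := by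
    rw [← Real.exp_add]; exact Real.exp_le_exp.mpr (by linarith)
  constructor
  · have : (N : ℝ) * phi f e x (m * h) ≤ m * (Real.exp (7 * (η * r)) * phi f e x r) := by
      calc (N : ℝ) * phi f e x (m * h) ≤ N * (m * (Real.exp (η * (m * h)) * phi f e x h)) :=
            mul_le_mul_of_nonneg_left u1 hNr.le
        _ = (m * Real.exp (η * (m * h))) * (N * phi f e x h) := by ring
        _ ≤ (m * Real.exp (η * (m * h))) * (Real.exp (6 * (η * r)) * phi f e x r) :=
            mul_le_mul_of_nonneg_left l1 (by positivity)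
        _ = m * ((Real.exp (η * (m * h)) * Real.exp (6 * (η * r))) * phi f e x r) := by ring
        _ ≤ _ := mul_le_mul_of_nonneg_left (mul_le_mul_of_nonneg_right x1 q2) hm0
    rw [div_mul_eq_mul_div, le_div_iff₀ hNr]
    linarith
  · have : (m : ℝ) * phi f e x r ≤ N * (Real.exp (7 * (η * r)) * phi f e x (m * h)) := by
      calc (m : ℝ) * phi f e x r ≤ m * (N * (Real.exp (η * r) * phi f e x h)) :=
            mul_le_mul_of_nonneg_left u2 hm0
        _ = (N * Real.exp (η * r)) * (m * phi f e x h) := by ring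
        _ ≤ (N * Real.exp (η * r)) * (Real.exp (6 * (η * (m * h))) * phi f e x (m * h)) :=
            mul_le_mul_of_nonneg_left l2 (by positivity)
        _ = N * ((Real.exp (η * r) * Real.exp (6 * (η * (m * h)))) * phi f e x (m * h)) := by
            ring
        _ ≤ _ := mul_le_mul_of_nonneg_left (mul_le_mul_of_nonneg_right x2 q3) hNr.le
    rw [div_mul_eq_mul_div, div_le_iff₀ hNr]
    linarith

theorem compare (f : E ≃ₜ F) {η δ : ℝ} (hη : 0 ≤ η) {e : E} (he : ‖e‖ = 1) (x : E)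
    {r r' : ℝ} (hr' : 0 < r') (hr'r : r' ≤ r) (hrδ : r < δ) (hseg : SegRound f η δ e x r) :
    phi f e x r' ≤ (r' / r) * (Real.exp (7 * (η * r)) * phi f e x r) ∧
      (r' / r) * phi f e x r ≤ Real.exp (7 * (η * r)) * phi f e x r' := by
  have hr : 0 < r := hr'.trans_le hr'r
  have hl0 : 0 ≤ r' / r := by positivity
  have hl1 : r' / r ≤ 1 := (div_le_one hr).mpr hr'r
  have hcont : Continuous (fun t : ℝ => phi f e x (t * r)) := by
    unfold phi
    exact ((f.continuous.comp (by fun_prop)).sub continuous_const).norm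
  have hlim : Tendsto (fun N : ℕ => (⌊(r' / r) * (N : ℝ)⌋₊ : ℝ) / (N : ℝ)) atTop
      (𝓝 (r' / r)) :=
    (tendsto_nat_floor_mul_div_atTop hl0).comp tendsto_natCast_atTop_atTop
  have hle : ∀ N : ℕ, ⌊(r' / r) * (N : ℝ)⌋₊ ≤ N := by
    intro N
    have : (r' / r) * (N : ℝ) ≤ N := mul_le_of_le_one_left (Nat.cast_nonneg N) hl1
    calc ⌊(r' / r) * (N : ℝ)⌋₊ ≤ ⌊(N : ℝ)⌋₊ := Nat.floor_le_floor this
      _ = N := Nat.floor_natCast N
  have hphi : Tendsto (fun N : ℕ => phi f e x ((⌊(r' / r) * (N : ℝ)⌋₊ : ℝ) / (N : ℝ) * r)) atTop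
      (𝓝 (phi f e x (r' / r * r))) := (hcont.tendsto (r' / r)).comp hlim
  have er : r' / r * r = r' := by field_simp
  rw [er] at hphi
  constructor
  · refine le_of_tendsto_of_tendsto hphi (hlim.mul_const _) ?_
    filter_upwards [eventually_gt_atTop 0] with N hN
    exact (compare_discrete f hη he x hr hrδ hseg _ N hN (hle N)).1
  · refine le_of_tendsto_of_tendsto (hlim.mul_const _) (hphi.const_mul _) ?_
    filter_upwards [eventually_gt_atTop 0] with N hN
    exact (compare_discrete f hη he x hr hrδ hseg _ N hN (hle N)).2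

theorem phi_pos (f : E ≃ₜ F) {e : E} (he : ‖e‖ = 1) (x : E) {r : ℝ} (hr : 0 < r) :
    0 < phi f e x r := by
  unfold phi
  rw [norm_pos_iff, sub_ne_zero]
  intro h
  have h1 := f.injective h
  have h2 : r • e = 0 := by simpa using h1
  have h3 : ‖r • e‖ = r := by rw [norm_smul, he, mul_one, Real.norm_of_nonneg hr.le]
  rw [h2, norm_zero] at h3
  linarith

/-- logarithm of the scaling ratio of `f` at `x`, at scale `r`, in the direction `e` -/
noncomputable def Lg (f : E → F) (e x : E) (r : ℝ) : ℝ := Real.log (phi f e x r / r)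

theorem Lg_compare (f : E ≃ₜ F) {η δ : ℝ} (hη : 0 ≤ η) {e : E} (he : ‖e‖ = 1) (x : E)
    {r r' : ℝ} (hr' : 0 < r') (hr'r : r' ≤ r) (hrδ : r < δ) (hseg : SegRound f η δ e x r) :
    |Lg f e x r' - Lg f e x r| ≤ 7 * (η * r) := by
  have hr : 0 < r := hr'.trans_le hr'r
  obtain ⟨h1, h2⟩ := compare f hη he x hr' hr'r hrδ hseg
  have p1 := phi_pos f he x hr'
  have p2 := phi_pos f he x hr
  have k1 : phi f e x r' / r' ≤ Real.exp (7 * (η * r)) * (phi f e x r / r) := by
    rw [div_le_iff₀ hr']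
    calc _ ≤ _ := h1
      _ = _ := by field_simp
  have k2 : phi f e x r / r ≤ Real.exp (7 * (η * r)) * (phi f e x r' / r') := by
    rw [← mul_le_mul_iff_right₀ hr']
    calc r' * (phi f e x r / r) = (r' / r) * phi f e x r := by field_simp
      _ ≤ _ := h2
      _ = _ := by field_simp
  have q1 : 0 < phi f e x r' / r' := by positivity
  have q2 : 0 < phi f e x r / r := by positivity
  have l1 := Real.log_le_log q1 k1
  have l2 := Real.log_le_log q2 k2
  rw [Real.log_mul (Real.exp_pos _).ne' q2.ne', Real.log_exp] at l1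
  rw [Real.log_mul (Real.exp_pos _).ne' q1.ne', Real.log_exp] at l2
  unfold Lg
  rw [abs_le]
  constructor <;> linarith

/-- Around `x` the map is round with constant `η` up to radius `R`. -/
def BallRound (f : E → F) (η x_R : ℝ) (x : E) : Prop :=
  ∃ δ, x_R < δ ∧ ∀ y, ‖y - x‖ ≤ x_R → RoundAt f η δ y

theorem BallRound.seg {f : E → F} {η R : ℝ} {x e : E} (he : ‖e‖ = 1) (h : BallRound f η R x)
    {r : ℝ} (hrR : r ≤ R) : ∃ δ, r < δ ∧ SegRound f η δ e x r := by
  obtain ⟨δ, hδ, hy⟩ := h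
  refine ⟨δ, hrR.trans_lt hδ, fun s hs hsr => hy _ ?_⟩
  rw [add_sub_cancel_left, norm_smul, he, mul_one, Real.norm_of_nonneg hs]
  linarith

theorem exists_limit (f : E ≃ₜ F) {e : E} (he : ‖e‖ = 1) (x : E) {R₀ : ℝ} (hR₀ : 0 < R₀)
    (h₀ : BallRound f 1 R₀ x) :
    ∃ l : ℝ, ∀ η R r : ℝ, 0 ≤ η → 0 < r → r ≤ R → BallRound f η R x →
      |Lg f e x r - l| ≤ 7 * (η * r) := by
  set s : ℕ → ℝ := fun n => R₀ / ((n : ℝ) + 1) with hs
  have hspos : ∀ n, 0 < s n := fun n => by rw [hs]; positivity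
  have hsanti : ∀ n m, n ≤ m → s m ≤ s n := by
    intro n m hnm
    have : (n : ℝ) ≤ m := by exact_mod_cast hnm
    exact div_le_div_of_nonneg_left hR₀.le (by positivity) (by linarith)
  have hs0 : ∀ n, s n ≤ R₀ := by
    intro n
    have := hsanti 0 n (Nat.zero_le n)
    simpa [hs] using this
  have hslim : Tendsto s atTop (𝓝 0) := by
    have h1 : Tendsto (fun n : ℕ => (n : ℝ) + 1) atTop atTop :=
      tendsto_natCast_atTop_atTop.atTop_add tendsto_const_nhds
    exact h1.const_div_atTop R₀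
  have hcau : CauchySeq (fun n => Lg f e x (s n)) := by
    apply cauchySeq_of_le_tendsto_0' (fun n => 7 * (1 * s n))
    · intro n m hnm
      obtain ⟨δ, hδ, hseg⟩ := h₀.seg he (hs0 n)
      have := Lg_compare f zero_le_one he x (hspos m) (hsanti n m hnm) hδ hseg
      rw [dist_comm, Real.dist_eq]
      exact this
    · have := (hslim.const_mul (1 : ℝ)).const_mul (7 : ℝ)
      simpa using this
  obtain ⟨l, hl⟩ := cauchySeq_tendsto_of_complete hcau
  refine ⟨l, fun η R r hη hr hrR hball => ?_⟩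
  obtain ⟨δ, hδ, hseg⟩ := hball.seg he hrR
  have hlim : Tendsto (fun n => |Lg f e x r - Lg f e x (s n)|) atTop (𝓝 |Lg f e x r - l|) :=
    (tendsto_const_nhds.sub hl).abs
  refine le_of_tendsto hlim ?_
  have hev : ∀ᶠ n in atTop, s n < r := hslim.eventually (gt_mem_nhds hr)
  filter_upwards [hev] with n hn
  rw [abs_sub_comm]
  exact Lg_compare f hη he x (hspos n) hn.le hδ hseg

/-- In all directions: the logarithm of the ratio of distances is `η`-close to the limit. -/
theorem all_directions (f : E ≃ₜ F) {e : E} (he : ‖e‖ = 1) {x : E} {l : ℝ}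
    (hl : ∀ η R r : ℝ, 0 ≤ η → 0 < r → r ≤ R → BallRound f η R x →
      |Lg f e x r - l| ≤ 7 * (η * r))
    {η R : ℝ} (hη : 0 ≤ η) (hball : BallRound f η R x) {y : E} (hyx : y ≠ x)
    (hyR : ‖y - x‖ ≤ R) :
    |Real.log (‖f y - f x‖ / ‖y - x‖) - l| ≤ 8 * (η * ‖y - x‖) := by
  set r := ‖y - x‖ with hr
  have hrpos : 0 < r := norm_pos_iff.mpr (sub_ne_zero.mpr hyx)
  have h1 := hl η R r hη hrpos hyR hball
  obtain ⟨δ, hδ, hy⟩ := hball
  have hx : RoundAt f η δ x := hy x (by simpa using hrpos.le.trans hyR)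
  have hr2 : ‖x + r • e - x‖ = r := by
    rw [add_sub_cancel_left, norm_smul, he, mul_one, Real.norm_of_nonneg hrpos.le]
  have a1 := hx y (x + r • e) (by rw [hr2]) (by rw [← hr]; linarith)
  have a2 := hx (x + r • e) y (by rw [hr2]) (by rw [hr2]; linarith)
  rw [← hr] at a1
  rw [hr2] at a2
  have p1 : 0 < phi f e x r := phi_pos f he x hrpos
  have p2 : 0 < ‖f y - f x‖ := norm_pos_iff.mpr (sub_ne_zero.mpr (f.injective.ne hyx))
  change ‖f y - f x‖ ≤ (1 + η * r) * phi f e x r at a1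
  change phi f e x r ≤ (1 + η * r) * ‖f y - f x‖ at a2
  have b1 : ‖f y - f x‖ / r ≤ Real.exp (η * r) * (phi f e x r / r) := by
    rw [← mul_div_assoc]
    exact div_le_div_of_nonneg_right
      (a1.trans (mul_le_mul_of_nonneg_right (one_add_le_exp _) p1.le)) hrpos.le
  have b2 : phi f e x r / r ≤ Real.exp (η * r) * (‖f y - f x‖ / r) := by
    rw [← mul_div_assoc]
    exact div_le_div_of_nonneg_right
      (a2.trans (mul_le_mul_of_nonneg_right (one_add_le_exp _) p2.le)) hrpos.le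
  have q1 : 0 < ‖f y - f x‖ / r := by positivity
  have q2 : 0 < phi f e x r / r := by positivity
  have l1 := Real.log_le_log q1 b1
  have l2 := Real.log_le_log q2 b2
  rw [Real.log_mul (Real.exp_pos _).ne' q2.ne', Real.log_exp] at l1
  rw [Real.log_mul (Real.exp_pos _).ne' q1.ne', Real.log_exp] at l2
  unfold Lg at h1
  rw [abs_le] at h1 ⊢
  constructor <;> linarith [h1.1, h1.2]

/-- Local Lipschitz bounds (pointwise) give global ones. -/
theorem lipschitz_of_local {g : E → F} (hg : Continuous g) {C : ℝ}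
    (h : ∀ x, ∀ᶠ y in 𝓝 x, ‖g y - g x‖ ≤ C * ‖y - x‖) (a b : E) :
    ‖g b - g a‖ ≤ C * ‖b - a‖ := by
  set γ : ℝ → E := fun t => a + t • (b - a) with hγ
  have hγc : Continuous γ := by rw [hγ]; fun_prop
  set s : Set ℝ := {t | ‖g (γ t) - g a‖ ≤ C * (t * ‖b - a‖)} with hs
  have hclosed : IsClosed s := by
    apply isClosed_le
    · exact ((hg.comp hγc).sub continuous_const).norm
    · fun_prop
  have h0 : (0 : ℝ) ∈ s := by simp [hs, hγ]
  have hsub : Icc (0 : ℝ) 1 ⊆ s := by
    apply IsClosed.Icc_subset_of_forall_exists_gt (hclosed.inter isClosed_Icc) h0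
    rintro t ⟨hts, ht0, ht1⟩ y hy
    have hev : ∀ᶠ t' in 𝓝 t, ‖g (γ t') - g (γ t)‖ ≤ C * ‖γ t' - γ t‖ :=
      (hγc.tendsto t).eventually (h (γ t))
    have hev2 : ∀ᶠ t' in 𝓝[>] t, ‖g (γ t') - g (γ t)‖ ≤ C * ‖γ t' - γ t‖ :=
      hev.filter_mono nhdsWithin_le_nhds
    have hev3 : ∀ᶠ t' in 𝓝[>] t, t' ∈ Ioc t y := Ioc_mem_nhdsGT hy
    obtain ⟨t', h1, h2⟩ := (hev2.and hev3).exists
    refine ⟨t', ?_, h2⟩
    have e1 : γ t' - γ t = (t' - t) • (b - a) := by
      rw [hγ]; simp only [add_sub_add_left_eq_sub, sub_smul]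
    rw [e1, norm_smul, Real.norm_of_nonneg (by linarith [h2.1])] at h1
    have h3 : ‖g (γ t) - g a‖ ≤ C * (t * ‖b - a‖) := hts
    change ‖g (γ t') - g a‖ ≤ C * (t' * ‖b - a‖)
    calc ‖g (γ t') - g a‖ = ‖(g (γ t') - g (γ t)) + (g (γ t) - g a)‖ := by congr 1; abel
      _ ≤ _ := norm_add_le _ _
      _ ≤ C * ((t' - t) * ‖b - a‖) + C * (t * ‖b - a‖) := add_le_add h1 h3
      _ = _ := by ring
  have h1 := hsub (right_mem_Icc.mpr zero_le_one)
  simpa [hs, hγ] using h1

/-- If at every point the distances are infinitesimally scaled by `c`, `f` is a similarity. -/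
theorem similarity_of_infinitesimal (f : E ≃ₜ F) {c : ℝ} (hc : 0 < c)
    (h : ∀ x, ∀ ε : ℝ, 0 < ε → ∀ᶠ y in 𝓝 x, ‖f y - f x‖ ≤ (c + ε) * ‖y - x‖ ∧
      (c - ε) * ‖y - x‖ ≤ ‖f y - f x‖) (a b : E) : ‖f a - f b‖ = c * ‖a - b‖ := by
  apply le_antisymm
  · apply le_of_forall_pos_le_add
    intro ε hε
    have hε' : 0 < ε / (‖a - b‖ + 1) := by positivity
    have h1 := lipschitz_of_local f.continuous (C := c + ε / (‖a - b‖ + 1))
      (fun x => (h x _ hε').mono fun y hy => hy.1) b a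
    have h2 : ε / (‖a - b‖ + 1) * ‖a - b‖ ≤ ε := by
      rw [div_mul_eq_mul_div, div_le_iff₀ (by positivity)]
      nlinarith [norm_nonneg (a - b)]
    linarith
  · -- lower bound through the inverse map
    have key : ∀ ε : ℝ, 0 < ε → ε < c → (c - ε) * ‖a - b‖ ≤ ‖f a - f b‖ := by
      intro ε hε hεc
      have hce : 0 < c - ε := by linarith
      have h1 := lipschitz_of_local f.symm.continuous (C := (c - ε)⁻¹) (fun w => by
        have h2 := (h (f.symm w) ε hε).mono fun y hy => hy.2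
        have h3 : ∀ᶠ v in 𝓝 w, (c - ε) * ‖f.symm v - f.symm w‖ ≤
            ‖f (f.symm v) - f (f.symm w)‖ := (f.symm.continuous.tendsto w).eventually h2
        filter_upwards [h3] with v hv
        rw [f.apply_symm_apply, f.apply_symm_apply] at hv
        rw [inv_mul_eq_div, le_div_iff₀ hce]
        linarith) (f b) (f a)
      rw [f.symm_apply_apply, f.symm_apply_apply, inv_mul_eq_div, le_div_iff₀ hce] at h1
      linarith
    apply le_of_forall_pos_le_add
    intro ε hε
    have hpos : 0 < min (ε / (‖a - b‖ + 1)) (c / 2) := lt_min (by positivity) (by positivity)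
    have h1 := key (min (ε / (‖a - b‖ + 1)) (c / 2)) hpos
      (lt_of_le_of_lt (min_le_right _ _) (by linarith))
    have h2 : ε / (‖a - b‖ + 1) * ‖a - b‖ ≤ ε := by
      rw [div_mul_eq_mul_div, div_le_iff₀ (by positivity)]
      nlinarith [norm_nonneg (a - b)]
    have h3 : min (ε / (‖a - b‖ + 1)) (c / 2) * ‖a - b‖ ≤ ε / (‖a - b‖ + 1) * ‖a - b‖ :=
      mul_le_mul_of_nonneg_right (min_le_left _ _) (norm_nonneg _)
    linarith

end Pool.Agent.Helper137_QC
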