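import Pool.Agent.Helper137_QC.C

set_option autoImplicit false
set_option linter.unusedSectionVars false

namespace Pool.Agent.Helper137_QC

open Filter Topology Set

variable {E F : Type*} [NormedAddCommGroup E] [NormedSpace ℝ E]
  [NormedAddCommGroup F] [NormedSpace ℝ F]

theorem main_nontrivial [Nontrivial E] (f : E ≃ₜ F)
    (h : ∀ x₀ : E, ∀ η : ℝ, 0 < η → ∃ δ : ℝ, 0 < δ ∧
      ∀ x : E, ‖x - x₀‖ < δ → RoundAt f η δ x) :
    ∃ c : ℝ, 0 < c ∧ ∀ a b : E, ‖f a - f b‖ = c * ‖a - b‖ := by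
  obtain ⟨e, he⟩ := exists_norm_eq E zero_le_one
  -- good radii
  have hgood : ∀ x₀ : E, ∀ η : ℝ, 0 < η → ∃ R : ℝ, 0 < R ∧
      ∀ x : E, ‖x - x₀‖ < R → BallRound f η R x := by
    intro x₀ η hη
    obtain ⟨δ, hδ, hδ'⟩ := h x₀ η hη
    refine ⟨δ / 2, by positivity, fun x hx => ⟨δ, by linarith, fun y hy => hδ' y ?_⟩⟩
    calc ‖y - x₀‖ = ‖(y - x) + (x - x₀)‖ := by congr 1; abel
      _ ≤ ‖y - x‖ + ‖x - x₀‖ := norm_add_le _ _
      _ < δ := by linarith
  -- the limit of the logarithmic scaling ratio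
  have hlim : ∀ x : E, ∃ l : ℝ, ∀ η R r : ℝ, 0 ≤ η → 0 < r → r ≤ R → BallRound f η R x →
      |Lg f e x r - l| ≤ 7 * (η * r) := by
    intro x
    obtain ⟨R, hR, hR'⟩ := hgood x 1 one_pos
    exact exists_limit f he x hR (hR' x (by simpa using hR))
  choose l hl using hlim
  -- estimate in all directions
  have hdir : ∀ {η R : ℝ} {x y : E}, 0 ≤ η → BallRound f η R x → y ≠ x → ‖y - x‖ ≤ R →
      |Real.log (‖f y - f x‖ / ‖y - x‖) - l x| ≤ 8 * (η * ‖y - x‖) := by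
    intro η R x y hη hb hyx hyR
    exact all_directions f he (hl x) hη hb hyx hyR
  -- the limit has derivative zero
  have hder : ∀ x₀ : E, HasFDerivAt l (0 : E →L[ℝ] ℝ) x₀ := by
    intro x₀
    rw [hasFDerivAt_iff_isLittleO, Asymptotics.isLittleO_iff]
    intro ε hε
    obtain ⟨R, hR, hR'⟩ := hgood x₀ (ε / 16) (by positivity)
    have hball : Metric.ball x₀ R ∈ 𝓝 x₀ := Metric.ball_mem_nhds _ hR
    filter_upwards [hball] with x hx
    rw [Metric.mem_ball, dist_eq_norm] at hx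
    by_cases hxx : x = x₀
    · subst hxx; simp
    have h1 := hdir (by positivity) (hR' x₀ (by simpa using hR)) hxx hx.le
    have h2 := hdir (by positivity) (hR' x hx) (Ne.symm hxx)
      (by rw [norm_sub_rev]; exact hx.le)
    rw [norm_sub_rev (f x₀), norm_sub_rev x₀] at h2
    have h3 : |l x - l x₀| ≤ ε * ‖x - x₀‖ := by
      rw [abs_le] at h1 h2 ⊢
      constructor <;> linarith [h1.1, h1.2, h2.1, h2.2]
    simpa using h3
  have hconst : ∀ x y : E, l x = l y := by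
    apply is_const_of_fderiv_eq_zero (𝕜 := ℝ) (fun x => (hder x).differentiableAt)
    intro x
    exact (hder x).fderiv
  refine ⟨Real.exp (l 0), Real.exp_pos _, ?_⟩
  apply similarity_of_infinitesimal f (Real.exp_pos _)
  intro x ε hε
  obtain ⟨R, hR, hR'⟩ := hgood x 1 one_pos
  have hb := hR' x (by simpa using hR)
  have hlx : l x = l 0 := hconst x 0
  have ht1 : Tendsto (fun y : E => Real.exp (l 0 + 8 * (1 * ‖y - x‖))) (𝓝 x)
      (𝓝 (Real.exp (l 0))) := by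
    have : Continuous (fun y : E => Real.exp (l 0 + 8 * (1 * ‖y - x‖))) := by fun_prop
    have := this.tendsto x
    simpa using this
  have ht2 : Tendsto (fun y : E => Real.exp (l 0 - 8 * (1 * ‖y - x‖))) (𝓝 x)
      (𝓝 (Real.exp (l 0))) := by
    have : Continuous (fun y : E => Real.exp (l 0 - 8 * (1 * ‖y - x‖))) := by fun_prop
    have := this.tendsto x
    simpa using this
  have he1 : ∀ᶠ y in 𝓝 x, Real.exp (l 0 + 8 * (1 * ‖y - x‖)) < Real.exp (l 0) + ε :=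
    ht1.eventually (gt_mem_nhds (by linarith))
  have he2 : ∀ᶠ y in 𝓝 x, Real.exp (l 0) - ε < Real.exp (l 0 - 8 * (1 * ‖y - x‖)) :=
    ht2.eventually (lt_mem_nhds (by linarith))
  filter_upwards [he1, he2, Metric.ball_mem_nhds x hR] with y h1 h2 h3
  rw [Metric.mem_ball, dist_eq_norm] at h3
  by_cases hyx : y = x
  · subst hyx; simp
  have h4 := hdir zero_le_one hb hyx h3.le
  rw [hlx, abs_le] at h4
  have hr : 0 < ‖y - x‖ := norm_pos_iff.mpr (sub_ne_zero.mpr hyx)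
  have hf : 0 < ‖f y - f x‖ := norm_pos_iff.mpr (sub_ne_zero.mpr (f.injective.ne hyx))
  have hq : 0 < ‖f y - f x‖ / ‖y - x‖ := by positivity
  have h5 : ‖f y - f x‖ / ‖y - x‖ ≤ Real.exp (l 0 + 8 * (1 * ‖y - x‖)) := by
    rw [← Real.log_le_iff_le_exp hq]; linarith [h4.2]
  have h6 : Real.exp (l 0 - 8 * (1 * ‖y - x‖)) ≤ ‖f y - f x‖ / ‖y - x‖ := by
    rw [← Real.le_log_iff_exp_le hq]; linarith [h4.1]
  constructor
  · rw [← div_le_iff₀ hr]; linarith
  · rw [← le_div_iff₀ hr]; linarith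

theorem main (f : E ≃ₜ F)
    (h : ∀ x₀ : E, ∀ η : ℝ, 0 < η → ∃ δ : ℝ, 0 < δ ∧
      ∀ x : E, ‖x - x₀‖ < δ → RoundAt f η δ x) :
    ∃ c : ℝ, 0 < c ∧ ∀ a b : E, ‖f a - f b‖ = c * ‖a - b‖ := by
  rcases subsingleton_or_nontrivial E with hE | hE
  · refine ⟨1, one_pos, fun a b => ?_⟩
    rw [Subsingleton.elim a b]; simp
  · exact main_nontrivial f h

end Pool.Agent.Helper137_QC
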