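import Pool.Agent.Helper137_QC.S5

set_option autoImplicit false
set_option linter.unusedSectionVars false

namespace Pool.Agent.Helper137_QC

open Filter Topology Set

variable {F : Type*} [NormedAddCommGroup F] [NormedSpace ℝ F]

/-- data on a segment `[0, r]`: `S` is the set of round points, off `S` the curve is affine -/
structure LineData (g : ℝ → F) (S : Set ℝ) (r : ℝ) : Prop where
  rpos : 0 < r
  cont : Continuous g
  closed : IsClosed S
  zero : (0 : ℝ) ∈ S
  sup : ∀ t₀ t₁ t₂ : ℝ, t₀ ∈ Icc 0 r → t₂ ∈ Icc 0 r → t₀ ∈ S → t₁ ∈ S →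
    (t₀ ≤ t₁ ∧ t₁ ≤ t₂ ∨ t₂ ≤ t₁ ∧ t₁ ≤ t₀) →
    ‖g t₁ - g t₀‖ + ‖g t₂ - g t₁‖ ≤ Real.exp (2 * |t₂ - t₀|) * ‖g t₂ - g t₀‖
  sym : ∀ t ∈ S, ∀ s : ℝ, 0 < s → 0 ≤ t - s → t + s ≤ r →
    ‖g (t + s) - g t‖ ≤ Real.exp s * ‖g (t - s) - g t‖ ∧
      ‖g (t - s) - g t‖ ≤ Real.exp s * ‖g (t + s) - g t‖
  gap : ∀ a b : ℝ, 0 ≤ a → a < b → b ≤ r → (∀ t ∈ Ioo a b, t ∉ S) →
    ∀ t ∈ Icc a b, g t - g a = ((t - a) / (b - a)) • (g b - g a)

theorem LineData.chain {g : ℝ → F} {S : Set ℝ} {r : ℝ} (D : LineData g S r) (n : ℕ) :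
    ∀ w : ℕ → ℝ, Monotone w → (∀ i, w i ∈ Icc 0 r) → (∀ i ≤ n, w i ∈ S ∨ w i = w n) →
      ∑ i ∈ Finset.range n, ‖g (w (i + 1)) - g (w i)‖ ≤
        Real.exp (8 * (w n - w 0)) * ‖g (w n) - g (w 0)‖ := by
  induction n using Nat.strong_induction_on with
  | _ n ih =>
    intro w hw hI hS
    have hle : w 0 ≤ w n := hw (Nat.zero_le n)
    rcases hle.eq_or_lt with heq | hlt
    · have hz : ∀ i ∈ Finset.range n, ‖g (w (i + 1)) - g (w i)‖ = 0 := by
        intro i hi
        have hi' := Finset.mem_range.mp hi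
        have h1 : w (i + 1) = w 0 := le_antisymm ((hw (by omega)).trans heq.ge) (hw (by omega))
        have h2 : w i = w 0 := le_antisymm ((hw (by omega)).trans heq.ge) (hw (by omega))
        rw [h1, h2]; simp
      rw [Finset.sum_eq_zero hz]; positivity
    · set mid := (w 0 + w n) / 2 with hmid
      set k := Nat.findGreatest (fun k => w k ≤ mid) n with hk
      have hk1 : w k ≤ mid :=
        Nat.findGreatest_spec (P := fun k => w k ≤ mid) (Nat.zero_le n) (by
          simp only [hmid]; linarith)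
      have hkn : k < n := by
        rcases (Nat.findGreatest_le (P := fun k => w k ≤ mid) n).eq_or_lt with h | h
        · exfalso
          rw [← hk] at h
          rw [h] at hk1
          simp only [hmid] at hk1; linarith
        · exact h
      have hk2 : mid < w (k + 1) := by
        have := Nat.findGreatest_is_greatest (P := fun k => w k ≤ mid) (n := n) (k := k + 1)
          (by omega) (by omega)
        simpa using this
      obtain ⟨m, hm⟩ : ∃ m, n = k + 1 + m := ⟨n - (k + 1), by omega⟩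
      have hwkn : w k < w n := by
        have : mid < w n := by simp only [hmid]; linarith
        linarith
      have h0S : w 0 ∈ S := (hS 0 (Nat.zero_le n)).resolve_right hlt.ne
      have hkS : w k ∈ S := (hS k hkn.le).resolve_right hwkn.ne
      -- first part
      have i1 := ih k hkn w hw hI (by
        intro i hi
        rcases hS i (hi.trans hkn.le) with h | h
        · exact Or.inl h
        · exfalso
          have := hw hi
          rw [h] at this
          linarith)
      -- second part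
      have i2 := ih m (by omega) (fun j => w (k + 1 + j)) (fun a b hab => hw (by omega))
        (fun j => hI _) (by
          intro i hi
          rw [← hm]
          exact hS _ (by omega))
      simp only [add_zero] at i2
      rw [← hm] at i2
      have hsum : ∑ i ∈ Finset.range n, ‖g (w (i + 1)) - g (w i)‖ =
          (∑ i ∈ Finset.range k, ‖g (w (i + 1)) - g (w i)‖ + ‖g (w (k + 1)) - g (w k)‖) +
          ∑ j ∈ Finset.range m, ‖g (w (k + 1 + (j + 1))) - g (w (k + 1 + j))‖ := by
        rw [hm, Finset.sum_range_add, Finset.sum_range_succ]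
        rfl
      have hr0 : 0 ≤ w n - w 0 := by linarith
      -- combine
      have s1 := D.sup (w 0) (w k) (w n) (hI _) (hI _) h0S hkS
        (Or.inl ⟨hw (Nat.zero_le _), hwkn.le⟩)
      rw [abs_of_nonneg hr0] at s1
      have s2 : ‖g (w (k + 1)) - g (w k)‖ + ‖g (w n) - g (w (k + 1))‖ ≤
          Real.exp (2 * (w n - w 0)) * ‖g (w n) - g (w k)‖ := by
        rcases hS (k + 1) (by omega) with h | h
        · have h3 := D.sup (w k) (w (k + 1)) (w n) (hI _) (hI _) hkS h
            (Or.inl ⟨hw (by omega), hw (by omega)⟩)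
          have hkn0 : 0 ≤ w n - w k := by linarith
          rw [abs_of_nonneg hkn0] at h3
          have h4 : w 0 ≤ w k := hw (Nat.zero_le _)
          refine h3.trans (mul_le_mul_of_nonneg_right (Real.exp_le_exp.mpr (by linarith))
            (norm_nonneg _))
        · rw [h, sub_self, norm_zero, add_zero]
          exact le_mul_of_one_le_left (norm_nonneg _) (Real.one_le_exp (by positivity))
      have e1 : Real.exp (8 * (w k - w 0)) ≤ Real.exp (4 * (w n - w 0)) :=
        Real.exp_le_exp.mpr (by simp only [hmid] at hk1; linarith)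
      have e2 : Real.exp (8 * (w n - w (k + 1))) ≤ Real.exp (4 * (w n - w 0)) :=
        Real.exp_le_exp.mpr (by simp only [hmid] at hk2; linarith)
      have e3 : (1 : ℝ) ≤ Real.exp (4 * (w n - w 0)) := Real.one_le_exp (by positivity)
      have e4 : (1 : ℝ) ≤ Real.exp (2 * (w n - w 0)) := Real.one_le_exp (by positivity)
      set X := Real.exp (4 * (w n - w 0)) with hX
      set Y := Real.exp (2 * (w n - w 0)) with hY
      have hXY : X * (Y * Y) = Real.exp (8 * (w n - w 0)) := by
        rw [hX, hY, ← Real.exp_add, ← Real.exp_add]; congr 1; ring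
      set A := ‖g (w k) - g (w 0)‖ with hA
      set Bq := ‖g (w (k + 1)) - g (w k)‖ with hBq
      set Cq := ‖g (w n) - g (w (k + 1))‖ with hCq
      set Dq := ‖g (w n) - g (w k)‖ with hDq
      set Eq := ‖g (w n) - g (w 0)‖ with hEq
      have hA0 : 0 ≤ A := norm_nonneg _
      have hB0 : 0 ≤ Bq := norm_nonneg _
      have hC0 : 0 ≤ Cq := norm_nonneg _
      have hD0 : 0 ≤ Dq := norm_nonneg _
      have hX0 : 0 ≤ X := by linarith
      have hY0 : 0 ≤ Y := by linarith
      rw [hsum]
      have t1 := mul_le_mul_of_nonneg_right e1 hA0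
      have t2 := mul_le_mul_of_nonneg_right e2 hC0
      have t3 := le_mul_of_one_le_left hB0 e3
      have t4 := le_mul_of_one_le_left hA0 e4
      calc (∑ i ∈ Finset.range k, ‖g (w (i + 1)) - g (w i)‖ + Bq) +
            ∑ j ∈ Finset.range m, ‖g (w (k + 1 + (j + 1))) - g (w (k + 1 + j))‖
          ≤ (X * A + X * Bq) + X * Cq := by
            apply add_le_add (add_le_add (i1.trans t1) t3) (i2.trans t2)
        _ = X * (A + (Bq + Cq)) := by ring
        _ ≤ X * (Y * A + Y * Dq) := mul_le_mul_of_nonneg_left (add_le_add t4 s2) hX0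
        _ = X * (Y * (A + Dq)) := by ring
        _ ≤ X * (Y * (Y * Eq)) :=
            mul_le_mul_of_nonneg_left (mul_le_mul_of_nonneg_left s1 hY0) hX0
        _ = (X * (Y * Y)) * Eq := by ring
        _ = _ := by rw [hXY]

/-- variation over the round points of `[a, u]` and the end point `u` -/
noncomputable def Vr (g : ℝ → F) (S : Set ℝ) (a u : ℝ) : ENNReal :=
  eVariationOn g (S ∩ Icc a u ∪ {u})

theorem Vr_ub {g : ℝ → F} {S : Set ℝ} {r : ℝ} (D : LineData g S r) {a u : ℝ} (ha : a ∈ S)
    (ha0 : 0 ≤ a) (hau : a ≤ u) (hur : u ≤ r) :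
    Vr g S a u ≤ ENNReal.ofReal (Real.exp (12 * (u - a)) * ‖g u - g a‖) := by
  unfold Vr eVariationOn
  apply iSup_le
  rintro ⟨n, w, hw, hws⟩
  have hI : ∀ i, w i ∈ Icc a u := by
    intro i
    rcases hws i with h | h
    · exact h.2
    · rw [mem_singleton_iff] at h; rw [h]; exact ⟨hau, le_rfl⟩
  have hI' : ∀ i, w i ∈ Icc 0 r := fun i => ⟨ha0.trans (hI i).1, (hI i).2.trans hur⟩
  have h1 := D.chain n w hw hI' (by
    intro i hi
    rcases hws i with h | h
    · exact Or.inl h.1
    · rw [mem_singleton_iff] at h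
      exact Or.inr (le_antisymm (hw hi) (by rw [h]; exact (hI n).2)))
  have hua : 0 ≤ u - a := by linarith
  have hu : u ∈ Icc 0 r := ⟨ha0.trans hau, hur⟩
  have haI : a ∈ Icc 0 r := ⟨ha0, hau.trans hur⟩
  -- bound of the final chord
  have h2 : ‖g (w n) - g (w 0)‖ ≤ Real.exp (4 * (u - a)) * ‖g u - g a‖ := by
    by_cases h0 : w 0 ∈ S
    · have q1 := D.sup a (w 0) u haI hu ha h0 (Or.inl ⟨(hI 0).1, (hI 0).2⟩)
      rw [abs_of_nonneg hua] at q1
      have q2 : ‖g u - g (w 0)‖ ≤ Real.exp (2 * (u - a)) * ‖g u - g a‖ := by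
        linarith [norm_nonneg (g (w 0) - g a)]
      have q3 : ‖g (w n) - g (w 0)‖ ≤ Real.exp (2 * (u - a)) * ‖g u - g (w 0)‖ := by
        rcases hws n with h | h
        · have q4 := D.sup (w 0) (w n) u (hI' 0) hu h0 h.1
            (Or.inl ⟨hw (Nat.zero_le n), (hI n).2⟩)
          have h5 : 0 ≤ u - w 0 := by linarith [(hI 0).2]
          rw [abs_of_nonneg h5] at q4
          have q5 : Real.exp (2 * (u - w 0)) ≤ Real.exp (2 * (u - a)) :=
            Real.exp_le_exp.mpr (by linarith [(hI 0).1])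
          have q6 := mul_le_mul_of_nonneg_right q5 (norm_nonneg (g u - g (w 0)))
          linarith [norm_nonneg (g u - g (w n))]
        · rw [mem_singleton_iff] at h
          rw [h]
          exact le_mul_of_one_le_left (norm_nonneg _) (Real.one_le_exp (by positivity))
      calc _ ≤ _ := q3
        _ ≤ Real.exp (2 * (u - a)) * (Real.exp (2 * (u - a)) * ‖g u - g a‖) :=
          mul_le_mul_of_nonneg_left q2 (Real.exp_nonneg _)
        _ = _ := by rw [← mul_assoc, ← Real.exp_add]; congr 2; ring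
    · have h3 : w 0 = u := by
        rcases hws 0 with h | h
        · exact absurd h.1 h0
        · exact h
      have h4 : w n = u := le_antisymm (hI n).2 (by rw [← h3]; exact hw (Nat.zero_le n))
      rw [h3, h4, sub_self, norm_zero]; positivity
  have h3 : ∑ i ∈ Finset.range n, ‖g (w (i + 1)) - g (w i)‖ ≤
      Real.exp (12 * (u - a)) * ‖g u - g a‖ := by
    calc _ ≤ _ := h1
      _ ≤ Real.exp (8 * (u - a)) * (Real.exp (4 * (u - a)) * ‖g u - g a‖) :=
        mul_le_mul (Real.exp_le_exp.mpr (by linarith [(hI n).2, (hI 0).1])) h2 (norm_nonneg _)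
          (Real.exp_nonneg _)
      _ = _ := by rw [← mul_assoc, ← Real.exp_add]; congr 2; ring
  calc ∑ i ∈ Finset.range n, edist (g (w (i + 1))) (g (w i))
      = ENNReal.ofReal (∑ i ∈ Finset.range n, ‖g (w (i + 1)) - g (w i)‖) := by
        rw [ENNReal.ofReal_sum_of_nonneg (fun i _ => norm_nonneg _)]
        apply Finset.sum_congr rfl
        intro i _
        rw [edist_dist, dist_eq_norm]
    _ ≤ _ := ENNReal.ofReal_le_ofReal h3

theorem Vr_lb (g : ℝ → F) (S : Set ℝ) {a u : ℝ} (ha : a ∈ S) (hau : a ≤ u) :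
    ENNReal.ofReal ‖g u - g a‖ ≤ Vr g S a u := by
  have h := eVariationOn.edist_le g (s := S ∩ Icc a u ∪ {u}) (x := u) (y := a)
    (Or.inr rfl) (Or.inl ⟨ha, le_rfl, hau⟩)
  rwa [edist_dist, dist_eq_norm] at h

theorem Vr_add (g : ℝ → F) (S : Set ℝ) {c a u : ℝ} (ha : a ∈ S) (hca : c ≤ a) (hau : a ≤ u) :
    Vr g S c u = Vr g S c a + Vr g S a u := by
  unfold Vr
  rw [← eVariationOn.union g (x := a)]
  · congr 1
    ext t
    simp only [mem_union, mem_inter_iff, mem_Icc, mem_singleton_iff]
    constructor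
    · rintro (⟨h1, h2, h3⟩ | h)
      · rcases le_total t a with h | h
        · exact Or.inl (Or.inl ⟨h1, h2, h⟩)
        · exact Or.inr (Or.inl ⟨h1, h, h3⟩)
      · exact Or.inr (Or.inr h)
    · rintro ((⟨h1, h2, h3⟩ | h) | (⟨h1, h2, h3⟩ | h))
      · exact Or.inl ⟨h1, h2, h3.trans hau⟩
      · rw [h]; exact Or.inl ⟨ha, hca, hau⟩
      · exact Or.inl ⟨h1, hca.trans h2, h3⟩
      · exact Or.inr h
  · refine ⟨Or.inr rfl, ?_⟩
    rintro t (⟨h1, h2, h3⟩ | h)
    · exact h3
    · exact (mem_singleton_iff.mp h).le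
  · refine ⟨Or.inl ⟨ha, le_rfl, hau⟩, ?_⟩
    rintro t (⟨h1, h2, h3⟩ | h)
    · exact h2
    · rw [mem_singleton_iff.mp h]; exact hau

theorem Vr_gap (g : ℝ → F) (S : Set ℝ) {a u : ℝ} (hau : a ≤ u)
    (h : ∀ t ∈ Ioo a u, t ∉ S) : Vr g S a u ≤ ENNReal.ofReal ‖g u - g a‖ := by
  unfold Vr eVariationOn
  apply iSup_le
  rintro ⟨n, w, hw, hws⟩
  have hv : ∀ i, w i = a ∨ w i = u := by
    intro i
    rcases hws i with h1 | h1
    · by_contra hcon
      push Not at hcon
      exact h (w i) ⟨lt_of_le_of_ne h1.2.1 (Ne.symm hcon.1), lt_of_le_of_ne h1.2.2 hcon.2⟩ h1.1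
    · exact Or.inr h1
  have key : ∀ n, ∑ i ∈ Finset.range n, edist (g (w (i + 1))) (g (w i)) ≤
      edist (g (w n)) (g (w 0)) := by
    intro n
    induction n with
    | zero => simp
    | succ n ih =>
      rw [Finset.sum_range_succ]
      rcases hv n with h1 | h1
      · have h0 : w 0 = a := by
          rcases hv 0 with h2 | h2
          · exact h2
          · have h3 : w 0 ≤ w n := hw (Nat.zero_le n)
            rw [h1, h2] at h3
            rw [h2]; exact le_antisymm h3 hau
        have h3 : ∑ i ∈ Finset.range n, edist (g (w (i + 1))) (g (w i)) = 0 := by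
          apply le_antisymm _ (zero_le)
          refine ih.trans ?_
          rw [h1, h0, edist_self]
        rw [h3, zero_add, h1, h0]
      · have h2 : w (n + 1) = w n := by
          rcases hv (n + 1) with h3 | h3
          · have h4 : w n ≤ w (n + 1) := hw (Nat.le_succ n)
            rw [h1, h3] at h4
            rw [h1, h3]; exact le_antisymm hau h4
          · rw [h1, h3]
        rw [h2, edist_self, add_zero]
        exact ih
  refine (key n).trans ?_
  rcases hv n with h1 | h1 <;> rcases hv 0 with h2 | h2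
  · simp only [h1, h2, edist_self]; exact zero_le
  · simp only [h1, h2, edist_dist, dist_eq_norm]; rw [norm_sub_rev]
  · simp only [h1, h2, edist_dist, dist_eq_norm]; exact le_rfl
  · simp only [h1, h2, edist_self]; exact zero_le

end Pool.Agent.Helper137_QC
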