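import Pool.Agent.Helper137_QC.K1

set_option autoImplicit false
set_option linter.unusedSectionVars false

namespace Pool.Agent.Helper137_QC

open Filter Topology Set

/-- comparison principle with exponentials: upper bound -/
theorem rs_upper {N : ℝ → ℝ} {r C : ℝ} (hr : 0 < r) (hC : 0 ≤ C) (hc : ContinuousOn N (Icc 0 r))
    (h0 : N 0 = 0) (hNr : 0 < N r)
    (hs : ∀ t, 0 < t → t < r → ∃ ε, 0 < ε ∧ ∀ s, 0 < s → s < ε →
      N t - N (t - s) ≤ Real.exp (C * s) * (N (t + s) - N t))
    {t : ℝ} (ht0 : 0 ≤ t) (htr : t ≤ r) :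
    N t ≤ Real.exp ((C + 1) * r) * (t / r) * N r := by
  set lam := C + 1 with hlam
  have hlpos : 0 < lam := by positivity
  set q := 1 - Real.exp (-(lam * r)) with hq
  have hqpos : 0 < q := by
    rw [hq, sub_pos, Real.exp_lt_one_iff]
    have : 0 < lam * r := by positivity
    linarith
  set κ := N r / q with hκ
  have hκpos : 0 < κ := by positivity
  set ψ : ℝ → ℝ := fun u => κ * (1 - Real.exp (-(lam * u))) with hψ
  have hψc : Continuous ψ := by rw [hψ]; fun_prop
  have hψ0 : ψ 0 = 0 := by simp [hψ]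
  have hψr : ψ r = N r := by
    simp only [hψ]; rw [← hq, hκ]; field_simp
  have main : N t ≤ ψ t := by
    by_contra hcon
    push Not at hcon
    set h : ℝ → ℝ := fun u => N u - ψ u with hh
    have hhc : ContinuousOn h (Icc 0 r) := hc.sub hψc.continuousOn
    obtain ⟨m, hm, hmax⟩ := isCompact_Icc.exists_isMaxOn ⟨t, ht0, htr⟩ hhc
    have hht : 0 < h t := by simp only [hh]; linarith
    have hM : 0 < h m := hht.trans_le (hmax ⟨ht0, htr⟩)
    have hm0 : 0 < m := by
      rcases hm.1.lt_or_eq with h1 | h1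
      · exact h1
      · rw [← h1] at hM; simp only [hh, h0, hψ0] at hM; linarith
    have hmr : m < r := by
      rcases hm.2.lt_or_eq with h1 | h1
      · exact h1
      · rw [h1] at hM; simp only [hh, hψr] at hM; linarith
    obtain ⟨ε, hε, hε'⟩ := hs m hm0 hmr
    obtain ⟨s, hs0, hsm⟩ := exists_between (lt_min hε (lt_min hm0 (sub_pos.mpr hmr)))
    have hsε : s < ε := hsm.trans_le (min_le_left _ _)
    have hsm' : s < m := hsm.trans_le ((min_le_right _ _).trans (min_le_left _ _))
    have hsr : s < r - m := hsm.trans_le ((min_le_right _ _).trans (min_le_right _ _))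
    have h1 := hε' s hs0 hsε
    have h2 : h (m + s) ≤ h m := hmax ⟨by linarith, by linarith⟩
    have h3 : h (m - s) ≤ h m := hmax ⟨by linarith, by linarith⟩
    simp only [hh] at h2 h3
    have h4 : ψ m - ψ (m - s) ≤ Real.exp (C * s) * (ψ (m + s) - ψ m) := by
      have h5 : N (m + s) - N m ≤ ψ (m + s) - ψ m := by linarith
      have h6 := mul_le_mul_of_nonneg_left h5 (Real.exp_nonneg (C * s))
      linarith
    set a := Real.exp (-(lam * m)) with ha
    set b := Real.exp (lam * s) with hb
    have hb1 : 1 < b := by rw [hb, Real.one_lt_exp_iff]; positivity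
    have e1 : Real.exp (-(lam * (m - s))) = a * b := by
      rw [ha, hb, ← Real.exp_add]; congr 1; ring
    have e2 : Real.exp (-(lam * (m + s))) = a * b⁻¹ := by
      rw [ha, hb, ← Real.exp_neg, ← Real.exp_add]; congr 1; ring
    have e3 : ψ m - ψ (m - s) = (κ * a) * (b - 1) := by
      simp only [hψ]; rw [e1, ← ha]; ring
    have e4 : ψ (m + s) - ψ m = (κ * a) * (b - 1) * b⁻¹ := by
      simp only [hψ]; rw [e2, ← ha]
      field_simp; ring
    rw [e3, e4] at h4
    have hpos : 0 < (κ * a) * (b - 1) := by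
      have : 0 < a := Real.exp_pos _
      have : 0 < b - 1 := by linarith
      positivity
    have h7 : Real.exp (C * s) * b⁻¹ < 1 := by
      rw [hb, ← Real.exp_neg, ← Real.exp_add, Real.exp_lt_one_iff]
      rw [hlam]; nlinarith
    nlinarith
  refine main.trans ?_
  simp only [hψ]
  have h1 : 1 - Real.exp (-(lam * t)) ≤ lam * t := by
    have := Real.add_one_le_exp (-(lam * t)); linarith
  have h2 : lam * r * Real.exp (-(lam * r)) ≤ q := by
    have h3 := Real.add_one_le_exp (lam * r)
    have h4 : Real.exp (lam * r) * Real.exp (-(lam * r)) = 1 := by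
      rw [← Real.exp_add]; simp
    have h5 := mul_le_mul_of_nonneg_right h3 (Real.exp_nonneg (-(lam * r)))
    rw [hq]; linarith
  have h6 : κ * q = N r := by rw [hκ]; field_simp
  have h7 : Real.exp (lam * r) * Real.exp (-(lam * r)) = 1 := by
    rw [← Real.exp_add]; simp
  calc κ * (1 - Real.exp (-(lam * t))) ≤ κ * (lam * t) :=
        mul_le_mul_of_nonneg_left h1 hκpos.le
    _ = Real.exp (lam * r) * (t / r) * (κ * (lam * r * Real.exp (-(lam * r)))) := by
        field_simp
        linear_combination (-t) * h7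
    _ ≤ Real.exp (lam * r) * (t / r) * (κ * q) :=
        mul_le_mul_of_nonneg_left (mul_le_mul_of_nonneg_left h2 hκpos.le) (by positivity)
    _ = _ := by rw [h6]

/-- comparison principle with exponentials: lower bound -/
theorem rs_lower {N : ℝ → ℝ} {r C : ℝ} (hr : 0 < r) (hC : 0 ≤ C) (hc : ContinuousOn N (Icc 0 r))
    (h0 : N 0 = 0) (hNr : 0 < N r)
    (hs : ∀ t, 0 < t → t < r → ∃ ε, 0 < ε ∧ ∀ s, 0 < s → s < ε →
      N (t + s) - N t ≤ Real.exp (C * s) * (N t - N (t - s)))
    {t : ℝ} (ht0 : 0 ≤ t) (htr : t ≤ r) :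
    (t / r) * N r ≤ Real.exp ((C + 1) * r) * N t := by
  set lam := C + 1 with hlam
  have hlpos : 0 < lam := by positivity
  set q := Real.exp (lam * r) - 1 with hq
  have hqpos : 0 < q := by
    rw [hq, sub_pos, Real.one_lt_exp_iff]; positivity
  set κ := N r / q with hκ
  have hκpos : 0 < κ := by positivity
  set ψ : ℝ → ℝ := fun u => κ * (Real.exp (lam * u) - 1) with hψ
  have hψc : Continuous ψ := by rw [hψ]; fun_prop
  have hψ0 : ψ 0 = 0 := by simp [hψ]
  have hψr : ψ r = N r := by
    simp only [hψ]; rw [← hq, hκ]; field_simp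
  have main : ψ t ≤ N t := by
    by_contra hcon
    push Not at hcon
    set h : ℝ → ℝ := fun u => ψ u - N u with hh
    have hhc : ContinuousOn h (Icc 0 r) := hψc.continuousOn.sub hc
    obtain ⟨m, hm, hmax⟩ := isCompact_Icc.exists_isMaxOn ⟨t, ht0, htr⟩ hhc
    have hht : 0 < h t := by simp only [hh]; linarith
    have hM : 0 < h m := hht.trans_le (hmax ⟨ht0, htr⟩)
    have hm0 : 0 < m := by
      rcases hm.1.lt_or_eq with h1 | h1
      · exact h1
      · rw [← h1] at hM; simp only [hh, h0, hψ0] at hM; linarith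
    have hmr : m < r := by
      rcases hm.2.lt_or_eq with h1 | h1
      · exact h1
      · rw [h1] at hM; simp only [hh, hψr] at hM; linarith
    obtain ⟨ε, hε, hε'⟩ := hs m hm0 hmr
    obtain ⟨s, hs0, hsm⟩ := exists_between (lt_min hε (lt_min hm0 (sub_pos.mpr hmr)))
    have hsε : s < ε := hsm.trans_le (min_le_left _ _)
    have hsm' : s < m := hsm.trans_le ((min_le_right _ _).trans (min_le_left _ _))
    have hsr : s < r - m := hsm.trans_le ((min_le_right _ _).trans (min_le_right _ _))
    have h1 := hε' s hs0 hsε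
    have h2 : h (m + s) ≤ h m := hmax ⟨by linarith, by linarith⟩
    have h3 : h (m - s) ≤ h m := hmax ⟨by linarith, by linarith⟩
    simp only [hh] at h2 h3
    have h4 : ψ (m + s) - ψ m ≤ Real.exp (C * s) * (ψ m - ψ (m - s)) := by
      have h5 : N m - N (m - s) ≤ ψ m - ψ (m - s) := by linarith
      have h6 := mul_le_mul_of_nonneg_left h5 (Real.exp_nonneg (C * s))
      linarith
    set a := Real.exp (lam * m) with ha
    set b := Real.exp (lam * s) with hb
    have hb1 : 1 < b := by rw [hb, Real.one_lt_exp_iff]; positivity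
    have e1 : Real.exp (lam * (m - s)) = a * b⁻¹ := by
      rw [ha, hb, ← Real.exp_neg, ← Real.exp_add]; congr 1; ring
    have e2 : Real.exp (lam * (m + s)) = a * b := by
      rw [ha, hb, ← Real.exp_add]; congr 1; ring
    have e3 : ψ (m + s) - ψ m = (κ * a) * (b - 1) := by
      simp only [hψ]; rw [e2, ← ha]; ring
    have e4 : ψ m - ψ (m - s) = (κ * a) * (b - 1) * b⁻¹ := by
      simp only [hψ]; rw [e1, ← ha]
      field_simp; ring
    rw [e3, e4] at h4
    have hpos : 0 < (κ * a) * (b - 1) := by
      have : 0 < a := Real.exp_pos _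
      have : 0 < b - 1 := by linarith
      positivity
    have h7 : Real.exp (C * s) * b⁻¹ < 1 := by
      rw [hb, ← Real.exp_neg, ← Real.exp_add, Real.exp_lt_one_iff]
      rw [hlam]; nlinarith
    nlinarith
  have h1 : lam * t ≤ Real.exp (lam * t) - 1 := by
    have := Real.add_one_le_exp (lam * t); linarith
  have h2 : q ≤ lam * r * Real.exp (lam * r) := by
    have h3 := Real.add_one_le_exp (-(lam * r))
    have h4 : Real.exp (lam * r) * Real.exp (-(lam * r)) = 1 := by
      rw [← Real.exp_add]; simp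
    have h5 := mul_le_mul_of_nonneg_left h3 (Real.exp_nonneg (lam * r))
    rw [hq]; linarith
  have h6 : κ * q = N r := by rw [hκ]; field_simp
  calc (t / r) * N r = (t / r) * (κ * q) := by rw [h6]
    _ ≤ (t / r) * (κ * (lam * r * Real.exp (lam * r))) :=
        mul_le_mul_of_nonneg_left (mul_le_mul_of_nonneg_left h2 hκpos.le) (by positivity)
    _ = Real.exp (lam * r) * (κ * (lam * t)) := by field_simp
    _ ≤ Real.exp (lam * r) * (κ * (Real.exp (lam * t) - 1)) :=
        mul_le_mul_of_nonneg_left (mul_le_mul_of_nonneg_left h1 hκpos.le) (Real.exp_nonneg _)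
    _ ≤ _ := mul_le_mul_of_nonneg_left main (Real.exp_nonneg _)

end Pool.Agent.Helper137_QC
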