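import Pool.Agent.Helper137_QC.K2

set_option autoImplicit false
set_option linter.unusedSectionVars false

namespace Pool.Agent.Helper137_QC

open Filter Topology Set

variable {F : Type*} [NormedAddCommGroup F] [NormedSpace ℝ F]

/-- the length function -/
noncomputable def Nf (g : ℝ → F) (S : Set ℝ) (u : ℝ) : ℝ := (Vr g S 0 u).toReal

variable {g : ℝ → F} {S : Set ℝ} {r : ℝ}

theorem Vr_ne_top (D : LineData g S r) {a u : ℝ} (ha : a ∈ S)
    (ha0 : 0 ≤ a) (hau : a ≤ u) (hur : u ≤ r) : Vr g S a u ≠ ⊤ :=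
  ne_top_of_le_ne_top ENNReal.ofReal_ne_top (Vr_ub D ha ha0 hau hur)

theorem Nf_incr (D : LineData g S r) {a u : ℝ} (ha : a ∈ S) (ha0 : 0 ≤ a) (hau : a ≤ u)
    (hur : u ≤ r) : ‖g u - g a‖ ≤ Nf g S u - Nf g S a ∧
      Nf g S u - Nf g S a ≤ Real.exp (12 * (u - a)) * ‖g u - g a‖ := by
  have h1 : Nf g S u = Nf g S a + (Vr g S a u).toReal := by
    unfold Nf
    rw [Vr_add g S ha ha0 hau, ENNReal.toReal_add (Vr_ne_top D D.zero le_rfl ha0 (hau.trans hur))
      (Vr_ne_top D ha ha0 hau hur)]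
  rw [h1, add_sub_cancel_left]
  constructor
  · rw [← ENNReal.ofReal_le_iff_le_toReal (Vr_ne_top D ha ha0 hau hur)]
    exact Vr_lb g S ha hau
  · exact ENNReal.toReal_le_of_le_ofReal (by positivity) (Vr_ub D ha ha0 hau hur)

theorem Nf_gap (D : LineData g S r) {a u : ℝ} (ha : a ∈ S) (ha0 : 0 ≤ a) (hau : a ≤ u)
    (hur : u ≤ r) (h : ∀ t ∈ Ioo a u, t ∉ S) : Nf g S u = Nf g S a + ‖g u - g a‖ := by
  have h1 : Nf g S u = Nf g S a + (Vr g S a u).toReal := by
    unfold Nf
    rw [Vr_add g S ha ha0 hau, ENNReal.toReal_add (Vr_ne_top D D.zero le_rfl ha0 (hau.trans hur))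
      (Vr_ne_top D ha ha0 hau hur)]
  have h2 := (Nf_incr D ha ha0 hau hur).1
  have h3 : (Vr g S a u).toReal ≤ ‖g u - g a‖ :=
    ENNReal.toReal_le_of_le_ofReal (norm_nonneg _) (Vr_gap g S hau h)
  linarith

theorem Nf_zero (D : LineData g S r) : Nf g S 0 = 0 := by
  have h := Nf_gap D D.zero le_rfl le_rfl D.rpos.le (fun t ht => by
    exfalso; linarith [ht.1, ht.2])
  have h2 : (Vr g S 0 0).toReal ≤ ‖g 0 - g 0‖ :=
    ENNReal.toReal_le_of_le_ofReal (norm_nonneg _) (Vr_gap g S le_rfl (fun t ht => by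
      exfalso; linarith [ht.1, ht.2]))
  have h3 : 0 ≤ (Vr g S 0 0).toReal := ENNReal.toReal_nonneg
  simp only [sub_self, norm_zero] at h2
  exact le_antisymm h2 h3

/-- the last round point before `u` -/
theorem exists_last (D : LineData g S r) {u : ℝ} (hu : 0 ≤ u) :
    ∃ a, a ∈ S ∧ 0 ≤ a ∧ a ≤ u ∧ ∀ t, a < t → t ≤ u → t ∉ S := by
  have hc : IsCompact (S ∩ Icc 0 u) := isCompact_Icc.inter_left D.closed
  obtain ⟨a, ha, hmax⟩ := hc.exists_isMaxOn ⟨0, D.zero, le_rfl, hu⟩ continuousOn_id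
  refine ⟨a, ha.1, ha.2.1, ha.2.2, fun t h1 h2 hS => ?_⟩
  have := hmax (show t ∈ S ∩ Icc 0 u from ⟨hS, ha.2.1.trans h1.le, h2⟩)
  simp only [id] at this
  have h3 : t ≤ a := this
  linarith

/-- the first round point after `u` and before the round point `t` -/
theorem exists_first (D : LineData g S r) {u t : ℝ} (hut : u ≤ t) (ht : t ∈ S) :
    ∃ b, b ∈ S ∧ u ≤ b ∧ b ≤ t ∧ ∀ v, u ≤ v → v < b → v ∉ S := by
  have hc : IsCompact (S ∩ Icc u t) := isCompact_Icc.inter_left D.closed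
  obtain ⟨b, hb, hmin⟩ := hc.exists_isMinOn ⟨t, ht, hut, le_rfl⟩ continuousOn_id
  refine ⟨b, hb.1, hb.2.1, hb.2.2, fun v h1 h2 hS => ?_⟩
  have := hmin (show v ∈ S ∩ Icc u t from ⟨hS, h1, h2.le.trans hb.2.2⟩)
  have h3 : b ≤ v := this
  linarith

/-- increments of the length function to the left of a round point -/
theorem Nf_incr_left (D : LineData g S r) {t u : ℝ} (ht : t ∈ S) (hu0 : 0 ≤ u) (hut : u ≤ t)
    (htr : t ≤ r) : ‖g u - g t‖ ≤ Nf g S t - Nf g S u ∧
      Nf g S t - Nf g S u ≤ Real.exp (14 * (t - u)) * ‖g u - g t‖ := by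
  have ht0 : 0 ≤ t := hu0.trans hut
  by_cases huS : u ∈ S
  · obtain ⟨h1, h2⟩ := Nf_incr D huS hu0 hut htr
    rw [norm_sub_rev] at h1 h2
    refine ⟨h1, h2.trans (mul_le_mul_of_nonneg_right (Real.exp_le_exp.mpr (by linarith))
      (norm_nonneg _))⟩
  obtain ⟨a, haS, ha0, hau, hlast⟩ := exists_last D hu0
  obtain ⟨b, hbS, hub, hbt, hfirst⟩ := exists_first D hut ht
  have hau' : a < u := lt_of_le_of_ne hau (fun h => huS (h ▸ haS))
  have hub' : u < b := lt_of_le_of_ne hub (fun h => huS (h ▸ hbS))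
  have hgap : ∀ v ∈ Ioo a b, v ∉ S := by
    intro v hv
    rcases le_total v u with h | h
    · exact hlast v hv.1 h
    · exact hfirst v h hv.2
  have hab : a < b := hau'.trans hub'
  have n1 := Nf_gap D haS ha0 hau (hut.trans htr) (fun v hv => hlast v hv.1 hv.2.le)
  have n2 := Nf_gap D haS ha0 hab.le (hbt.trans htr) hgap
  obtain ⟨n3, n4⟩ := Nf_incr D hbS (ha0.trans hab.le) hbt htr
  have e1 := D.gap a b ha0 hab (hbt.trans htr) hgap u ⟨hau, hub⟩
  have e2 : ‖g u - g a‖ = ((u - a) / (b - a)) * ‖g b - g a‖ := by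
    have h1 : 0 < u - a := by linarith
    have h2 : 0 < b - a := by linarith
    rw [e1, norm_smul, Real.norm_of_nonneg (by positivity)]
  have e3 : ‖g b - g u‖ = (1 - (u - a) / (b - a)) * ‖g b - g a‖ := by
    have h1 : g b - g u = (1 - (u - a) / (b - a)) • (g b - g a) := by
      rw [sub_smul, one_smul, ← e1]; abel
    have h2 : (u - a) / (b - a) ≤ 1 := by
      rw [div_le_one (by linarith)]; linarith
    rw [h1, norm_smul, Real.norm_of_nonneg (by linarith)]
  have e4 : Nf g S t - Nf g S u = ‖g b - g u‖ + (Nf g S t - Nf g S b) := by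
    rw [n1, n2, e2, e3]; ring
  have hs := D.sup t b u ⟨ht0, htr⟩ ⟨hu0, hut.trans htr⟩ ht hbS (Or.inr ⟨hub, hbt⟩)
  have habs : |u - t| = t - u := by rw [abs_of_nonpos (by linarith)]; ring
  rw [habs] at hs
  rw [norm_sub_rev (g b), norm_sub_rev (g u) (g b)] at hs
  rw [e4]
  constructor
  · calc ‖g u - g t‖ = ‖(g b - g t) - (g b - g u)‖ := by congr 1; abel
      _ ≤ ‖g b - g t‖ + ‖g b - g u‖ := norm_sub_le _ _
      _ ≤ _ := by rw [norm_sub_rev (g b) (g t)]; linarith
  · have hx : (1 : ℝ) ≤ Real.exp (12 * (t - u)) :=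
      Real.one_le_exp (by have : 0 ≤ t - u := by linarith
                          positivity)
    have h5 : Real.exp (12 * (t - b)) * ‖g t - g b‖ ≤ Real.exp (12 * (t - u)) * ‖g t - g b‖ :=
      mul_le_mul_of_nonneg_right (Real.exp_le_exp.mpr (by linarith)) (norm_nonneg _)
    have h6 := le_mul_of_one_le_left (norm_nonneg (g b - g u)) hx
    calc ‖g b - g u‖ + (Nf g S t - Nf g S b)
        ≤ Real.exp (12 * (t - u)) * ‖g b - g u‖ + Real.exp (12 * (t - u)) * ‖g t - g b‖ := by
          linarith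
      _ = Real.exp (12 * (t - u)) * (‖g t - g b‖ + ‖g b - g u‖) := by ring
      _ ≤ Real.exp (12 * (t - u)) * (Real.exp (2 * (t - u)) * ‖g u - g t‖) :=
          mul_le_mul_of_nonneg_left hs (Real.exp_nonneg _)
      _ = _ := by rw [← mul_assoc, ← Real.exp_add]; congr 2; ring

/-- near a point which is not round the length function is given by a chord -/
theorem Nf_near (D : LineData g S r) {t : ℝ} (ht0 : 0 ≤ t) (ht : t ∉ S) :
    ∃ a ε : ℝ, a ∈ S ∧ 0 ≤ a ∧ a < t ∧ 0 < ε ∧ ∀ u, a ≤ u → u < t + ε → u ≤ r →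
      Nf g S u = Nf g S a + ‖g u - g a‖ ∧ ∀ v ∈ Ioo a u, v ∉ S := by
  obtain ⟨a, haS, ha0, hat, hlast⟩ := exists_last D ht0
  have hat' : a < t := lt_of_le_of_ne hat (fun h => ht (h ▸ haS))
  obtain ⟨ε, hε, hball⟩ := Metric.isOpen_iff.mp D.closed.isOpen_compl t ht
  refine ⟨a, ε, haS, ha0, hat', hε, fun u hau hut hur => ?_⟩
  have hno : ∀ v ∈ Ioo a u, v ∉ S := by
    intro v hv
    rcases le_total v t with h | h
    · exact hlast v hv.1 h
    · exact hball (by rw [Metric.mem_ball, Real.dist_eq, abs_of_nonneg (by linarith)]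
                      linarith [hv.2])
  exact ⟨Nf_gap D haS ha0 hau hur hno, hno⟩

theorem Nf_continuousOn (D : LineData g S r) : ContinuousOn (Nf g S) (Icc 0 r) := by
  intro t ht
  by_cases hS : t ∈ S
  · have hbound : ∀ u ∈ Icc 0 r, |Nf g S u - Nf g S t| ≤
        Real.exp (14 * |u - t|) * ‖g u - g t‖ := by
      intro u hu
      rcases le_total u t with h | h
      · obtain ⟨h1, h2⟩ := Nf_incr_left D hS hu.1 h ht.2
        rw [abs_sub_comm, abs_of_nonneg ((norm_nonneg _).trans h1), abs_sub_comm u t,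
          abs_of_nonneg (by linarith : 0 ≤ t - u)]
        exact h2
      · obtain ⟨h1, h2⟩ := Nf_incr D hS ht.1 h hu.2
        rw [abs_of_nonneg ((norm_nonneg _).trans h1), abs_of_nonneg (by linarith : 0 ≤ u - t)]
        exact h2.trans (mul_le_mul_of_nonneg_right (Real.exp_le_exp.mpr (by linarith))
          (norm_nonneg _))
    have hc : Continuous (fun u => Real.exp (14 * |u - t|) * ‖g u - g t‖) := by
      have := D.cont
      fun_prop
    have hlim : Tendsto (fun u => Real.exp (14 * |u - t|) * ‖g u - g t‖) (𝓝[Icc 0 r] t)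
        (𝓝 0) := by
      have := hc.tendsto t
      simp only [sub_self, norm_zero, mul_zero] at this
      exact this.mono_left nhdsWithin_le_nhds
    rw [ContinuousWithinAt, tendsto_iff_norm_sub_tendsto_zero]
    refine squeeze_zero' (Eventually.of_forall fun u => norm_nonneg _) ?_ hlim
    filter_upwards [self_mem_nhdsWithin] with u hu
    exact hbound u hu
  · obtain ⟨a, ε, haS, ha0, hat, hε, h⟩ := Nf_near D ht.1 hS
    have hc : Continuous (fun u => Nf g S a + ‖g u - g a‖) := by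
      have := D.cont
      fun_prop
    have hev : ∀ᶠ u in 𝓝[Icc 0 r] t, Nf g S u = Nf g S a + ‖g u - g a‖ := by
      have h1 : ∀ᶠ u in 𝓝[Icc 0 r] t, u ∈ Ioo a (t + ε) :=
        nhdsWithin_le_nhds (Ioo_mem_nhds hat (by linarith))
      filter_upwards [h1, self_mem_nhdsWithin] with u hu hu2
      exact (h u hu.1.le hu.2 hu2.2).1
    have h2 := hc.continuousWithinAt (s := Icc 0 r) (x := t)
    exact h2.congr_of_eventuallyEq hev (h t hat.le (by linarith) ht.2).1

/-- symmetric comparison of increments of the length function -/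
theorem Nf_sym (D : LineData g S r) {t : ℝ} (ht0 : 0 < t) (htr : t < r) :
    ∃ ε, 0 < ε ∧ ∀ s, 0 < s → s < ε →
      Nf g S (t + s) - Nf g S t ≤ Real.exp (15 * s) * (Nf g S t - Nf g S (t - s)) ∧
      Nf g S t - Nf g S (t - s) ≤ Real.exp (15 * s) * (Nf g S (t + s) - Nf g S t) := by
  by_cases hS : t ∈ S
  · refine ⟨min t (r - t), lt_min ht0 (sub_pos.mpr htr), fun s hs hsm => ?_⟩
    have h1 : s < t := hsm.trans_le (min_le_left _ _)
    have h2 : s < r - t := hsm.trans_le (min_le_right _ _)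
    obtain ⟨a1, a2⟩ := Nf_incr D hS ht0.le (by linarith : t ≤ t + s) (by linarith)
    obtain ⟨b1, b2⟩ := Nf_incr_left D hS (by linarith : 0 ≤ t - s) (by linarith) htr.le
    obtain ⟨c1, c2⟩ := D.sym t hS s hs (by linarith) (by linarith)
    have e1 : t + s - t = s := by ring
    have e2 : t - (t - s) = s := by ring
    rw [e1] at a2
    rw [e2] at b2
    constructor
    · calc Nf g S (t + s) - Nf g S t ≤ Real.exp (12 * s) * ‖g (t + s) - g t‖ := a2
        _ ≤ Real.exp (12 * s) * (Real.exp s * ‖g (t - s) - g t‖) :=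
          mul_le_mul_of_nonneg_left c1 (Real.exp_nonneg _)
        _ = Real.exp (13 * s) * ‖g (t - s) - g t‖ := by
          rw [← mul_assoc, ← Real.exp_add]; congr 2; ring
        _ ≤ Real.exp (15 * s) * (Nf g S t - Nf g S (t - s)) :=
          mul_le_mul (Real.exp_le_exp.mpr (by linarith)) b1 (norm_nonneg _) (Real.exp_nonneg _)
    · calc Nf g S t - Nf g S (t - s) ≤ Real.exp (14 * s) * ‖g (t - s) - g t‖ := b2
        _ ≤ Real.exp (14 * s) * (Real.exp s * ‖g (t + s) - g t‖) :=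
          mul_le_mul_of_nonneg_left c2 (Real.exp_nonneg _)
        _ = Real.exp (15 * s) * ‖g (t + s) - g t‖ := by
          rw [← mul_assoc, ← Real.exp_add]; congr 2; ring
        _ ≤ Real.exp (15 * s) * (Nf g S (t + s) - Nf g S t) :=
          mul_le_mul_of_nonneg_left a1 (Real.exp_nonneg _)
  · obtain ⟨a, ε, haS, ha0, hat, hε, h⟩ := Nf_near D ht0.le hS
    have hm : 0 < min (min (ε / 2) (t - a)) (r - t) :=
      lt_min (lt_min (by positivity) (by linarith)) (by linarith)
    set ε' := min (min (ε / 2) (t - a)) (r - t) with hε'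
    have k1 : ε' ≤ ε / 2 := (min_le_left _ _).trans (min_le_left _ _)
    have k2 : ε' ≤ t - a := (min_le_left _ _).trans (min_le_right _ _)
    have k3 : ε' ≤ r - t := min_le_right _ _
    refine ⟨ε', hm, fun s hs hsε => ?_⟩
    set b := t + ε' with hb
    obtain ⟨nb, hno⟩ := h b (by linarith) (by linarith) (by linarith)
    have hab : a < b := by linarith
    have lin : ∀ u, a ≤ u → u ≤ b → Nf g S u = Nf g S a + (u - a) * (‖g b - g a‖ / (b - a)) := by
      intro u h1 h2
      rw [(h u h1 (by linarith) (by linarith)).1,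
        D.gap a b ha0 hab (by linarith) hno u ⟨h1, h2⟩, norm_smul,
        Real.norm_of_nonneg (div_nonneg (by linarith) (by linarith))]
      ring
    have l1 := lin (t + s) (by linarith) (by linarith)
    have l2 := lin (t - s) (by linarith) (by linarith)
    have l3 := lin t (by linarith) (by linarith)
    have e1 : Nf g S (t + s) - Nf g S t = s * (‖g b - g a‖ / (b - a)) := by rw [l1, l3]; ring
    have e2 : Nf g S t - Nf g S (t - s) = s * (‖g b - g a‖ / (b - a)) := by rw [l2, l3]; ring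
    rw [e1, e2]
    have hnn : 0 ≤ s * (‖g b - g a‖ / (b - a)) :=
      mul_nonneg hs.le (div_nonneg (norm_nonneg _) (by linarith))
    have h1 : (1 : ℝ) ≤ Real.exp (15 * s) := Real.one_le_exp (by positivity)
    exact ⟨le_mul_of_one_le_left hnn h1, le_mul_of_one_le_left hnn h1⟩

/-- comparison of scales at a round point -/
theorem scale_compare (D : LineData g S r) (hpos : 0 < ‖g r - g 0‖) {t : ℝ} (ht0 : 0 < t)
    (htr : t ≤ r) :
    ‖g t - g 0‖ ≤ Real.exp (28 * r) * ((t / r) * ‖g r - g 0‖) ∧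
      (t / r) * ‖g r - g 0‖ ≤ Real.exp (28 * r) * ‖g t - g 0‖ := by
  have hr := D.rpos
  have N0 := Nf_zero D
  obtain ⟨r1, r2⟩ := Nf_incr D D.zero le_rfl hr.le le_rfl
  obtain ⟨t1, t2⟩ := Nf_incr D D.zero le_rfl ht0.le htr
  rw [N0, sub_zero] at r1 r2 t1 t2
  simp only [sub_zero] at r2 t2
  have hNr : 0 < Nf g S r := hpos.trans_le r1
  have u1 := rs_upper (N := Nf g S) (C := 15) hr (by norm_num) (Nf_continuousOn D) N0 hNr
    (fun t h1 h2 => by
      obtain ⟨ε, hε, h⟩ := Nf_sym D h1 h2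
      exact ⟨ε, hε, fun s h3 h4 => (h s h3 h4).2⟩) ht0.le htr
  have u2 := rs_lower (N := Nf g S) (C := 15) hr (by norm_num) (Nf_continuousOn D) N0 hNr
    (fun t h1 h2 => by
      obtain ⟨ε, hε, h⟩ := Nf_sym D h1 h2
      exact ⟨ε, hε, fun s h3 h4 => (h s h3 h4).1⟩) ht0.le htr
  have htr' : 0 < t / r := by positivity
  have e28 : Real.exp ((15 + 1) * r) * Real.exp (12 * r) = Real.exp (28 * r) := by
    rw [← Real.exp_add]; congr 1; ring
  constructor
  · calc ‖g t - g 0‖ ≤ Real.exp ((15 + 1) * r) * (t / r) * Nf g S r := t1.trans u1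
      _ ≤ Real.exp ((15 + 1) * r) * (t / r) * (Real.exp (12 * r) * ‖g r - g 0‖) :=
        mul_le_mul_of_nonneg_left r2 (by positivity)
      _ = (Real.exp ((15 + 1) * r) * Real.exp (12 * r)) * ((t / r) * ‖g r - g 0‖) := by ring
      _ = _ := by rw [e28]
  · calc (t / r) * ‖g r - g 0‖ ≤ (t / r) * Nf g S r := mul_le_mul_of_nonneg_left r1 htr'.le
      _ ≤ Real.exp ((15 + 1) * r) * Nf g S t := u2
      _ ≤ Real.exp ((15 + 1) * r) * (Real.exp (12 * t) * ‖g t - g 0‖) :=
        mul_le_mul_of_nonneg_left t2 (Real.exp_nonneg _)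
      _ ≤ Real.exp ((15 + 1) * r) * (Real.exp (12 * r) * ‖g t - g 0‖) := by
        apply mul_le_mul_of_nonneg_left _ (Real.exp_nonneg _)
        exact mul_le_mul_of_nonneg_right (Real.exp_le_exp.mpr (by linarith)) (norm_nonneg _)
      _ = (Real.exp ((15 + 1) * r) * Real.exp (12 * r)) * ‖g t - g 0‖ := by ring
      _ = _ := by rw [e28]

end Pool.Agent.Helper137_QC
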