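import Pool.Agent.Helper137_QC.K3

set_option autoImplicit false
set_option linter.unusedSectionVars false

namespace Pool.Agent.Helper137_QC

open Filter Topology Set

variable {E F : Type*} [NormedAddCommGroup E] [InnerProductSpace ℝ E]
  [NormedAddCommGroup F] [NormedSpace ℝ F]

theorem nrm_smul {e : E} (he : ‖e‖ = 1) (t : ℝ) : ‖t • e‖ = |t| := by
  rw [norm_smul, he, mul_one, Real.norm_eq_abs]

theorem nrm_line {e : E} (he : ‖e‖ = 1) (A : E) (s t : ℝ) :
    ‖A + s • e - (A + t • e)‖ = |s - t| := by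
  have : A + s • e - (A + t • e) = (s - t) • e := by rw [sub_smul]; abel
  rw [this, nrm_smul he]

/-- a local similarity of a Hilbert space maps midpoints to midpoints, locally -/
theorem locSim_mid (f : E ≃ₜ F) {x e : E} (he : ‖e‖ = 1) (h : LocSim f x) :
    ∃ ε, 0 < ε ∧ ∀ s : ℝ, 0 < s → s < ε →
      f (x + s • e) + f (x - s • e) = (2 : ℝ) • f x := by
  obtain ⟨c, ρ, hc, hρ, h⟩ := h
  set M : ℝ → E := fun s => f.symm ((1 / 2 : ℝ) • (f (x + s • e) + f (x - s • e))) with hM
  have hMc : Continuous M := by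
    rw [hM]
    apply f.symm.continuous.comp
    apply Continuous.const_smul
    exact (f.continuous.comp (by fun_prop)).add (f.continuous.comp (by fun_prop))
  have hM0 : M 0 = x := by
    simp only [hM, zero_smul, add_zero, sub_zero]
    rw [← two_smul ℝ (f x), smul_smul]
    norm_num
  have hev : ∀ᶠ s in 𝓝 (0 : ℝ), ‖M s - x‖ < ρ := by
    have h1 : Continuous (fun s => ‖M s - x‖) := (hMc.sub continuous_const).norm
    exact (h1.tendsto 0).eventually (gt_mem_nhds (by simp only [hM0]; simpa using hρ))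
  obtain ⟨ε, hε, hball⟩ := Metric.eventually_nhds_iff.mp hev
  refine ⟨min ε ρ, lt_min hε hρ, fun s hs hsm => ?_⟩
  have hsε : s < ε := hsm.trans_le (min_le_left _ _)
  have hsρ : s < ρ := hsm.trans_le (min_le_right _ _)
  have hMs := hball (show dist s 0 < ε by
    rw [Real.dist_eq, sub_zero, abs_of_pos hs]; exact hsε)
  have hfM : f (M s) = (1 / 2 : ℝ) • (f (x + s • e) + f (x - s • e)) := by
    simp only [hM]; rw [f.apply_symm_apply]
  have n1 : ‖x + s • e - x‖ = s := by
    rw [add_sub_cancel_left, nrm_smul he, abs_of_pos hs]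
  have n2 : ‖x - s • e - x‖ = s := by
    rw [sub_sub_cancel_left, norm_neg, nrm_smul he, abs_of_pos hs]
  have n3 : ‖f (x + s • e) - f (x - s • e)‖ = c * (2 * s) := by
    rw [h _ _ (by rw [n1]; exact hsρ) (by rw [n2]; exact hsρ)]
    have : x + s • e - (x - s • e) = (2 * s) • e := by rw [mul_smul, two_smul]; abel
    rw [this, nrm_smul he, abs_of_pos (by positivity)]
  have d1 : ‖M s - (x + s • e)‖ = s := by
    have h1 := h (M s) (x + s • e) hMs (by rw [n1]; exact hsρ)
    have h2 : f (M s) - f (x + s • e) = -((1 / 2 : ℝ) • (f (x + s • e) - f (x - s • e))) := by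
      rw [hfM]; module
    rw [h2, norm_neg, norm_smul, n3, Real.norm_of_nonneg (by norm_num)] at h1
    have h3 : c * ‖M s - (x + s • e)‖ = c * s := by rw [← h1]; ring
    exact mul_left_cancel₀ hc.ne' h3
  have d2 : ‖M s - (x - s • e)‖ = s := by
    have h1 := h (M s) (x - s • e) hMs (by rw [n2]; exact hsρ)
    have h2 : f (M s) - f (x - s • e) = (1 / 2 : ℝ) • (f (x + s • e) - f (x - s • e)) := by
      rw [hfM]; module
    rw [h2, norm_smul, n3, Real.norm_of_nonneg (by norm_num)] at h1
    have h3 : c * ‖M s - (x - s • e)‖ = c * s := by rw [← h1]; ring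
    exact mul_left_cancel₀ hc.ne' h3
  have hp := parallelogram_law_with_norm ℝ (M s - x) (s • e)
  have e1 : M s - x + s • e = M s - (x - s • e) := by abel
  have e2 : M s - x - s • e = M s - (x + s • e) := by abel
  rw [e1, e2, d1, d2, nrm_smul he, abs_of_pos hs] at hp
  have hz : ‖M s - x‖ = 0 := by nlinarith [norm_nonneg (M s - x)]
  have hMx : M s = x := sub_eq_zero.mp (norm_eq_zero.mp hz)
  rw [hMx] at hfM
  rw [hfM, smul_smul]; norm_num

/-- on a segment all of whose interior points are points of local similarity `f` is affine -/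
theorem gap_affine (f : E ≃ₜ F) {A e : E} (he : ‖e‖ = 1) {a b : ℝ} (hab : a < b)
    (h : ∀ t ∈ Ioo a b, LocSim f (A + t • e)) {t : ℝ} (ht : t ∈ Icc a b) :
    f (A + t • e) - f (A + a • e) = ((t - a) / (b - a)) • (f (A + b • e) - f (A + a • e)) := by
  rw [NormedSpace.eq_iff_forall_dual_eq ℝ]
  intro φ
  set k : ℝ → ℝ := fun u => φ (f (A + (a + u) • e) - f (A + a • e)) with hk
  have hkc : Continuous k := by
    rw [hk]
    exact φ.continuous.comp ((f.continuous.comp (by fun_prop)).sub continuous_const)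
  have hT : 0 < b - a := by linarith
  have key := affine_of_midpoint (g := k) hT hkc.continuousOn (by simp [hk]) (by
    intro u hu0 huT
    obtain ⟨ε, hε, hmid⟩ := locSim_mid f he (h (a + u) ⟨by linarith, by linarith⟩)
    refine ⟨ε, hε, fun s hs hsε => ?_⟩
    have h1 := hmid s hs hsε
    have e1 : A + (a + u) • e + s • e = A + (a + (u + s)) • e := by
      rw [add_assoc, ← add_smul]; congr 2; ring
    have e2 : A + (a + u) • e - s • e = A + (a + (u - s)) • e := by
      rw [add_sub_assoc, ← sub_smul]; congr 2; ring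
    rw [e1, e2] at h1
    simp only [hk]
    rw [← map_add]
    have h2 : f (A + (a + (u + s)) • e) - f (A + a • e) +
        (f (A + (a + (u - s)) • e) - f (A + a • e)) =
        (2 : ℝ) • (f (A + (a + u) • e) - f (A + a • e)) := by
      rw [smul_sub, ← h1, two_smul]; abel
    rw [h2, map_smul, smul_eq_mul]) (t := t - a) (by linarith [ht.1]) (by linarith [ht.2])
  simp only [hk] at key
  have e1 : a + (t - a) = t := by ring
  have e2 : a + (b - a) = b := by ring
  rw [e1, e2] at key
  rw [key, map_smul, smul_eq_mul]; ring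

theorem lim_of_compare {L : ℝ → ℝ} {M R : ℝ} (hR : 0 < R)
    (h : ∀ r r', 0 < r' → r' ≤ r → r ≤ R → |L r' - L r| ≤ M * r) :
    ∃ l, ∀ r, 0 < r → r ≤ R → |L r - l| ≤ M * r := by
  set s : ℕ → ℝ := fun n => R / ((n : ℝ) + 1) with hs
  have hspos : ∀ n, 0 < s n := fun n => by rw [hs]; positivity
  have hsanti : ∀ n m, n ≤ m → s m ≤ s n := by
    intro n m hnm
    have : (n : ℝ) ≤ m := by exact_mod_cast hnm
    exact div_le_div_of_nonneg_left hR.le (by positivity) (by linarith)
  have hs0 : ∀ n, s n ≤ R := by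
    intro n
    have := hsanti 0 n (Nat.zero_le n)
    simpa [hs] using this
  have hslim : Tendsto s atTop (𝓝 0) := by
    have h1 : Tendsto (fun n : ℕ => (n : ℝ) + 1) atTop atTop :=
      tendsto_natCast_atTop_atTop.atTop_add tendsto_const_nhds
    exact h1.const_div_atTop R
  have hcau : CauchySeq (fun n => L (s n)) := by
    apply cauchySeq_of_le_tendsto_0' (fun n => M * s n)
    · intro n m hnm
      rw [dist_comm, Real.dist_eq]
      exact h _ _ (hspos m) (hsanti n m hnm) (hs0 n)
    · have := hslim.const_mul M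
      simpa using this
  obtain ⟨l, hl⟩ := cauchySeq_tendsto_of_complete hcau
  refine ⟨l, fun r hr hrR => ?_⟩
  have hlim : Tendsto (fun n => |L r - L (s n)|) atTop (𝓝 |L r - l|) :=
    (tendsto_const_nhds.sub hl).abs
  refine le_of_tendsto hlim ?_
  have hev : ∀ᶠ n in atTop, s n < r := hslim.eventually (gt_mem_nhds hr)
  filter_upwards [hev] with n hn
  rw [abs_sub_comm]
  exact h _ _ (hspos n) hn.le hrR

/-- the line data at a round point -/
theorem lineData (f : E ≃ₜ F) {x₀ A e : E} {ρ δ r : ℝ} (he : ‖e‖ = 1)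
    (h : ∀ x, ‖x - x₀‖ < ρ → LocSim f x ∨ RoundAt f 1 δ x) (hA : RoundAt f 1 δ A)
    (hr : 0 < r) (hrδ : r < δ) (hrρ : ‖A - x₀‖ + r < ρ) :
    LineData (fun t => f (A + t • e)) ({t | ¬ LocSim f (A + t • e)} ∪ {0}) r := by
  have hround : ∀ t ∈ Icc 0 r, t ∈ ({t | ¬ LocSim f (A + t • e)} ∪ {0} : Set ℝ) →
      RoundAt f 1 δ (A + t • e) := by
    rintro t ht (h1 | h1)
    · refine (h _ ?_).resolve_left h1
      calc ‖A + t • e - x₀‖ = ‖(A - x₀) + t • e‖ := by congr 1; abel
        _ ≤ ‖A - x₀‖ + ‖t • e‖ := norm_add_le _ _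
        _ < ρ := by rw [nrm_smul he, abs_of_nonneg ht.1]; linarith [ht.2]
    · rw [mem_singleton_iff.mp h1]; simpa using hA
  refine ⟨hr, f.continuous.comp (by fun_prop), ?_, Or.inr rfl, ?_, ?_, ?_⟩
  · apply IsClosed.union _ isClosed_singleton
    have : {t : ℝ | ¬ LocSim f (A + t • e)} = (fun t : ℝ => A + t • e) ⁻¹' {x | LocSim f x}ᶜ := rfl
    rw [this]
    exact (isOpen_locSim (f : E → F)).isClosed_compl.preimage (by fun_prop)
  · intro t₀ t₁ t₂ ht₀ ht₂ h₀ h₁ hbet
    have ht₁ : t₁ ∈ Icc 0 r := by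
      rcases hbet with ⟨h1, h2⟩ | ⟨h1, h2⟩
      · exact ⟨ht₀.1.trans h1, h2.trans ht₂.2⟩
      · exact ⟨ht₂.1.trans h1, h2.trans ht₀.2⟩
    have hsum : |t₂ - t₀| = |t₂ - t₁| + |t₁ - t₀| := by
      rcases hbet with ⟨h1, h2⟩ | ⟨h1, h2⟩
      · rw [abs_of_nonneg (by linarith), abs_of_nonneg (by linarith),
          abs_of_nonneg (by linarith)]; ring
      · rw [abs_of_nonpos (by linarith), abs_of_nonpos (by linarith),
          abs_of_nonpos (by linarith)]; ring
    have hexp : (1 : ℝ) ≤ Real.exp (2 * |t₂ - t₀|) := Real.one_le_exp (by positivity)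
    by_cases h01 : t₁ = t₀
    · subst h01
      simp only [sub_self, norm_zero, zero_add]
      exact le_mul_of_one_le_left (norm_nonneg _) hexp
    by_cases h12 : t₂ = t₁
    · subst h12
      simp only [sub_self, norm_zero, add_zero]
      exact le_mul_of_one_le_left (norm_nonneg _) hexp
    have p1 : 0 < |t₂ - t₁| := abs_pos.mpr (sub_ne_zero.mpr h12)
    have p2 : 0 < |t₁ - t₀| := abs_pos.mpr (sub_ne_zero.mpr h01)
    have hle : |t₂ - t₀| ≤ r := by
      rw [abs_le]; constructor <;> linarith [ht₀.1, ht₀.2, ht₂.1, ht₂.2]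
    have hl := lower f (zero_le_one (α := ℝ)) he (q := A + t₀ • e) (p := A + t₁ • e)
      (z := A + t₂ • e) (y' := A + t₂ • e) p1 p2 (by rw [← hsum]; linarith)
      (hround t₀ ht₀ h₀) (hround t₁ ht₁ h₁) (nrm_line he A _ _)
      (by rw [nrm_line he A, hsum]) (nrm_line he A _ _)
    refine hl.trans ?_
    rw [← hsum, ← mul_assoc]
    apply mul_le_mul_of_nonneg_right _ (norm_nonneg _)
    have q1 : 1 + 1 * |t₂ - t₁| ≤ Real.exp |t₂ - t₀| := by
      have := one_add_le_exp |t₂ - t₀|
      linarith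
    have q2 : 1 + 1 * |t₂ - t₀| ≤ Real.exp |t₂ - t₀| := by
      have := one_add_le_exp |t₂ - t₀|
      linarith
    calc (1 + 1 * |t₂ - t₁|) * (1 + 1 * |t₂ - t₀|)
        ≤ Real.exp |t₂ - t₀| * Real.exp |t₂ - t₀| :=
          mul_le_mul q1 q2 (by positivity) (Real.exp_nonneg _)
      _ = _ := by rw [← Real.exp_add]; congr 1; ring
  · intro t ht s hs hts htr
    have htI : t ∈ Icc 0 r := ⟨by linarith, by linarith⟩
    have hR := hround t htI ht
    have n1 : ‖A + (t + s) • e - (A + t • e)‖ = s := by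
      rw [nrm_line he A, add_sub_cancel_left, abs_of_pos hs]
    have n2 : ‖A + (t - s) • e - (A + t • e)‖ = s := by
      rw [nrm_line he A, sub_sub_cancel_left, abs_neg, abs_of_pos hs]
    have a1 := hR (A + (t + s) • e) (A + (t - s) • e) (by rw [n1, n2]) (by rw [n1]; linarith)
    have a2 := hR (A + (t - s) • e) (A + (t + s) • e) (by rw [n1, n2]) (by rw [n2]; linarith)
    rw [n1, one_mul] at a1
    rw [n2, one_mul] at a2
    exact ⟨a1.trans (mul_le_mul_of_nonneg_right (one_add_le_exp s) (norm_nonneg _)),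
      a2.trans (mul_le_mul_of_nonneg_right (one_add_le_exp s) (norm_nonneg _))⟩
  · intro a b ha hab hb hno t ht
    apply gap_affine f he hab _ ht
    intro t ht
    by_contra hcon
    exact hno t ht (Or.inl hcon)

end Pool.Agent.Helper137_QC
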