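import Pool.Agent.Helper137_QC.K4

set_option autoImplicit false
set_option linter.unusedSectionVars false

namespace Pool.Agent.Helper137_QC

open Filter Topology Set

variable {E F : Type*} [NormedAddCommGroup E] [InnerProductSpace ℝ E]
  [NormedAddCommGroup F] [NormedSpace ℝ F]

/-- scaling limit at a round point, when all nearby points are round or points of local
similarity -/
theorem exists_l_round [Nontrivial E] (f : E ≃ₜ F) {x₀ A : E} {ρ δ R : ℝ}
    (h : ∀ x, ‖x - x₀‖ < ρ → LocSim f x ∨ RoundAt f 1 δ x) (hA : RoundAt f 1 δ A)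
    (hR : 0 < R) (hRδ : R < δ) (hRρ : ‖A - x₀‖ + R < ρ) :
    ∃ l : ℝ, ∀ y, y ≠ A → ‖y - A‖ ≤ R →
      |Real.log (‖f y - f A‖ / ‖y - A‖) - l| ≤ 29 * ‖y - A‖ := by
  obtain ⟨e, he⟩ := exists_norm_eq E zero_le_one
  have hcmp : ∀ r r', 0 < r' → r' ≤ r → r ≤ R → |Lg f e A r' - Lg f e A r| ≤ 28 * r := by
    intro r r' hr' hr'r hrR
    have hr : 0 < r := hr'.trans_le hr'r
    have D := lineData f he h hA hr (by linarith) (by linarith)
    have p2 := phi_pos f he A hr
    have p1 := phi_pos f he A hr'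
    have e0 : f (A + (0 : ℝ) • e) = f A := by simp
    obtain ⟨h1, h2⟩ := scale_compare D (by simp only [e0]; exact p2) hr' hr'r
    simp only [e0] at h1 h2
    change phi f e A r' ≤ Real.exp (28 * r) * (r' / r * phi f e A r) at h1
    change r' / r * phi f e A r ≤ Real.exp (28 * r) * phi f e A r' at h2
    have k1 : phi f e A r' / r' ≤ Real.exp (28 * r) * (phi f e A r / r) := by
      rw [div_le_iff₀ hr']
      calc _ ≤ _ := h1
        _ = _ := by field_simp
    have k2 : phi f e A r / r ≤ Real.exp (28 * r) * (phi f e A r' / r') := by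
      rw [← mul_le_mul_iff_right₀ hr']
      calc r' * (phi f e A r / r) = (r' / r) * phi f e A r := by field_simp
        _ ≤ _ := h2
        _ = _ := by field_simp
    have q1 : 0 < phi f e A r' / r' := by positivity
    have q2 : 0 < phi f e A r / r := by positivity
    have l1 := Real.log_le_log q1 k1
    have l2 := Real.log_le_log q2 k2
    rw [Real.log_mul (Real.exp_pos _).ne' q2.ne', Real.log_exp] at l1
    rw [Real.log_mul (Real.exp_pos _).ne' q1.ne', Real.log_exp] at l2
    unfold Lg
    rw [abs_le]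
    constructor <;> linarith
  obtain ⟨l, hl⟩ := lim_of_compare hR hcmp
  refine ⟨l, fun y hyx hyR => ?_⟩
  set r := ‖y - A‖ with hr
  have hrpos : 0 < r := norm_pos_iff.mpr (sub_ne_zero.mpr hyx)
  have h1 := hl r hrpos hyR
  have hr2 : ‖A + r • e - A‖ = r := by
    rw [add_sub_cancel_left, norm_smul, he, mul_one, Real.norm_of_nonneg hrpos.le]
  have a1 := hA y (A + r • e) (by rw [hr2]) (by rw [← hr]; linarith)
  have a2 := hA (A + r • e) y (by rw [hr2]) (by rw [hr2]; linarith)
  rw [← hr, one_mul] at a1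
  rw [hr2, one_mul] at a2
  have p1 : 0 < phi f e A r := phi_pos f he A hrpos
  have p2 : 0 < ‖f y - f A‖ := norm_pos_iff.mpr (sub_ne_zero.mpr (f.injective.ne hyx))
  change ‖f y - f A‖ ≤ (1 + r) * phi f e A r at a1
  change phi f e A r ≤ (1 + r) * ‖f y - f A‖ at a2
  have b1 : ‖f y - f A‖ / r ≤ Real.exp r * (phi f e A r / r) := by
    rw [← mul_div_assoc]
    exact div_le_div_of_nonneg_right
      (a1.trans (mul_le_mul_of_nonneg_right (one_add_le_exp _) p1.le)) hrpos.le
  have b2 : phi f e A r / r ≤ Real.exp r * (‖f y - f A‖ / r) := by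
    rw [← mul_div_assoc]
    exact div_le_div_of_nonneg_right
      (a2.trans (mul_le_mul_of_nonneg_right (one_add_le_exp _) p2.le)) hrpos.le
  have q1 : 0 < ‖f y - f A‖ / r := by positivity
  have q2 : 0 < phi f e A r / r := by positivity
  have l1 := Real.log_le_log q1 b1
  have l2 := Real.log_le_log q2 b2
  rw [Real.log_mul (Real.exp_pos _).ne' q2.ne', Real.log_exp] at l1
  rw [Real.log_mul (Real.exp_pos _).ne' q1.ne', Real.log_exp] at l2
  unfold Lg at h1
  rw [abs_le] at h1 ⊢
  constructor <;> linarith [h1.1, h1.2]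

/-- `l` describes the scaling of `f` at `x` -/
def Scal (f : E → F) (R : ℝ) (x : E) (l : ℝ) : Prop :=
  (LocSim f x ∧ ∀ᶠ y in 𝓝 x, ‖f y - f x‖ = Real.exp l * ‖y - x‖) ∨
  (¬ LocSim f x ∧ ∀ y, y ≠ x → ‖y - x‖ ≤ R →
      |Real.log (‖f y - f x‖ / ‖y - x‖) - l| ≤ 29 * ‖y - x‖)

/-- if `f` is linear along a segment ending at `v` with speed `κ`, the scaling at `v` is `κ` -/
theorem scal_of_ray (f : E ≃ₜ F) {R l κ T : ℝ} {v e : E} (hR : 0 < R) (hT : 0 < T)
    (he : ‖e‖ = 1) (hs : Scal f R v l)
    (hray : ∀ t, 0 < t → t < T → ‖f (v + t • e) - f v‖ = κ * t) : Real.exp l = κ := by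
  have hlim : Tendsto (fun t : ℝ => v + t • e) (𝓝[>] 0) (𝓝 v) := by
    have h1 : Continuous (fun t : ℝ => v + t • e) := by fun_prop
    have := h1.tendsto 0
    simp only [zero_smul, add_zero] at this
    exact this.mono_left nhdsWithin_le_nhds
  have hIoo : ∀ᶠ t : ℝ in 𝓝[>] 0, t ∈ Ioo 0 (min T R) := Ioo_mem_nhdsGT (lt_min hT hR)
  have nrm : ∀ t : ℝ, 0 < t → ‖v + t • e - v‖ = t := by
    intro t ht
    rw [add_sub_cancel_left, nrm_smul he, abs_of_pos ht]
  rcases hs with ⟨-, h⟩ | ⟨-, h⟩
  · obtain ⟨t, h1, h2⟩ := ((hlim.eventually h).and hIoo).exists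
    rw [nrm t h2.1, hray t h2.1 (h2.2.trans_le (min_le_left _ _))] at h1
    exact (mul_right_cancel₀ h2.1.ne' h1).symm
  · have hev : ∀ᶠ t : ℝ in 𝓝[>] 0, |Real.log κ - l| ≤ 29 * t ∧ 0 < κ := by
      filter_upwards [hIoo] with t ht
      have hne : v + t • e ≠ v := by
        intro h0
        have := nrm t ht.1
        rw [h0, sub_self, norm_zero] at this
        linarith [ht.1]
      have h1 := h (v + t • e) hne (by rw [nrm t ht.1]; exact ht.2.le.trans (min_le_right _ _))
      have h2 := hray t ht.1 (ht.2.trans_le (min_le_left _ _))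
      rw [nrm t ht.1, h2, mul_div_assoc, div_self ht.1.ne', mul_one] at h1
      have h3 : 0 < ‖f (v + t • e) - f v‖ :=
        norm_pos_iff.mpr (sub_ne_zero.mpr (f.injective.ne hne))
      rw [h2] at h3
      exact ⟨h1, pos_of_mul_pos_left h3 ht.1.le⟩
    have hκ : 0 < κ := hev.exists.choose_spec.2
    have hz : |Real.log κ - l| ≤ 0 := by
      have h1 : Tendsto (fun t : ℝ => 29 * t) (𝓝[>] 0) (𝓝 0) := by
        have h2 : Continuous (fun t : ℝ => 29 * t) := by fun_prop
        have := h2.tendsto 0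
        simp only [mul_zero] at this
        exact this.mono_left nhdsWithin_le_nhds
      exact ge_of_tendsto h1 (hev.mono fun t ht => ht.1)
    have h2 : Real.log κ = l := by
      have := abs_nonpos_iff.mp hz
      linarith
    rw [← h2, Real.exp_log hκ]

/-- the scaling is constant along segments of points of local similarity -/
theorem scal_edge (f : E ≃ₜ F) {R lu lv T : ℝ} {u e : E} (hR : 0 < R) (hT : 0 < T)
    (he : ‖e‖ = 1) (hu : Scal f R u lu) (hv : Scal f R (u + T • e) lv)
    (h : ∀ t ∈ Ioo 0 T, LocSim f (u + t • e)) : lu = lv := by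
  set κ := ‖f (u + T • e) - f u‖ / T with hκ
  have hga : ∀ t ∈ Icc 0 T, f (u + t • e) - f u = (t / T) • (f (u + T • e) - f u) := by
    intro t ht
    have := gap_affine f he hT h ht
    simpa using this
  have h1 : Real.exp lu = κ := by
    apply scal_of_ray f hR hT he hu
    intro t h0 h1
    have h2 : 0 ≤ t / T := by positivity
    rw [hga t ⟨h0.le, h1.le⟩, norm_smul, Real.norm_of_nonneg h2, hκ]; ring
  have h2 : Real.exp lv = κ := by
    have hne : ‖-e‖ = 1 := by rw [norm_neg, he]
    apply scal_of_ray f hR hT hne hv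
    intro t h0 h1
    have e1 : u + T • e + t • -e = u + (T - t) • e := by
      rw [sub_smul, smul_neg]; abel
    have e2 : f (u + (T - t) • e) - f (u + T • e) = -((t / T) • (f (u + T • e) - f u)) := by
      have h3 := hga (T - t) ⟨by linarith, by linarith⟩
      have h4 : (T - t) / T = 1 - t / T := by field_simp
      rw [h4, sub_smul (1 : ℝ) (t / T), one_smul] at h3
      calc f (u + (T - t) • e) - f (u + T • e)
          = (f (u + (T - t) • e) - f u) - (f (u + T • e) - f u) := by abel
        _ = _ := by rw [h3]; abel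
    have h5 : 0 ≤ t / T := by positivity
    rw [e1, e2, norm_neg, norm_smul, Real.norm_of_nonneg h5, hκ]; ring
  exact Real.exp_injective (h1.trans h2.symm)

theorem scal_lip (f : E ≃ₜ F) {R : ℝ} {x₀ : E} {l : E → ℝ} (hR : 0 < R)
    (hl : ∀ x, ‖x - x₀‖ < R → Scal f R x (l x)) {x y : E} (hx : ‖x - x₀‖ < R / 2)
    (hy : ‖y - x₀‖ < R / 2) : |l x - l y| ≤ 58 * ‖x - y‖ := by
  by_cases hxy : x = y
  · subst hxy; simp
  have hT : 0 < ‖y - x‖ := norm_pos_iff.mpr (sub_ne_zero.mpr (Ne.symm hxy))
  set T := ‖y - x‖ with hTdef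
  have hTR : T ≤ R := by
    calc T = ‖(y - x₀) - (x - x₀)‖ := by rw [hTdef]; congr 1; abel
      _ ≤ ‖y - x₀‖ + ‖x - x₀‖ := norm_sub_le _ _
      _ ≤ R := by linarith
  set e : E := T⁻¹ • (y - x) with he
  have he1 : ‖e‖ = 1 := by
    rw [he, norm_smul, norm_inv, Real.norm_of_nonneg hT.le, ← hTdef]
    field_simp
  have hye : x + T • e = y := by
    rw [he, smul_smul, mul_inv_cancel₀ hT.ne', one_smul]; abel
  have hball : ∀ t ∈ Icc 0 T, ‖x + t • e - x₀‖ < R := by
    intro t ht
    have hm : x + (t / T) • (y - x) ∈ Metric.ball x₀ (R / 2) :=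
      (convex_ball x₀ (R / 2)).add_smul_sub_mem (by simpa [dist_eq_norm] using hx)
        (by simpa [dist_eq_norm] using hy)
        ⟨div_nonneg ht.1 hT.le, (div_le_one hT).mpr ht.2⟩
    have e1 : x + t • e = x + (t / T) • (y - x) := by
      rw [he, smul_smul, div_eq_mul_inv]
    rw [Metric.mem_ball, dist_eq_norm] at hm
    rw [e1]; linarith
  have hx0 : x + (0 : ℝ) • e = x := by simp
  rw [norm_sub_rev x y, ← hTdef]
  set Z : Set ℝ := {t | ¬ LocSim f (x + t • e)} ∩ Icc 0 T with hZ
  have hZc : IsCompact Z := by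
    apply isCompact_Icc.inter_left
    have : {t : ℝ | ¬ LocSim f (x + t • e)} = (fun t : ℝ => x + t • e) ⁻¹' {x | LocSim f x}ᶜ := rfl
    rw [this]
    exact (isOpen_locSim (f : E → F)).isClosed_compl.preimage (by fun_prop)
  rcases Z.eq_empty_or_nonempty with hemp | hne
  · have hall : ∀ t ∈ Ioo 0 T, LocSim f (x + t • e) := by
      intro t ht
      by_contra hcon
      have : t ∈ Z := ⟨hcon, ht.1.le, ht.2.le⟩
      rw [hemp] at this
      exact this
    have := scal_edge f hR hT he1 (hl x (by linarith)) (hl (x + T • e)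
      (hball T ⟨hT.le, le_rfl⟩)) hall
    rw [hye] at this
    rw [this, sub_self, abs_zero]; positivity
  · obtain ⟨a, ha, hamin⟩ := hZc.exists_isMinOn hne continuousOn_id
    obtain ⟨b, hb, hbmax⟩ := hZc.exists_isMaxOn hne continuousOn_id
    have hab : a ≤ b := hamin hb
    -- left edge
    have hla : l x = l (x + a • e) := by
      rcases ha.2.1.eq_or_lt with h0 | h0
      · rw [← h0, hx0]
      · apply scal_edge f hR h0 he1 (hl x (by linarith)) (hl (x + a • e) (hball a ha.2))
        intro t ht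
        by_contra hcon
        have h1 : a ≤ t := hamin (show t ∈ Z from ⟨hcon, ht.1.le, ht.2.le.trans ha.2.2⟩)
        linarith [ht.2]
    -- right edge
    have hlb : l y = l (x + b • e) := by
      rcases hb.2.2.eq_or_lt with h0 | h0
      · rw [h0, hye]
      · have hTb : 0 < T - b := by linarith
        have e1 : x + b • e + (T - b) • e = y := by
          rw [add_assoc, ← add_smul, add_sub_cancel, hye]
        have := scal_edge f hR hTb he1 (hl (x + b • e) (hball b hb.2))
          (hl (x + b • e + (T - b) • e) (by rw [e1]; linarith)) (by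
            intro t ht
            by_contra hcon
            have e2 : x + b • e + t • e = x + (b + t) • e := by rw [add_assoc, ← add_smul]
            rw [e2] at hcon
            have h1 : b + t ≤ b := hbmax (show b + t ∈ Z from
              ⟨hcon, by linarith [hb.2.1, ht.1], by linarith [ht.2]⟩)
            linarith [ht.1])
        rw [e1] at this
        exact this.symm
    rw [hla, hlb]
    rcases hab.eq_or_lt with h0 | h0
    · rw [h0, sub_self, abs_zero]; positivity
    · have hna := (hl (x + a • e) (hball a ha.2)).resolve_left (fun h => ha.1 h.1)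
      have hnb := (hl (x + b • e) (hball b hb.2)).resolve_left (fun h => hb.1 h.1)
      have n1 : ‖x + b • e - (x + a • e)‖ = b - a := by
        rw [nrm_line he1 x, abs_of_pos (by linarith)]
      have n2 : ‖x + a • e - (x + b • e)‖ = b - a := by rw [norm_sub_rev, n1]
      have hneq : x + b • e ≠ x + a • e := by
        intro h1
        rw [h1, sub_self, norm_zero] at n1
        linarith
      have hbaR : b - a ≤ R := by linarith [ha.2.1, hb.2.2]
      have c1 := hna.2 (x + b • e) hneq (by rw [n1]; exact hbaR)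
      have c2 := hnb.2 (x + a • e) hneq.symm (by rw [n2]; exact hbaR)
      rw [n1] at c1
      rw [n2, norm_sub_rev (f (x + a • e))] at c2
      have hbT : b - a ≤ T := by linarith [ha.2.1, hb.2.2]
      rw [abs_le] at c1 c2 ⊢
      constructor <;> linarith [c1.1, c1.2, c2.1, c2.2]

/-- local rigidity when all points near `x₀` are round or points of local similarity -/
theorem locSim_of_mixed [Nontrivial E] (f : E ≃ₜ F) {x₀ : E} {ρ δ : ℝ} (hρ : 0 < ρ) (hδ : 0 < δ)
    (h : ∀ x, ‖x - x₀‖ < ρ → LocSim f x ∨ RoundAt f 1 δ x) (hr : ∀ x, LittleO f x) :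
    LocSim f x₀ := by
  set R := min ρ δ / 4 with hRdef
  have hR : 0 < R := by have := lt_min hρ hδ; positivity
  have hRρ : 4 * R ≤ ρ := by rw [hRdef]; linarith [min_le_left ρ δ]
  have hRδ : 4 * R ≤ δ := by rw [hRdef]; linarith [min_le_right ρ δ]
  have hex : ∀ x : E, ∃ l : ℝ, ‖x - x₀‖ < R → Scal f R x l := by
    intro x
    by_cases hx : ‖x - x₀‖ < R
    · by_cases hls : LocSim f x
      · obtain ⟨c, ρ', hc, hρ', hloc⟩ := hls
        refine ⟨Real.log c, fun _ => Or.inl ⟨⟨c, ρ', hc, hρ', hloc⟩, ?_⟩⟩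
        have hopen' : ∀ᶠ z in 𝓝 x, ‖z - x‖ < ρ' := by
          have : IsOpen {z : E | ‖z - x‖ < ρ'} := isOpen_lt (by fun_prop) continuous_const
          exact this.mem_nhds (by simpa using hρ')
        filter_upwards [hopen'] with z hz
        rw [hloc z x hz (by simpa using hρ'), Real.exp_log hc]
      · have hrd := (h x (by linarith)).resolve_left hls
        obtain ⟨l, hl⟩ := exists_l_round f h hrd hR (by linarith) (by linarith)
        exact ⟨l, fun _ => Or.inr ⟨hls, hl⟩⟩
    · exact ⟨0, fun hx' => absurd hx' hx⟩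
  choose l hl using hex
  have hLO : LipschitzOnWith (Real.toNNReal 58) l (Metric.ball x₀ (R / 2)) := by
    apply LipschitzOnWith.of_dist_le_mul
    intro x hx y hy
    rw [Metric.mem_ball, dist_eq_norm] at hx hy
    rw [Real.dist_eq, dist_eq_norm, Real.coe_toNNReal _ (by norm_num)]
    exact scal_lip f hR hl hx hy
  obtain ⟨l', hl'L, hl'⟩ := hLO.extend_real
  have hL : ∀ x y, |l' x - l' y| ≤ 58 * ‖x - y‖ := by
    intro x y
    have := hl'L.dist_le_mul x y
    rwa [Real.dist_eq, dist_eq_norm, Real.coe_toNNReal _ (by norm_num)] at this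
  refine sc_locSim f (l := l') (R₀ := R / 2) (C := 58) (by norm_num) (by positivity) hL ?_
    (fun x _ => hr x)
  intro x hx
  have hlx : l' x = l x := (hl' (by rw [Metric.mem_ball, dist_eq_norm]; exact hx)).symm
  rcases hl x (by linarith) with ⟨-, hs⟩ | ⟨-, hs⟩
  · intro ε hε
    filter_upwards [hs] with y hy
    rw [hy, hlx]
    exact ⟨mul_le_mul_of_nonneg_right (Real.exp_le_exp.mpr (by linarith)) (norm_nonneg _),
      mul_le_mul_of_nonneg_right (Real.exp_le_exp.mpr (by linarith)) (norm_nonneg _)⟩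
  · apply infin_of_log f (R := R) (C := 29) hR (by norm_num)
    intro y hyx hyR
    rw [hlx]
    exact hs y hyx hyR

theorem all_locSim' [CompleteSpace E] [Nontrivial E] (f : E ≃ₜ F) (h : ∀ x, LittleO f x)
    (x : E) : LocSim f x := by
  by_contra hx
  set K : Set E := {x | ¬ LocSim f x} with hK
  have hKc : IsClosed K := (isOpen_locSim (f : E → F)).isClosed_compl
  haveI : CompleteSpace K := hKc.completeSpace_coe
  haveI : Nonempty K := ⟨⟨x, hx⟩⟩
  set B : ℕ → Set K := fun n => {y : K | RoundAt f 1 (1 / ((n : ℝ) + 1)) (y : E)} with hB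
  have hBc : ∀ n, IsClosed (B n) := fun n =>
    (isClosed_roundAt' f.continuous _ _).preimage continuous_subtype_val
  have hBU : ⋃ n, B n = univ := by
    rw [eq_univ_iff_forall]
    intro y
    obtain ⟨δ, hδ, hy⟩ := h (y : E) 1 one_pos
    obtain ⟨n, hn⟩ := exists_nat_one_div_lt hδ
    rw [mem_iUnion]
    exact ⟨n, fun u v huv hu => hy u v huv (hu.trans hn)⟩
  obtain ⟨n, x₀, hx₀⟩ := nonempty_interior_of_iUnion_of_closed hBc hBU
  rw [mem_interior_iff_mem_nhds, Metric.mem_nhds_iff] at hx₀
  obtain ⟨ρ, hρ, hball⟩ := hx₀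
  have hδ : (0 : ℝ) < 1 / ((n : ℝ) + 1) := by positivity
  exact x₀.2 (locSim_of_mixed f hρ hδ (fun y hy => by
    by_cases hl : LocSim f y
    · exact Or.inl hl
    · right
      have : (⟨y, hl⟩ : K) ∈ Metric.ball x₀ ρ := by
        rw [Metric.mem_ball, Subtype.dist_eq, dist_eq_norm]; exact hy
      exact hball this) h)

/-- Pointwise distortion `1 + o(r)` everywhere forces a similarity. -/
theorem main_littleO [CompleteSpace E] (f : E ≃ₜ F) (h : ∀ x, LittleO f x) :
    ∃ c : ℝ, 0 < c ∧ ∀ a b : E, ‖f a - f b‖ = c * ‖a - b‖ := by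
  rcases subsingleton_or_nontrivial E with hE | hE
  · refine ⟨1, one_pos, fun a b => ?_⟩
    rw [Subsingleton.elim a b]; simp
  · apply main f
    intro x₀ η hη
    obtain ⟨c, ρ, hc, hρ, -, hr⟩ := (all_locSim' f h x₀).spec
    refine ⟨ρ, hρ, fun x hx y z hyz hy => ?_⟩
    have h1 := hr x hx y z hyz hy
    have h2 : 0 ≤ η * ‖y - x‖ := by positivity
    nlinarith [norm_nonneg (f z - f x)]

end Pool.Agent.Helper137_QC
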