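import Pool.Agent.Helper137_QC.X2

set_option autoImplicit false
set_option linter.unusedSectionVars false

namespace Pool.Agent.Helper137_QC

open Filter Topology Set

section general

variable {F : Type*} [NormedAddCommGroup F] [NormedSpace ℝ F]

/-- a mean value inequality with pointwise hypothesis -/
theorem gm {g : ℝ → F} {G : ℝ → ℝ} (hg : Continuous g) (hG : Continuous G) {a b : ℝ}
    (hab : a ≤ b) (h : ∀ t ∈ Ico a b, ∀ᶠ t' in 𝓝[>] t, ‖g t' - g t‖ ≤ G t' - G t) :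
    ‖g b - g a‖ ≤ G b - G a := by
  set s : Set ℝ := {t | ‖g t - g a‖ ≤ G t - G a} with hs
  have hclosed : IsClosed s := by
    apply isClosed_le
    · exact (hg.sub continuous_const).norm
    · exact hG.sub continuous_const
  have h0 : a ∈ s := by simp [hs]
  have hsub : Icc a b ⊆ s := by
    apply IsClosed.Icc_subset_of_forall_exists_gt (hclosed.inter isClosed_Icc) h0
    rintro t ⟨hts, ht⟩ y hy
    have hev3 : ∀ᶠ t' in 𝓝[>] t, t' ∈ Ioc t y := Ioc_mem_nhdsGT hy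
    obtain ⟨t', h1, h2⟩ := ((h t ht).and hev3).exists
    refine ⟨t', ?_, h2⟩
    have h3 : ‖g t - g a‖ ≤ G t - G a := hts
    change ‖g t' - g a‖ ≤ G t' - G a
    calc ‖g t' - g a‖ = ‖(g t' - g t) + (g t - g a)‖ := by congr 1; abel
      _ ≤ _ := norm_add_le _ _
      _ ≤ (G t' - G t) + (G t - G a) := add_le_add h1 h3
      _ = _ := by ring
  exact hsub (right_mem_Icc.mpr hab)

/-- Schwarz's theorem: vanishing second symmetric derivative -/
theorem schwarz_max {h : ℝ → ℝ} {T : ℝ} (hc : ContinuousOn h (Icc 0 T))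
    (hα : h 0 ≤ 0) (hβ : h T ≤ 0)
    (hs : ∀ t, 0 < t → t < T → ∀ η, 0 < η → ∃ ε, 0 < ε ∧ ∀ s, 0 < s → s < ε →
      -(η * s ^ 2) ≤ h (t + s) + h (t - s) - 2 * h t)
    {t : ℝ} (ht0 : 0 ≤ t) (htT : t ≤ T) : h t ≤ 0 := by
  by_contra hcon
  push Not at hcon
  have hT : 0 ≤ T := ht0.trans htT
  set lam : ℝ := h t / (2 * (T ^ 2 + 1)) with hlam
  have hlpos : 0 < lam := by positivity
  set k : ℝ → ℝ := fun u => h u + lam * (u * (u - T)) with hk
  have hkc : ContinuousOn k (Icc 0 T) := hc.add (by fun_prop)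
  have hkt : 0 < k t := by
    have h1 : -(T ^ 2) ≤ t * (t - T) := by nlinarith
    have h2 : lam * (-(T ^ 2)) ≤ lam * (t * (t - T)) := mul_le_mul_of_nonneg_left h1 hlpos.le
    have h3 : lam * (T ^ 2 + 1) = h t / 2 := by rw [hlam]; field_simp
    have h4 : lam * T ^ 2 ≤ h t / 2 := by rw [← h3]; nlinarith
    simp only [hk]
    linarith
  have hk0 : k 0 ≤ 0 := by simp [hk, hα]
  have hkT : k T ≤ 0 := by simp [hk, hβ]
  obtain ⟨m, hm, hmax⟩ := isCompact_Icc.exists_isMaxOn ⟨t, ht0, htT⟩ hkc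
  have hM : 0 < k m := hkt.trans_le (hmax ⟨ht0, htT⟩)
  have hm0 : 0 < m := by
    rcases hm.1.lt_or_eq with h | h
    · exact h
    · rw [← h] at hM; linarith
  have hmT : m < T := by
    rcases hm.2.lt_or_eq with h | h
    · exact h
    · rw [h] at hM; linarith
  obtain ⟨ε, hε, hε'⟩ := hs m hm0 hmT lam hlpos
  obtain ⟨s, hs0, hsm⟩ := exists_between (lt_min hε (lt_min hm0 (sub_pos.mpr hmT)))
  have hsε : s < ε := hsm.trans_le (min_le_left _ _)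
  have hsm' : s < m := hsm.trans_le ((min_le_right _ _).trans (min_le_left _ _))
  have hsT : s < T - m := hsm.trans_le ((min_le_right _ _).trans (min_le_right _ _))
  have h1 := hε' s hs0 hsε
  have h2 : k (m + s) ≤ k m := hmax ⟨by linarith, by linarith⟩
  have h3 : k (m - s) ≤ k m := hmax ⟨by linarith, by linarith⟩
  simp only [hk] at h2 h3
  have h4 : 0 < lam * s ^ 2 := by positivity
  nlinarith

theorem schwarz {g : ℝ → ℝ} {T : ℝ} (hT : 0 < T) (hc : ContinuousOn g (Icc 0 T))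
    (h0 : g 0 = 0)
    (hs : ∀ t, 0 < t → t < T → ∀ η, 0 < η → ∃ ε, 0 < ε ∧ ∀ s, 0 < s → s < ε →
      |g (t + s) + g (t - s) - 2 * g t| ≤ η * s ^ 2)
    {t : ℝ} (ht0 : 0 ≤ t) (htT : t ≤ T) : g t = t * (g T / T) := by
  have hl : ContinuousOn (fun t : ℝ => t * (g T / T)) (Icc 0 T) := by fun_prop
  have a1 := schwarz_max (h := fun t => g t - t * (g T / T)) (hc.sub hl) (by simp [h0])
    (by field_simp; simp) (fun t h1 h2 η hη => by
      obtain ⟨ε, hε, hε'⟩ := hs t h1 h2 η hη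
      exact ⟨ε, hε, fun s h3 h4 => by
        have := (abs_le.mp (hε' s h3 h4)).1; linarith⟩) ht0 htT
  have a2 := schwarz_max (h := fun t => t * (g T / T) - g t) (hl.sub hc) (by simp [h0])
    (by field_simp; simp) (fun t h1 h2 η hη => by
      obtain ⟨ε, hε, hε'⟩ := hs t h1 h2 η hη
      exact ⟨ε, hε, fun s h3 h4 => by
        have := (abs_le.mp (hε' s h3 h4)).2; linarith⟩) ht0 htT
  linarith

end general

variable {E F : Type*} [NormedAddCommGroup E] [InnerProductSpace ℝ E]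
  [NormedAddCommGroup F] [NormedSpace ℝ F]

/-- Infinitesimally at `x`, distances are scaled by `exp (ℓ x)`. -/
def Infin (f : E → F) (l : E → ℝ) (x : E) : Prop :=
  ∀ ε : ℝ, 0 < ε → ∀ᶠ y in 𝓝 x, ‖f y - f x‖ ≤ Real.exp (l x + ε) * ‖y - x‖ ∧
    Real.exp (l x - ε) * ‖y - x‖ ≤ ‖f y - f x‖

/-- Apollonius -/
theorem apollonius {a v : E} {θ K s : ℝ} (hθ0 : 0 ≤ θ) (hθ1 : θ ≤ 1) (hK : 0 ≤ K) (hs : ‖v‖ = s)
    (h1 : ‖a‖ ≤ θ * K * s) (h2 : ‖a - v‖ ≤ (1 - θ) * K * s) :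
    ‖a - θ • v‖ ^ 2 ≤ s ^ 2 * (K ^ 2 - 1) / 4 ∨ K < 1 := by
  rcases lt_or_ge K 1 with hK1 | hK1
  · exact Or.inr hK1
  left
  have hs0 : 0 ≤ s := by rw [← hs]; exact norm_nonneg _
  have e1 : ‖a - θ • v‖ ^ 2 = ‖a‖ ^ 2 - 2 * (θ * inner ℝ a v) + θ ^ 2 * s ^ 2 := by
    rw [norm_sub_sq_real, inner_smul_right, norm_smul, Real.norm_of_nonneg hθ0, hs]; ring
  have e2 : ‖a - v‖ ^ 2 = ‖a‖ ^ 2 - 2 * inner ℝ a v + s ^ 2 := by
    rw [norm_sub_sq_real, hs]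
  have q1 : ‖a‖ ^ 2 ≤ (θ * K * s) ^ 2 := pow_le_pow_left₀ (norm_nonneg _) h1 2
  have q2 : ‖a - v‖ ^ 2 ≤ ((1 - θ) * K * s) ^ 2 := pow_le_pow_left₀ (norm_nonneg _) h2 2
  have e3 : ‖a - θ • v‖ ^ 2 = (1 - θ) * ‖a‖ ^ 2 + θ * ‖a - v‖ ^ 2 - θ * (1 - θ) * s ^ 2 := by
    rw [e1, e2]; ring
  have q3 : (1 - θ) * ‖a‖ ^ 2 ≤ (1 - θ) * (θ * K * s) ^ 2 :=
    mul_le_mul_of_nonneg_left q1 (by linarith)
  have q4 : θ * ‖a - v‖ ^ 2 ≤ θ * ((1 - θ) * K * s) ^ 2 := mul_le_mul_of_nonneg_left q2 hθ0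
  have e4 : (1 - θ) * (θ * K * s) ^ 2 + θ * ((1 - θ) * K * s) ^ 2 - θ * (1 - θ) * s ^ 2 =
      (θ * (1 - θ)) * (s ^ 2 * (K ^ 2 - 1)) := by ring
  have q5 : θ * (1 - θ) ≤ 1 / 4 := by nlinarith [sq_nonneg (θ - 1 / 2)]
  have q6 : 0 ≤ s ^ 2 * (K ^ 2 - 1) := by
    apply mul_nonneg (sq_nonneg _); nlinarith
  have q7 := mul_le_mul_of_nonneg_right q5 q6
  linarith

/-- the pulled back path -/
noncomputable def zp (f : E ≃ₜ F) (x y : E) (θ : ℝ) : E := f.symm (f x + θ • (f y - f x))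

theorem continuous_zp (f : E ≃ₜ F) (x y : E) : Continuous (zp f x y) := by
  unfold zp
  exact f.symm.continuous.comp (by fun_prop)

theorem f_zp (f : E ≃ₜ F) (x y : E) (θ : ℝ) : f (zp f x y θ) = f x + θ • (f y - f x) := by
  unfold zp; rw [f.apply_symm_apply]

theorem zp_zero (f : E ≃ₜ F) (x y : E) : zp f x y 0 = x := by simp [zp]

theorem zp_one (f : E ≃ₜ F) (x y : E) : zp f x y 1 = y := by simp [zp]

/-- local speed bound of the pulled back path -/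
theorem zp_speed (f : E ≃ₜ F) {l : E → ℝ} (x y : E) (θ : ℝ) (h : Infin f l (zp f x y θ))
    {ε : ℝ} (hε : 0 < ε) : ∀ᶠ θ' in 𝓝 θ, ‖zp f x y θ' - zp f x y θ‖ ≤
      Real.exp (-l (zp f x y θ) + ε) * (|θ' - θ| * ‖f y - f x‖) := by
  have h1 : ∀ᶠ z in 𝓝 (zp f x y θ), Real.exp (l (zp f x y θ) - ε) * ‖z - zp f x y θ‖ ≤
      ‖f z - f (zp f x y θ)‖ := (h ε hε).mono fun z hz => hz.2
  have h2 := ((continuous_zp f x y).tendsto θ).eventually h1
  filter_upwards [h2] with θ' hθ'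
  rw [f_zp, f_zp] at hθ'
  have e1 : f x + θ' • (f y - f x) - (f x + θ • (f y - f x)) = (θ' - θ) • (f y - f x) := by
    rw [sub_smul]; abel
  rw [e1, norm_smul, Real.norm_eq_abs] at hθ'
  have e2 : Real.exp (-l (zp f x y θ) + ε) * Real.exp (l (zp f x y θ) - ε) = 1 := by
    rw [← Real.exp_add]; simp
  calc ‖zp f x y θ' - zp f x y θ‖ = Real.exp (-l (zp f x y θ) + ε) *
        (Real.exp (l (zp f x y θ) - ε) * ‖zp f x y θ' - zp f x y θ‖) := by
        rw [← mul_assoc, e2, one_mul]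
    _ ≤ _ := mul_le_mul_of_nonneg_left hθ' (Real.exp_nonneg _)

end Pool.Agent.Helper137_QC
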