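import Pool.Agent.Helper137_QC.S1

set_option autoImplicit false
set_option linter.unusedSectionVars false

namespace Pool.Agent.Helper137_QC

open Filter Topology Set

variable {E F : Type*} [NormedAddCommGroup E] [InnerProductSpace ℝ E]
  [NormedAddCommGroup F] [NormedSpace ℝ F]

theorem upper_crude (f : E ≃ₜ F) {l : E → ℝ} {C R₀ s : ℝ} {x₀ x y : E} (hC : 0 < C)
    (hL : ∀ x y, |l x - l y| ≤ C * ‖x - y‖) (hI : ∀ x, ‖x - x₀‖ < R₀ → Infin f l x)
    (hs : 0 < s) (hy : ‖y - x‖ = s) (hx : ‖x - x₀‖ + s < R₀) :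
    ‖f y - f x‖ ≤ Real.exp (l x + 2 * (C * s)) * s := by
  have hCs : 0 < C * s := by positivity
  have hgc : Continuous (fun t : ℝ => x + t • (y - x)) := by fun_prop
  have key := gm (g := fun t : ℝ => f (x + t • (y - x)))
    (G := fun t : ℝ => Real.exp (l x + 2 * (C * s)) * s * t)
    (f.continuous.comp hgc) (by fun_prop) (zero_le_one (α := ℝ)) (by
      intro t ht
      set z := x + t • (y - x) with hz
      have hzx : ‖z - x‖ ≤ s := by
        rw [hz, add_sub_cancel_left, norm_smul, hy, Real.norm_of_nonneg ht.1]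
        nlinarith [ht.2]
      have hzB : ‖z - x₀‖ < R₀ := by
        calc ‖z - x₀‖ = ‖(z - x) + (x - x₀)‖ := by congr 1; abel
          _ ≤ ‖z - x‖ + ‖x - x₀‖ := norm_add_le _ _
          _ < R₀ := by linarith
      have h1 : ∀ᶠ t' in 𝓝 t, ‖f (x + t' • (y - x)) - f z‖ ≤
          Real.exp (l z + C * s) * ‖x + t' • (y - x) - z‖ :=
        (hgc.tendsto t).eventually ((hI z hzB _ hCs).mono fun y hy => hy.1)
      have h2 : ∀ᶠ t' in 𝓝[>] t, ‖f (x + t' • (y - x)) - f z‖ ≤
          Real.exp (l z + C * s) * ‖x + t' • (y - x) - z‖ := h1.filter_mono nhdsWithin_le_nhds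
      filter_upwards [h2, self_mem_nhdsWithin] with t' ht' htt
      have e1 : x + t' • (y - x) - z = (t' - t) • (y - x) := by
        rw [hz, sub_smul]; abel
      have htt' : t < t' := htt
      rw [e1, norm_smul, hy, Real.norm_of_nonneg (by linarith)] at ht'
      have h3 := (abs_le.mp (hL z x)).2
      have h4 : Real.exp (l z + C * s) ≤ Real.exp (l x + 2 * (C * s)) :=
        Real.exp_le_exp.mpr (by nlinarith)
      calc _ ≤ _ := ht'
        _ ≤ Real.exp (l x + 2 * (C * s)) * ((t' - t) * s) :=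
          mul_le_mul_of_nonneg_right h4 (by nlinarith)
        _ = _ := by ring)
  simp only [zero_smul, add_zero, one_smul, add_sub_cancel, mul_one, mul_zero, sub_zero] at key
  exact key

theorem zp_confine (f : E ≃ₜ F) {l : E → ℝ} {C R₀ s : ℝ} {x₀ x y : E} (hC : 0 < C)
    (hL : ∀ x y, |l x - l y| ≤ C * ‖x - y‖) (hI : ∀ x, ‖x - x₀‖ < R₀ → Infin f l x)
    (hs : 0 < s) (hy : ‖y - x‖ = s) (hx : ‖x - x₀‖ + 2 * s < R₀)
    (hK : Real.exp (5 * (C * s)) ≤ 2) {θ : ℝ} (hθ : θ ∈ Icc (0 : ℝ) 1) :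
    ‖zp f x y θ - x‖ ≤ θ * (Real.exp (5 * (C * s)) * s) := by
  have hCs : 0 < C * s := by positivity
  have hD := upper_crude f hC hL hI hs hy (by linarith)
  set K := Real.exp (5 * (C * s)) with hKdef
  set S : Set ℝ := {θ | ‖zp f x y θ - x‖ ≤ θ * (K * s)} with hS
  have hclosed : IsClosed S := by
    apply isClosed_le
    · exact ((continuous_zp f x y).sub continuous_const).norm
    · fun_prop
  have h0 : (0 : ℝ) ∈ S := by simp [hS, zp_zero]
  have hsub : Icc (0 : ℝ) 1 ⊆ S := by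
    apply IsClosed.Icc_subset_of_forall_exists_gt (hclosed.inter isClosed_Icc) h0
    rintro t ⟨hts, ht0, ht1⟩ y' hy'
    have hts' : ‖zp f x y t - x‖ ≤ t * (K * s) := hts
    have hb : ‖zp f x y t - x‖ ≤ 2 * s := by
      have h1 : K * s ≤ 2 * s := mul_le_mul_of_nonneg_right hK hs.le
      have h2 : 0 ≤ K * s := by positivity
      nlinarith
    have hB : ‖zp f x y t - x₀‖ < R₀ := by
      calc ‖zp f x y t - x₀‖ = ‖(zp f x y t - x) + (x - x₀)‖ := by congr 1; abel
        _ ≤ ‖zp f x y t - x‖ + ‖x - x₀‖ := norm_add_le _ _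
        _ < R₀ := by linarith
    have hev : ∀ᶠ t' in 𝓝[>] t, ‖zp f x y t' - zp f x y t‖ ≤
        Real.exp (-l (zp f x y t) + C * s) * (|t' - t| * ‖f y - f x‖) :=
      (zp_speed f x y t (hI _ hB) hCs).filter_mono nhdsWithin_le_nhds
    have hev3 : ∀ᶠ t' in 𝓝[>] t, t' ∈ Ioc t y' := Ioc_mem_nhdsGT hy'
    obtain ⟨t', h1, h2⟩ := (hev.and hev3).exists
    refine ⟨t', ?_, h2⟩
    have h3 := (abs_le.mp (hL (zp f x y t) x)).1
    have h4 : Real.exp (-l (zp f x y t) + C * s) ≤ Real.exp (-l x + 3 * (C * s)) :=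
      Real.exp_le_exp.mpr (by nlinarith)
    have htt : 0 ≤ t' - t := by linarith [h2.1]
    rw [abs_of_nonneg htt] at h1
    have h5 : Real.exp (-l x + 3 * (C * s)) * Real.exp (l x + 2 * (C * s)) = K := by
      rw [hKdef, ← Real.exp_add]; congr 1; ring
    have h6 : ‖zp f x y t' - zp f x y t‖ ≤ (t' - t) * (K * s) := by
      calc _ ≤ _ := h1
        _ ≤ Real.exp (-l x + 3 * (C * s)) * ((t' - t) * (Real.exp (l x + 2 * (C * s)) * s)) :=
          mul_le_mul h4 (mul_le_mul_of_nonneg_left hD htt)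
            (mul_nonneg htt (norm_nonneg _)) (Real.exp_nonneg _)
        _ = (t' - t) * ((Real.exp (-l x + 3 * (C * s)) * Real.exp (l x + 2 * (C * s))) * s) := by
          ring
        _ = _ := by rw [h5]
    change ‖zp f x y t' - x‖ ≤ t' * (K * s)
    calc ‖zp f x y t' - x‖ = ‖(zp f x y t' - zp f x y t) + (zp f x y t - x)‖ := by
          congr 1; abel
      _ ≤ _ := norm_add_le _ _
      _ ≤ (t' - t) * (K * s) + t * (K * s) := add_le_add h6 hts'
      _ = _ := by ring
  exact hsub hθ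

theorem zp_ball (f : E ≃ₜ F) {l : E → ℝ} {C R₀ s : ℝ} {x₀ x y : E} (hC : 0 < C)
    (hL : ∀ x y, |l x - l y| ≤ C * ‖x - y‖) (hI : ∀ x, ‖x - x₀‖ < R₀ → Infin f l x)
    (hs : 0 < s) (hy : ‖y - x‖ = s) (hx : ‖x - x₀‖ + 2 * s < R₀)
    (hK : Real.exp (5 * (C * s)) ≤ 2) {θ : ℝ} (hθ : θ ∈ Icc (0 : ℝ) 1) :
    ‖zp f x y θ - x‖ ≤ 2 * s ∧ ‖zp f x y θ - x₀‖ < R₀ := by
  have h1 := zp_confine f hC hL hI hs hy hx hK hθ
  have hb : ‖zp f x y θ - x‖ ≤ 2 * s := by
    have h1' : Real.exp (5 * (C * s)) * s ≤ 2 * s := mul_le_mul_of_nonneg_right hK hs.le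
    have h2 : 0 ≤ Real.exp (5 * (C * s)) * s := by positivity
    nlinarith [hθ.1, hθ.2]
  refine ⟨hb, ?_⟩
  calc ‖zp f x y θ - x₀‖ = ‖(zp f x y θ - x) + (x - x₀)‖ := by congr 1; abel
    _ ≤ ‖zp f x y θ - x‖ + ‖x - x₀‖ := norm_add_le _ _
    _ < R₀ := by linarith

theorem zp_confine2 (f : E ≃ₜ F) {l : E → ℝ} {C R₀ s : ℝ} {x₀ x y : E} (hC : 0 < C)
    (hL : ∀ x y, |l x - l y| ≤ C * ‖x - y‖) (hI : ∀ x, ‖x - x₀‖ < R₀ → Infin f l x)
    (hs : 0 < s) (hy : ‖y - x‖ = s) (hx : ‖x - x₀‖ + 2 * s < R₀)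
    (hK : Real.exp (5 * (C * s)) ≤ 2) {θ : ℝ} (hθ : θ ∈ Icc (0 : ℝ) 1) :
    ‖y - zp f x y θ‖ ≤ (1 - θ) * (Real.exp (5 * (C * s)) * s) := by
  have hCs : 0 < C * s := by positivity
  have hD := upper_crude f hC hL hI hs hy (by linarith)
  set K := Real.exp (5 * (C * s)) with hKdef
  have h5 : Real.exp (-l x + 3 * (C * s)) * Real.exp (l x + 2 * (C * s)) = K := by
    rw [hKdef, ← Real.exp_add]; congr 1; ring
  have key := gm (g := zp f x y) (G := fun t : ℝ => K * s * t) (continuous_zp f x y)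
    (by fun_prop) hθ.2 (by
      intro t ht
      obtain ⟨hb1, hb2⟩ := zp_ball f hC hL hI hs hy hx hK
        (show t ∈ Icc (0 : ℝ) 1 from ⟨hθ.1.trans ht.1, ht.2.le⟩)
      have hev : ∀ᶠ t' in 𝓝[>] t, ‖zp f x y t' - zp f x y t‖ ≤
          Real.exp (-l (zp f x y t) + C * s) * (|t' - t| * ‖f y - f x‖) :=
        (zp_speed f x y t (hI _ hb2) hCs).filter_mono nhdsWithin_le_nhds
      filter_upwards [hev, self_mem_nhdsWithin] with t' h1 h2
      have h2' : t < t' := h2
      have h3 := (abs_le.mp (hL (zp f x y t) x)).1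
      have h4 : Real.exp (-l (zp f x y t) + C * s) ≤ Real.exp (-l x + 3 * (C * s)) :=
        Real.exp_le_exp.mpr (by nlinarith)
      have htt : 0 ≤ t' - t := by linarith
      rw [abs_of_nonneg htt] at h1
      calc _ ≤ _ := h1
        _ ≤ Real.exp (-l x + 3 * (C * s)) * ((t' - t) * (Real.exp (l x + 2 * (C * s)) * s)) :=
          mul_le_mul h4 (mul_le_mul_of_nonneg_left hD htt)
            (mul_nonneg htt (norm_nonneg _)) (Real.exp_nonneg _)
        _ = (t' - t) * ((Real.exp (-l x + 3 * (C * s)) * Real.exp (l x + 2 * (C * s))) * s) := by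
          ring
        _ = _ := by rw [h5]; ring)
  rw [zp_one] at key
  calc _ ≤ _ := key
    _ = _ := by ring

/-- the pulled back path stays close to the segment -/
theorem zp_close (f : E ≃ₜ F) {l : E → ℝ} {C R₀ s w : ℝ} {x₀ x y : E} (hC : 0 < C)
    (hL : ∀ x y, |l x - l y| ≤ C * ‖x - y‖) (hI : ∀ x, ‖x - x₀‖ < R₀ → Infin f l x)
    (hs : 0 < s) (hy : ‖y - x‖ = s) (hx : ‖x - x₀‖ + 2 * s < R₀)
    (hK : Real.exp (5 * (C * s)) ≤ 2) (hw : 0 ≤ w)
    (hw2 : s ^ 2 * (Real.exp (5 * (C * s)) ^ 2 - 1) / 4 ≤ w ^ 2)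
    {θ : ℝ} (hθ : θ ∈ Icc (0 : ℝ) 1) :
    ‖(zp f x y θ - x) - θ • (y - x)‖ ≤ w := by
  have h1 := zp_confine f hC hL hI hs hy hx hK hθ
  have h2 := zp_confine2 f hC hL hI hs hy hx hK hθ
  have e1 : ‖(zp f x y θ - x) - (y - x)‖ ≤ (1 - θ) * Real.exp (5 * (C * s)) * s := by
    rw [sub_sub_sub_cancel_right, norm_sub_rev]; linarith
  have hK1 : 1 ≤ Real.exp (5 * (C * s)) := Real.one_le_exp (by positivity)
  rcases apollonius hθ.1 hθ.2 (Real.exp_nonneg _) hy (by linarith) e1 with h | h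
  · exact abs_le_of_sq_le_sq' (h.trans hw2) hw |>.2
  · linarith

/-- chord versus conformal length: lower bound for the chord -/
theorem chord_lower (f : E ≃ₜ F) {l : E → ℝ} {C R₀ s w : ℝ} {x₀ x e : E} (hC : 0 < C)
    (hL : ∀ x y, |l x - l y| ≤ C * ‖x - y‖) (hI : ∀ x, ‖x - x₀‖ < R₀ → Infin f l x)
    (he : ‖e‖ = 1) (hs : 0 < s) (hx : ‖x - x₀‖ + 2 * s < R₀)
    (hK : Real.exp (5 * (C * s)) ≤ 2) (hw : 0 < w)
    (hw2 : s ^ 2 * (Real.exp (5 * (C * s)) ^ 2 - 1) / 4 ≤ w ^ 2)
    {G : ℝ → ℝ} (hG : ∀ t, HasDerivAt G (Real.exp (l (x + t • e))) t) :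
    G s - G 0 ≤ Real.exp (2 * (C * w)) * ‖f (x + s • e) - f x‖ := by
  set y := x + s • e with hydef
  have hyx : y - x = s • e := by rw [hydef, add_sub_cancel_left]
  have hy : ‖y - x‖ = s := by
    rw [hyx, norm_smul, he, mul_one, Real.norm_of_nonneg hs.le]
  have hCw : 0 < C * w := by positivity
  have hGc : Continuous G := continuous_iff_continuousAt.mpr fun t => (hG t).continuousAt
  set p : ℝ → ℝ := fun θ => inner ℝ (zp f x y θ - x) e with hp
  have hpc : Continuous p := by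
    rw [hp]
    exact ((continuous_zp f x y).sub continuous_const).inner continuous_const
  have key := gm (g := fun θ => G (p θ))
    (G := fun θ => Real.exp (2 * (C * w)) * ‖f y - f x‖ * θ) (hGc.comp hpc)
    (by fun_prop) (zero_le_one (α := ℝ)) (by
      intro t ht
      have htI : t ∈ Icc (0 : ℝ) 1 := ⟨ht.1, ht.2.le⟩
      obtain ⟨hb1, hb2⟩ := zp_ball f hC hL hI hs hy hx hK htI
      have hcl := zp_close f hC hL hI hs hy hx hK hw.le hw2 htI
      -- distance to the projection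
      have hproj : ‖zp f x y t - (x + p t • e)‖ ≤ w := by
        set a := zp f x y t - x with ha
        have e1 : zp f x y t - (x + p t • e) = a - p t • e := by rw [ha]; abel
        rw [e1]
        have e2 : ‖a - p t • e‖ ^ 2 = ‖a‖ ^ 2 - p t ^ 2 := by
          rw [norm_sub_sq_real, inner_smul_right, norm_smul, he, mul_one, Real.norm_eq_abs,
            sq_abs]
          have : inner ℝ a e = p t := rfl
          rw [this]; ring
        have e3 : ‖a - t • (y - x)‖ ^ 2 = ‖a‖ ^ 2 - 2 * (t * s * p t) + (t * s) ^ 2 := by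
          rw [hyx, smul_smul, norm_sub_sq_real, inner_smul_right, norm_smul, he, mul_one,
            Real.norm_eq_abs, sq_abs]
        have e4 : ‖a - p t • e‖ ^ 2 ≤ ‖a - t • (y - x)‖ ^ 2 := by
          rw [e2, e3]; nlinarith [sq_nonneg (t * s - p t)]
        have e5 : ‖a - p t • e‖ ≤ ‖a - t • (y - x)‖ :=
          abs_le_of_sq_le_sq' e4 (norm_nonneg _) |>.2
        exact e5.trans hcl
      -- derivative of G at p t
      have hG1 : ∀ᶠ u in 𝓝 (p t), |G u - G (p t)| ≤
          Real.exp (l (x + p t • e) + C * w / 2) * |u - p t| := by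
        have h1 := (hasDerivAt_iff_isLittleO.mp (hG (p t)))
        have hpos : 0 < Real.exp (l (x + p t • e) + C * w / 2) - Real.exp (l (x + p t • e)) := by
          rw [sub_pos]; exact Real.exp_lt_exp.mpr (by linarith)
        filter_upwards [h1.def hpos] with u hu
        rw [Real.norm_eq_abs, Real.norm_eq_abs, smul_eq_mul] at hu
        have h2 : |G u - G (p t)| ≤ |G u - G (p t) - (u - p t) * Real.exp (l (x + p t • e))| +
            |(u - p t) * Real.exp (l (x + p t • e))| := by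
          have := abs_add_le (G u - G (p t) - (u - p t) * Real.exp (l (x + p t • e)))
            ((u - p t) * Real.exp (l (x + p t • e)))
          rwa [sub_add_cancel] at this
        rw [abs_mul, abs_of_pos (Real.exp_pos _)] at h2
        nlinarith
      have hG2 : ∀ᶠ t' in 𝓝[>] t, |G (p t') - G (p t)| ≤
          Real.exp (l (x + p t • e) + C * w / 2) * |p t' - p t| :=
        ((hpc.tendsto t).eventually hG1).filter_mono nhdsWithin_le_nhds
      have hev : ∀ᶠ t' in 𝓝[>] t, ‖zp f x y t' - zp f x y t‖ ≤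
          Real.exp (-l (zp f x y t) + C * w / 2) * (|t' - t| * ‖f y - f x‖) :=
        (zp_speed f x y t (hI _ hb2) (by positivity)).filter_mono nhdsWithin_le_nhds
      filter_upwards [hG2, hev, self_mem_nhdsWithin] with t' h1 h2 h3
      have h3' : t < t' := h3
      have htt : 0 ≤ t' - t := by linarith
      rw [abs_of_nonneg htt] at h2
      have h4 : |p t' - p t| ≤ ‖zp f x y t' - zp f x y t‖ := by
        have e1 : p t' - p t = inner ℝ (zp f x y t' - zp f x y t) e := by
          rw [hp]; simp only; rw [← inner_sub_left]; congr 1; abel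
        rw [e1]
        calc |inner ℝ (zp f x y t' - zp f x y t) e| ≤ ‖zp f x y t' - zp f x y t‖ * ‖e‖ :=
              abs_real_inner_le_norm _ _
          _ = _ := by rw [he, mul_one]
      have h5 := (abs_le.mp (hL (zp f x y t) (x + p t • e))).1
      have h6 : C * ‖zp f x y t - (x + p t • e)‖ ≤ C * w := mul_le_mul_of_nonneg_left hproj hC.le
      have h7 : Real.exp (l (x + p t • e) + C * w / 2) * Real.exp (-l (zp f x y t) + C * w / 2) ≤
          Real.exp (2 * (C * w)) := by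
        rw [← Real.exp_add]; exact Real.exp_le_exp.mpr (by linarith)
      rw [Real.norm_eq_abs]
      calc |G (p t') - G (p t)| ≤ Real.exp (l (x + p t • e) + C * w / 2) * |p t' - p t| := h1
        _ ≤ Real.exp (l (x + p t • e) + C * w / 2) *
            (Real.exp (-l (zp f x y t) + C * w / 2) * ((t' - t) * ‖f y - f x‖)) :=
          mul_le_mul_of_nonneg_left (h4.trans h2) (Real.exp_nonneg _)
        _ = (Real.exp (l (x + p t • e) + C * w / 2) * Real.exp (-l (zp f x y t) + C * w / 2)) *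
            ((t' - t) * ‖f y - f x‖) := by ring
        _ ≤ Real.exp (2 * (C * w)) * ((t' - t) * ‖f y - f x‖) :=
          mul_le_mul_of_nonneg_right h7 (mul_nonneg htt (norm_nonneg _))
        _ = _ := by ring)
  have p0 : p 0 = 0 := by simp [hp, zp_zero]
  have p1 : p 1 = s := by
    simp only [hp, zp_one]
    rw [hyx, inner_smul_left, real_inner_self_eq_norm_sq, he]; simp
  simp only [p0, p1, mul_one, mul_zero, sub_zero] at key
  exact (le_abs_self _).trans key

/-- chord versus conformal length: upper bound for the chord -/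
theorem chord_upper (f : E ≃ₜ F) {l : E → ℝ} {R₀ s ε : ℝ} {x₀ x e : E}
    (hI : ∀ x, ‖x - x₀‖ < R₀ → Infin f l x)
    (he : ‖e‖ = 1) (hs : 0 < s) (hx : ‖x - x₀‖ + s < R₀) (hε : 0 < ε)
    {G : ℝ → ℝ} (hG : ∀ t, HasDerivAt G (Real.exp (l (x + t • e))) t) :
    ‖f (x + s • e) - f x‖ ≤ Real.exp ε * (G s - G 0) := by
  have hGc : Continuous G := continuous_iff_continuousAt.mpr fun t => (hG t).continuousAt
  have hgc : Continuous (fun t : ℝ => x + t • e) := by fun_prop
  have key := gm (g := fun t : ℝ => f (x + t • e)) (G := fun t : ℝ => Real.exp ε * G t)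
    (f.continuous.comp hgc) (by fun_prop) hs.le (by
      intro t ht
      set z := x + t • e with hz
      have hzx : ‖z - x‖ ≤ s := by
        rw [hz, add_sub_cancel_left, norm_smul, he, Real.norm_of_nonneg ht.1]
        linarith [ht.2]
      have hzB : ‖z - x₀‖ < R₀ := by
        calc ‖z - x₀‖ = ‖(z - x) + (x - x₀)‖ := by congr 1; abel
          _ ≤ ‖z - x‖ + ‖x - x₀‖ := norm_add_le _ _
          _ < R₀ := by linarith
      have h1 : ∀ᶠ t' in 𝓝[>] t, ‖f (x + t' • e) - f z‖ ≤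
          Real.exp (l z + ε / 2) * ‖x + t' • e - z‖ :=
        ((hgc.tendsto t).eventually ((hI z hzB _ (half_pos hε)).mono
          fun y hy => hy.1)).filter_mono nhdsWithin_le_nhds
      have hpos : 0 < Real.exp (l z) - Real.exp (l z - ε / 2) := by
        rw [sub_pos]; exact Real.exp_lt_exp.mpr (by linarith)
      have h2 : ∀ᶠ t' in 𝓝[>] t, ‖G t' - G t - (t' - t) • Real.exp (l z)‖ ≤
          (Real.exp (l z) - Real.exp (l z - ε / 2)) * ‖t' - t‖ :=
        ((hasDerivAt_iff_isLittleO.mp (hG t)).def hpos).filter_mono nhdsWithin_le_nhds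
      filter_upwards [h1, h2, self_mem_nhdsWithin] with t' h1 h2 h3
      have h3' : t < t' := h3
      have htt : 0 ≤ t' - t := by linarith
      have e1 : x + t' • e - z = (t' - t) • e := by rw [hz, sub_smul]; abel
      rw [e1, norm_smul, he, mul_one, Real.norm_of_nonneg htt] at h1
      rw [Real.norm_eq_abs, Real.norm_of_nonneg htt, smul_eq_mul] at h2
      have h4 := (abs_le.mp h2).1
      have h5 : Real.exp (l z - ε / 2) * (t' - t) ≤ G t' - G t := by nlinarith
      have h6 : Real.exp (l z + ε / 2) = Real.exp ε * Real.exp (l z - ε / 2) := by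
        rw [← Real.exp_add]; congr 1; ring
      calc ‖f (x + t' • e) - f z‖ ≤ Real.exp (l z + ε / 2) * (t' - t) := h1
        _ = Real.exp ε * (Real.exp (l z - ε / 2) * (t' - t)) := by rw [h6]; ring
        _ ≤ Real.exp ε * (G t' - G t) := mul_le_mul_of_nonneg_left h5 (Real.exp_nonneg _)
        _ = _ := by ring)
  simp only [zero_smul, add_zero] at key
  rw [mul_sub]
  exact key

end Pool.Agent.Helper137_QC
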