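import Pool.Agent.Helper137_QC.S2

set_option autoImplicit false
set_option linter.unusedSectionVars false

namespace Pool.Agent.Helper137_QC

open Filter Topology Set

variable {E F : Type*} [NormedAddCommGroup E] [InnerProductSpace ℝ E]
  [NormedAddCommGroup F] [NormedSpace ℝ F]

/-- pointwise distortion `1 + o(r)` at `x` -/
def LittleO (f : E → F) (x : E) : Prop := ∀ η : ℝ, 0 < η → ∃ δ : ℝ, 0 < δ ∧ RoundAt f η δ x

theorem second_diff (f : E ≃ₜ F) {l : E → ℝ} {C R₀ : ℝ} {x₀ p e : E} (hC : 0 < C)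
    (hL : ∀ x y, |l x - l y| ≤ C * ‖x - y‖) (hI : ∀ x, ‖x - x₀‖ < R₀ → Infin f l x)
    (he : ‖e‖ = 1) {G : ℝ → ℝ} (hG : ∀ t, HasDerivAt G (Real.exp (l (p + t • e))) t) {t : ℝ}
    (hx : ‖p + t • e - x₀‖ < R₀) (hr : LittleO f (p + t • e)) {η : ℝ} (hη : 0 < η) :
    ∃ ε, 0 < ε ∧ ∀ s, 0 < s → s < ε → |G (t + s) + G (t - s) - 2 * G t| ≤ η * s ^ 2 := by
  set x := p + t • e with hxdef
  set M := Real.exp (l x + 1) with hM
  have hMpos : 0 < M := Real.exp_pos _
  set c := η / (12 * C * M) with hc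
  have hcpos : 0 < c := by positivity
  set η₁ := η / (4 * M) with hη₁
  have hη₁pos : 0 < η₁ := by positivity
  obtain ⟨δ, hδ, hround⟩ := hr η₁ hη₁pos
  have c1 : ∀ᶠ s : ℝ in 𝓝 0, ‖x - x₀‖ + 2 * s < R₀ := by
    have : Continuous (fun s : ℝ => ‖x - x₀‖ + 2 * s) := by fun_prop
    exact (this.tendsto 0).eventually (gt_mem_nhds (by simpa using hx))
  have c2 : ∀ᶠ s : ℝ in 𝓝 0, Real.exp (5 * (C * s)) < 2 := by
    have : Continuous (fun s : ℝ => Real.exp (5 * (C * s))) := by fun_prop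
    exact (this.tendsto 0).eventually (gt_mem_nhds (by simp))
  have c3 : ∀ᶠ s : ℝ in 𝓝 0, (Real.exp (5 * (C * s)) ^ 2 - 1) / 4 < c ^ 2 := by
    have : Continuous (fun s : ℝ => (Real.exp (5 * (C * s)) ^ 2 - 1) / 4) := by fun_prop
    exact (this.tendsto 0).eventually (gt_mem_nhds (by simp; positivity))
  have c4 : ∀ᶠ s : ℝ in 𝓝 0, (3 * C * c + η₁) * s < 1 := by
    have : Continuous (fun s : ℝ => (3 * C * c + η₁) * s) := by fun_prop
    exact (this.tendsto 0).eventually (gt_mem_nhds (by simp))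
  have c5 : ∀ᶠ s : ℝ in 𝓝 0, 2 * (C * (c * s)) + 2 * (C * s) < 1 := by
    have : Continuous (fun s : ℝ => 2 * (C * (c * s)) + 2 * (C * s)) := by fun_prop
    exact (this.tendsto 0).eventually (gt_mem_nhds (by simp))
  have c6 : ∀ᶠ s : ℝ in 𝓝 0, s < δ := gt_mem_nhds hδ
  obtain ⟨ε, hε, hall⟩ := Metric.eventually_nhds_iff.mp
    (c1.and (c2.and (c3.and (c4.and (c5.and c6)))))
  refine ⟨ε, hε, fun s hs hsε => ?_⟩
  obtain ⟨a1, a2, a3, a4, a5, a6⟩ := hall (show dist s 0 < ε by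
    rw [Real.dist_eq, sub_zero, abs_of_pos hs]; exact hsε)
  set w := c * s with hw
  have hwpos : 0 < w := by positivity
  have hw2 : s ^ 2 * (Real.exp (5 * (C * s)) ^ 2 - 1) / 4 ≤ w ^ 2 := by
    have : s ^ 2 * ((Real.exp (5 * (C * s)) ^ 2 - 1) / 4) ≤ s ^ 2 * c ^ 2 :=
      mul_le_mul_of_nonneg_left a3.le (sq_nonneg _)
    rw [hw]; nlinarith
  have hne : ‖-e‖ = 1 := by rw [norm_neg, he]
  -- forward and backward primitives
  have hGp : ∀ u, HasDerivAt (fun u => G (t + u)) (Real.exp (l (x + u • e))) u := by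
    intro u
    have h1 := (hG (t + u)).comp_const_add t u
    have e1 : p + (t + u) • e = x + u • e := by rw [hxdef, add_smul, ← add_assoc]
    rwa [e1] at h1
  have hGm : ∀ u, HasDerivAt (fun u => -G (t - u)) (Real.exp (l (x + u • (-e)))) u := by
    intro u
    have h1 := ((hG (t - u)).comp_const_sub t u).neg
    have e1 : p + (t - u) • e = x + u • (-e) := by
      rw [hxdef, sub_smul, smul_neg]; abel
    rw [e1, neg_neg] at h1
    exact h1
  have P1 := chord_lower f hC hL hI he hs a1 a2.le hwpos hw2 hGp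
  have Q1 := chord_lower f hC hL hI hne hs a1 a2.le hwpos hw2 hGm
  have hCw : 0 < C * w := by positivity
  have P2 := chord_upper f hI he hs (by linarith) hCw hGp
  have Q2 := chord_upper f hI hne hs (by linarith) hCw hGm
  have np : ‖x + s • e - x‖ = s := by
    rw [add_sub_cancel_left, norm_smul, he, mul_one, Real.norm_of_nonneg hs.le]
  have nm : ‖x + s • (-e) - x‖ = s := by
    rw [add_sub_cancel_left, norm_smul, hne, mul_one, Real.norm_of_nonneg hs.le]
  have Dp := upper_crude f hC hL hI hs np (by linarith)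
  have Dm := upper_crude f hC hL hI hs nm (by linarith)
  have r1 := hround (x + s • e) (x + s • (-e)) (by rw [np, nm]) (by rw [np]; exact a6)
  have r2 := hround (x + s • (-e)) (x + s • e) (by rw [np, nm]) (by rw [nm]; exact a6)
  rw [np] at r1
  rw [nm] at r2
  simp only [add_zero, sub_zero] at P1 Q1 P2 Q2
  set dp := ‖f (x + s • e) - f x‖ with hdp
  set dm := ‖f (x + s • (-e)) - f x‖ with hdm
  have hdp0 : 0 ≤ dp := norm_nonneg _
  have hdm0 : 0 ≤ dm := norm_nonneg _
  set P := G (t + s) - G t with hP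
  set Q := G t - G (t - s) with hQ
  have Q1' : Q ≤ Real.exp (2 * (C * w)) * dm := by
    rw [hQ]; linarith
  have Q2' : dm ≤ Real.exp (C * w) * Q := by
    rw [hQ]; convert Q2 using 2; ring
  have hP0 : 0 ≤ P := by
    have := Real.exp_pos (C * w)
    by_contra hneg
    push Not at hneg
    nlinarith
  have hQ0 : 0 ≤ Q := by
    have := Real.exp_pos (C * w)
    by_contra hneg
    push Not at hneg
    nlinarith
  set τ := (3 * C * c + η₁) * s with hτ
  have hτ0 : 0 ≤ τ := by positivity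
  have eτ : τ = 2 * (C * w) + η₁ * s + C * w := by rw [hτ, hw]; ring
  have m1 : ∀ a b A B : ℝ, 0 ≤ b → 0 ≤ B → A ≤ Real.exp (2 * (C * w)) * a →
      a ≤ (1 + η₁ * s) * b → b ≤ Real.exp (C * w) * B → A ≤ Real.exp τ * B := by
    intro a b A B hb hB hA hab hbB
    calc A ≤ Real.exp (2 * (C * w)) * a := hA
      _ ≤ Real.exp (2 * (C * w)) * (Real.exp (η₁ * s) * (Real.exp (C * w) * B)) := by
        apply mul_le_mul_of_nonneg_left _ (Real.exp_nonneg _)
        calc a ≤ (1 + η₁ * s) * b := hab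
          _ ≤ Real.exp (η₁ * s) * b := mul_le_mul_of_nonneg_right (one_add_le_exp _) hb
          _ ≤ _ := mul_le_mul_of_nonneg_left hbB (Real.exp_nonneg _)
      _ = Real.exp τ * B := by rw [eτ, Real.exp_add, Real.exp_add]; ring
  have PQ := m1 dp dm P Q hdm0 hQ0 P1 r1 Q2'
  have QP := m1 dm dp Q P hdp0 hP0 Q1' r2 P2
  have m2 : ∀ a A : ℝ, A ≤ Real.exp (2 * (C * w)) * a →
      a ≤ Real.exp (l x + 2 * (C * s)) * s → A ≤ M * s := by
    intro a A hA ha
    calc A ≤ Real.exp (2 * (C * w)) * a := hA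
      _ ≤ Real.exp (2 * (C * w)) * (Real.exp (l x + 2 * (C * s)) * s) :=
        mul_le_mul_of_nonneg_left ha (Real.exp_nonneg _)
      _ = Real.exp (2 * (C * w) + (l x + 2 * (C * s))) * s := by
        rw [Real.exp_add (2 * (C * w))]; ring
      _ ≤ M * s := by
        apply mul_le_mul_of_nonneg_right _ hs.le
        rw [hM]; exact Real.exp_le_exp.mpr (by linarith)
  have PM := m2 dp P P1 Dp
  have QM := m2 dm Q Q1' Dm
  have hexp : Real.exp τ - 1 ≤ 2 * τ := by
    have h1 := Real.abs_exp_sub_one_le (x := τ) (by rw [abs_of_nonneg hτ0]; exact a4.le)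
    rw [abs_of_nonneg hτ0] at h1
    exact (le_abs_self _).trans h1
  have hcM : C * c * M = η / 12 := by
    rw [hc]; field_simp
  have hηM : η₁ * M = η / 4 := by
    rw [hη₁]; field_simp
  have hfin : 2 * τ * (M * s) = η * s ^ 2 := by
    calc 2 * τ * (M * s) = (6 * (C * c * M) + 2 * (η₁ * M)) * s ^ 2 := by rw [hτ]; ring
      _ = _ := by rw [hcM, hηM]; ring
  have f1 : ∀ A B : ℝ, 0 ≤ B → A ≤ Real.exp τ * B → B ≤ M * s → A - B ≤ η * s ^ 2 := by
    intro A B hB hAB hBM
    calc A - B ≤ (Real.exp τ - 1) * B := by linarith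
      _ ≤ (2 * τ) * B := mul_le_mul_of_nonneg_right hexp hB
      _ ≤ (2 * τ) * (M * s) := mul_le_mul_of_nonneg_left hBM (by positivity)
      _ = _ := hfin
  have g1 := f1 P Q hQ0 PQ QM
  have g2 := f1 Q P hP0 QP PM
  have e5 : G (t + s) + G (t - s) - 2 * G t = P - Q := by rw [hP, hQ]; ring
  rw [e5, abs_le]
  constructor <;> linarith

theorem l_const (f : E ≃ₜ F) {l : E → ℝ} {C R₀ : ℝ} {x₀ : E} (hC : 0 < C)
    (hL : ∀ x y, |l x - l y| ≤ C * ‖x - y‖) (hI : ∀ x, ‖x - x₀‖ < R₀ → Infin f l x)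
    (hr : ∀ x, ‖x - x₀‖ < R₀ → LittleO f x) {x : E} (hx : ‖x - x₀‖ < R₀) : l x = l x₀ := by
  by_cases hxx : x = x₀
  · rw [hxx]
  have hT : 0 < ‖x - x₀‖ := norm_pos_iff.mpr (sub_ne_zero.mpr hxx)
  set T := ‖x - x₀‖ with hTdef
  set e : E := T⁻¹ • (x - x₀) with he
  have he1 : ‖e‖ = 1 := by
    rw [he, norm_smul, norm_inv, Real.norm_of_nonneg hT.le, ← hTdef]
    field_simp
  have hxe : x₀ + T • e = x := by
    rw [he, smul_smul, mul_inv_cancel₀ hT.ne', one_smul]; abel
  have hlc : Continuous l := by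
    apply LipschitzWith.continuous (K := Real.toNNReal C)
    apply LipschitzWith.of_dist_le_mul
    intro a b
    rw [Real.dist_eq, dist_eq_norm, Real.coe_toNNReal _ hC.le]
    exact hL a b
  have hic : Continuous (fun t : ℝ => Real.exp (l (x₀ + t • e))) :=
    Real.continuous_exp.comp (hlc.comp (by fun_prop))
  set G : ℝ → ℝ := fun t => ∫ u in (0 : ℝ)..t, Real.exp (l (x₀ + u • e)) with hGdef
  have hG : ∀ t, HasDerivAt G (Real.exp (l (x₀ + t • e))) t := fun t =>
    (hic.integral_hasStrictDerivAt 0 t).hasDerivAt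
  have hGc : Continuous G := continuous_iff_continuousAt.mpr fun t => (hG t).continuousAt
  have hlin : ∀ t ∈ Icc 0 T, G t = t * (G T / T) := by
    intro t ht
    refine schwarz hT hGc.continuousOn (by simp [hGdef]) ?_ ht.1 ht.2
    intro t ht0 htT η hη
    have hn : ‖x₀ + t • e - x₀‖ < R₀ := by
      rw [add_sub_cancel_left, norm_smul, he1, mul_one, Real.norm_of_nonneg ht0.le]
      linarith
    exact second_diff f hC hL hI he1 hG hn (hr _ hn) hη
  have hder : ∀ t ∈ Icc 0 T, Real.exp (l (x₀ + t • e)) = G T / T := by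
    intro t ht
    have h1 : HasDerivWithinAt G (Real.exp (l (x₀ + t • e))) (Icc 0 T) t :=
      (hG t).hasDerivWithinAt
    have h2 : HasDerivWithinAt G (G T / T) (Icc 0 T) t := by
      have h3 : HasDerivWithinAt (fun t : ℝ => t * (G T / T)) (G T / T) (Icc 0 T) t := by
        simpa using ((hasDerivAt_id t).mul_const (G T / T)).hasDerivWithinAt
      exact h3.congr hlin (hlin t ht)
    exact UniqueDiffWithinAt.eq_deriv _ (uniqueDiffOn_Icc hT t ht) h1 h2
  have h0 := hder 0 (left_mem_Icc.mpr hT.le)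
  have h1 := hder T (right_mem_Icc.mpr hT.le)
  rw [zero_smul, add_zero] at h0
  rw [hxe] at h1
  exact Real.exp_injective (h1.trans h0.symm)

theorem locSim_of_infin (f : E ≃ₜ F) {l : E → ℝ} {x₀ : E} {R : ℝ} (hR : 0 < R)
    (h : ∀ x, ‖x - x₀‖ < R → Infin f l x) (hl : ∀ x, ‖x - x₀‖ < R → l x = l x₀) :
    LocSim f x₀ := by
  have lim : ∀ (c A B : ℝ), (∀ ε : ℝ, 0 < ε → A ≤ Real.exp (c + ε) * B) → A ≤ Real.exp c * B := by
    intro c A B hAB
    have h1 : Tendsto (fun ε : ℝ => Real.exp (c + ε) * B) (𝓝[>] 0) (𝓝 (Real.exp c * B)) := by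
      have h2 : Continuous (fun ε : ℝ => Real.exp (c + ε) * B) := by fun_prop
      have := h2.tendsto 0
      simp only [add_zero] at this
      exact this.mono_left nhdsWithin_le_nhds
    exact ge_of_tendsto h1 (by filter_upwards [self_mem_nhdsWithin] with ε hε using hAB ε hε)
  have up : ∀ a b : E, ‖a - x₀‖ < R → ‖b - x₀‖ < R →
      ‖f b - f a‖ ≤ Real.exp (l x₀) * ‖b - a‖ := by
    intro a b ha hb
    apply lim
    intro ε hε
    apply lipschitz_segment f.continuous
    intro t ht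
    have hm : a + t • (b - a) ∈ Metric.ball x₀ R :=
      (convex_ball x₀ R).add_smul_sub_mem (by simpa [dist_eq_norm] using ha)
        (by simpa [dist_eq_norm] using hb) ht
    rw [Metric.mem_ball, dist_eq_norm] at hm
    have h1 := h _ hm ε hε
    rw [hl _ hm] at h1
    exact h1.mono fun y hy => hy.1
  obtain ⟨ε, hε, hε'⟩ := Metric.continuous_iff.mp f.symm.continuous (f x₀) R hR
  obtain ⟨r, hr, hr'⟩ := Metric.continuous_iff.mp f.continuous x₀ ε hε
  have low : ∀ u v : F, ‖u - f x₀‖ < ε → ‖v - f x₀‖ < ε →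
      ‖f.symm v - f.symm u‖ ≤ Real.exp (-l x₀) * ‖v - u‖ := by
    intro u v hu hv
    apply lim
    intro ε₁ hε₁
    apply lipschitz_segment f.symm.continuous
    intro t ht
    have hm : u + t • (v - u) ∈ Metric.ball (f x₀) ε :=
      (convex_ball (f x₀) ε).add_smul_sub_mem (by simpa [dist_eq_norm] using hu)
        (by simpa [dist_eq_norm] using hv) ht
    set w := u + t • (v - u) with hw
    have h1 := hε' w hm
    rw [f.symm_apply_apply, dist_eq_norm] at h1
    have h2 := (f.symm.continuous.tendsto w).eventually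
      ((h _ h1 ε₁ hε₁).mono fun y hy => hy.2)
    filter_upwards [h2] with w' hw'
    rw [f.apply_symm_apply, f.apply_symm_apply, hl _ h1] at hw'
    have e2 : Real.exp (-l x₀ + ε₁) * Real.exp (l x₀ - ε₁) = 1 := by
      rw [← Real.exp_add]; simp
    calc ‖f.symm w' - f.symm w‖ = Real.exp (-l x₀ + ε₁) *
          (Real.exp (l x₀ - ε₁) * ‖f.symm w' - f.symm w‖) := by rw [← mul_assoc, e2, one_mul]
      _ ≤ _ := mul_le_mul_of_nonneg_left hw' (Real.exp_nonneg _)
  refine ⟨Real.exp (l x₀), min r R, Real.exp_pos _, lt_min hr hR, fun a b ha hb => ?_⟩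
  have ha1 : ‖a - x₀‖ < R := ha.trans_le (min_le_right _ _)
  have hb1 : ‖b - x₀‖ < R := hb.trans_le (min_le_right _ _)
  have ha2 := hr' a (by rw [dist_eq_norm]; exact ha.trans_le (min_le_left _ _))
  have hb2 := hr' b (by rw [dist_eq_norm]; exact hb.trans_le (min_le_left _ _))
  rw [dist_eq_norm] at ha2 hb2
  apply le_antisymm (up b a hb1 ha1)
  have h3 := low (f b) (f a) hb2 ha2
  rw [f.symm_apply_apply, f.symm_apply_apply, Real.exp_neg, inv_mul_eq_div,
    le_div_iff₀ (Real.exp_pos _)] at h3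
  linarith

/-- The main local rigidity step. -/
theorem sc_locSim (f : E ≃ₜ F) {l : E → ℝ} {C R₀ : ℝ} {x₀ : E} (hC : 0 < C) (hR : 0 < R₀)
    (hL : ∀ x y, |l x - l y| ≤ C * ‖x - y‖) (hI : ∀ x, ‖x - x₀‖ < R₀ → Infin f l x)
    (hr : ∀ x, ‖x - x₀‖ < R₀ → LittleO f x) : LocSim f x₀ :=
  locSim_of_infin f hR hI fun _ hx => l_const f hC hL hI hr hx

end Pool.Agent.Helper137_QC
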