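import Pool.Agent.Helper137_QC.S3

set_option autoImplicit false
set_option linter.unusedSectionVars false

namespace Pool.Agent.Helper137_QC

open Filter Topology Set

section general

variable {E F : Type*} [NormedAddCommGroup E] [NormedSpace ℝ E]
  [NormedAddCommGroup F] [NormedSpace ℝ F]

theorem exists_limit' (f : E ≃ₜ F) {e : E} (he : ‖e‖ = 1) (x : E) {R₀ η₀ : ℝ} (hR₀ : 0 < R₀)
    (hη₀ : 0 ≤ η₀) (h₀ : BallRound f η₀ R₀ x) :
    ∃ l : ℝ, ∀ η R r : ℝ, 0 ≤ η → 0 < r → r ≤ R → BallRound f η R x →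
      |Lg f e x r - l| ≤ 7 * (η * r) := by
  set s : ℕ → ℝ := fun n => R₀ / ((n : ℝ) + 1) with hs
  have hspos : ∀ n, 0 < s n := fun n => by rw [hs]; positivity
  have hsanti : ∀ n m, n ≤ m → s m ≤ s n := by
    intro n m hnm
    have : (n : ℝ) ≤ m := by exact_mod_cast hnm
    exact div_le_div_of_nonneg_left hR₀.le (by positivity) (by linarith)
  have hs0 : ∀ n, s n ≤ R₀ := by
    intro n
    have := hsanti 0 n (Nat.zero_le n)
    simpa [hs] using this
  have hslim : Tendsto s atTop (𝓝 0) := by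
    have h1 : Tendsto (fun n : ℕ => (n : ℝ) + 1) atTop atTop :=
      tendsto_natCast_atTop_atTop.atTop_add tendsto_const_nhds
    exact h1.const_div_atTop R₀
  have hcau : CauchySeq (fun n => Lg f e x (s n)) := by
    apply cauchySeq_of_le_tendsto_0' (fun n => 7 * (η₀ * s n))
    · intro n m hnm
      obtain ⟨δ, hδ, hseg⟩ := h₀.seg he (hs0 n)
      have := Lg_compare f hη₀ he x (hspos m) (hsanti n m hnm) hδ hseg
      rw [dist_comm, Real.dist_eq]
      exact this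
    · have := (hslim.const_mul η₀).const_mul (7 : ℝ)
      simpa using this
  obtain ⟨l, hl⟩ := cauchySeq_tendsto_of_complete hcau
  refine ⟨l, fun η R r hη hr hrR hball => ?_⟩
  obtain ⟨δ, hδ, hseg⟩ := hball.seg he hrR
  have hlim : Tendsto (fun n => |Lg f e x r - Lg f e x (s n)|) atTop (𝓝 |Lg f e x r - l|) :=
    (tendsto_const_nhds.sub hl).abs
  refine le_of_tendsto hlim ?_
  have hev : ∀ᶠ n in atTop, s n < r := hslim.eventually (gt_mem_nhds hr)
  filter_upwards [hev] with n hn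
  rw [abs_sub_comm]
  exact Lg_compare f hη he x (hspos n) hn.le hδ hseg

/-- scaling function near a point of uniform `1 + O(r)` roundness -/
theorem exists_l [Nontrivial E] (f : E ≃ₜ F) {x₀ : E} {C δ : ℝ} (hC : 0 < C) (hδ : 0 < δ)
    (h : ∀ x, ‖x - x₀‖ < δ → RoundAt f C δ x) :
    ∃ (l : E → ℝ) (R : ℝ), 0 < R ∧ ∀ x, ‖x - x₀‖ < R → ∀ y, y ≠ x → ‖y - x‖ ≤ R →
      |Real.log (‖f y - f x‖ / ‖y - x‖) - l x| ≤ 8 * (C * ‖y - x‖) := by
  obtain ⟨e, he⟩ := exists_norm_eq E zero_le_one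
  have hball : ∀ x, ‖x - x₀‖ < δ / 3 → BallRound f C (δ / 3) x := by
    intro x hx
    refine ⟨δ, by linarith, fun y hy => h y ?_⟩
    calc ‖y - x₀‖ = ‖(y - x) + (x - x₀)‖ := by congr 1; abel
      _ ≤ ‖y - x‖ + ‖x - x₀‖ := norm_add_le _ _
      _ < δ := by linarith
  have hlim : ∀ x : E, ∃ l : ℝ, ‖x - x₀‖ < δ / 3 → ∀ η R r : ℝ, 0 ≤ η → 0 < r → r ≤ R →
      BallRound f η R x → |Lg f e x r - l| ≤ 7 * (η * r) := by
    intro x
    by_cases hx : ‖x - x₀‖ < δ / 3
    · obtain ⟨l, hl⟩ := exists_limit' f he x (by positivity : 0 < δ / 3) hC.le (hball x hx)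
      exact ⟨l, fun _ => hl⟩
    · exact ⟨0, fun hx' => absurd hx' hx⟩
  choose l hl using hlim
  exact ⟨l, δ / 3, by positivity, fun x hx y hyx hyR =>
    all_directions f he (hl x hx) hC.le (hball x hx) hyx hyR⟩

end general

variable {E F : Type*} [NormedAddCommGroup E] [InnerProductSpace ℝ E]
  [NormedAddCommGroup F] [NormedSpace ℝ F]

theorem infin_of_log (f : E ≃ₜ F) {l : E → ℝ} {x : E} {R C : ℝ} (hR : 0 < R) (hC : 0 < C)
    (h : ∀ y, y ≠ x → ‖y - x‖ ≤ R →
      |Real.log (‖f y - f x‖ / ‖y - x‖) - l x| ≤ C * ‖y - x‖) : Infin f l x := by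
  intro ε hε
  have h1 : ∀ᶠ y in 𝓝 x, ‖y - x‖ < R := by
    have : IsOpen {z : E | ‖z - x‖ < R} := isOpen_lt (by fun_prop) continuous_const
    exact this.mem_nhds (by simpa using hR)
  have h2 : ∀ᶠ y in 𝓝 x, C * ‖y - x‖ < ε := by
    have : IsOpen {z : E | C * ‖z - x‖ < ε} := isOpen_lt (by fun_prop) continuous_const
    exact this.mem_nhds (by simpa using hε)
  filter_upwards [h1, h2] with y h1 h2
  by_cases hyx : y = x
  · subst hyx; simp
  have h4 := h y hyx h1.le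
  rw [abs_le] at h4
  have hr : 0 < ‖y - x‖ := norm_pos_iff.mpr (sub_ne_zero.mpr hyx)
  have hf : 0 < ‖f y - f x‖ := norm_pos_iff.mpr (sub_ne_zero.mpr (f.injective.ne hyx))
  have hq : 0 < ‖f y - f x‖ / ‖y - x‖ := by positivity
  constructor
  · rw [← div_le_iff₀ hr, ← Real.log_le_iff_le_exp hq]; linarith [h4.2]
  · rw [← le_div_iff₀ hr, ← Real.le_log_iff_exp_le hq]; linarith [h4.1]

/-- Local rigidity from uniform `1 + O(r)` and pointwise `1 + o(r)`. -/
theorem locSim_of_uniform [Nontrivial E] (f : E ≃ₜ F) {x₀ : E} {C δ : ℝ} (hC : 0 < C)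
    (hδ : 0 < δ) (h : ∀ x, ‖x - x₀‖ < δ → RoundAt f C δ x)
    (hr : ∀ x, LittleO f x) : LocSim f x₀ := by
  obtain ⟨l, R, hR, hl⟩ := exists_l f hC hδ h
  have hlip : ∀ x y, ‖x - x₀‖ < R / 2 → ‖y - x₀‖ < R / 2 → |l x - l y| ≤ 16 * C * ‖x - y‖ := by
    intro x y hx hy
    by_cases hxy : x = y
    · subst hxy; simp
    have hxy' : ‖y - x‖ ≤ R := by
      calc ‖y - x‖ = ‖(y - x₀) - (x - x₀)‖ := by congr 1; abel
        _ ≤ ‖y - x₀‖ + ‖x - x₀‖ := norm_sub_le _ _
        _ ≤ R := by linarith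
    have h1 := hl x (by linarith) y (Ne.symm hxy) hxy'
    have h2 := hl y (by linarith) x hxy (by rw [norm_sub_rev]; exact hxy')
    rw [norm_sub_rev (f x), norm_sub_rev x y] at h2
    rw [norm_sub_rev x y]
    rw [abs_le] at h1 h2 ⊢
    constructor <;> linarith [h1.1, h1.2, h2.1, h2.2]
  have hK : 0 < 16 * C := by positivity
  have hLO : LipschitzOnWith (Real.toNNReal (16 * C)) l (Metric.ball x₀ (R / 2)) := by
    apply LipschitzOnWith.of_dist_le_mul
    intro x hx y hy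
    rw [Metric.mem_ball, dist_eq_norm] at hx hy
    rw [Real.dist_eq, dist_eq_norm, Real.coe_toNNReal _ hK.le]
    exact hlip x y hx hy
  obtain ⟨l', hl'L, hl'⟩ := hLO.extend_real
  have hL : ∀ x y, |l' x - l' y| ≤ 16 * C * ‖x - y‖ := by
    intro x y
    have := hl'L.dist_le_mul x y
    rwa [Real.dist_eq, dist_eq_norm, Real.coe_toNNReal _ hK.le] at this
  refine sc_locSim f (l := l') (R₀ := R / 2) hK (by positivity) hL ?_ (fun x _ => hr x)
  intro x hx
  apply infin_of_log f (R := R) (C := 8 * C) hR (by positivity)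
  intro y hyx hyR
  rw [← hl' (by rw [Metric.mem_ball, dist_eq_norm]; exact hx)]
  have := hl x (by linarith) y hyx hyR
  linarith

theorem main_uniform [CompleteSpace E] (f : E ≃ₜ F) (hr : ∀ x, LittleO f x)
    (h : ∀ x₀ : E, ∃ C δ : ℝ, 0 < δ ∧ ∀ x, ‖x - x₀‖ < δ → RoundAt f C δ x) :
    ∃ c : ℝ, 0 < c ∧ ∀ a b : E, ‖f a - f b‖ = c * ‖a - b‖ := by
  rcases subsingleton_or_nontrivial E with hE | hE
  · refine ⟨1, one_pos, fun a b => ?_⟩
    rw [Subsingleton.elim a b]; simp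
  · apply main f
    intro x₀ η hη
    obtain ⟨C, δ, hδ, hC⟩ := h x₀
    have hC' : ∀ x, ‖x - x₀‖ < δ → RoundAt f (|C| + 1) δ x := by
      intro x hx y z hyz hy
      have h1 := hC x hx y z hyz hy
      have h2 : C * ‖y - x‖ ≤ (|C| + 1) * ‖y - x‖ := by
        apply mul_le_mul_of_nonneg_right _ (norm_nonneg _)
        linarith [le_abs_self C]
      exact h1.trans (mul_le_mul_of_nonneg_right (by linarith) (norm_nonneg _))
    obtain ⟨c, ρ, hc, hρ, -, hrd⟩ := (locSim_of_uniform f (by positivity) hδ hC' hr).spec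
    refine ⟨ρ, hρ, fun x hx y z hyz hy => ?_⟩
    have h1 := hrd x hx y z hyz hy
    have h2 : 0 ≤ η * ‖y - x‖ := by positivity
    nlinarith [norm_nonneg (f z - f x)]

end Pool.Agent.Helper137_QC
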