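import Pool.Agent.Helper137_QC.S4

set_option autoImplicit false
set_option linter.unusedSectionVars false

namespace Pool.Agent.Helper137_QC

open Filter Topology Set

theorem isClosed_roundAt' {E F : Type*} [NormedAddCommGroup E] [NormedSpace ℝ E]
    [NormedAddCommGroup F] [NormedSpace ℝ F] {f : E → F} (hf : Continuous f) (η δ : ℝ) :
    IsClosed {x | RoundAt f η δ x} := by
  have : {x | RoundAt f η δ x} = ⋂ (u : E) (v : E) (_ : ‖u‖ = ‖v‖) (_ : ‖u‖ < δ),
      {x | ‖f (x + u) - f x‖ ≤ (1 + η * ‖u‖) * ‖f (x + v) - f x‖} := by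
    ext x
    simp only [mem_setOf_eq, mem_iInter]
    constructor
    · intro h u v huv hu
      have := h (x + u) (x + v) (by simpa using huv) (by simpa using hu)
      simpa using this
    · intro h y z hyz hy
      have := h (y - x) (z - x) hyz hy
      simpa using this
  rw [this]
  refine isClosed_iInter fun u => isClosed_iInter fun v => isClosed_iInter fun _ =>
    isClosed_iInter fun _ => isClosed_le ?_ ?_
  · exact ((hf.comp (by fun_prop)).sub hf).norm
  · exact continuous_const.mul ((hf.comp (by fun_prop)).sub hf).norm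

variable {E F : Type*} [NormedAddCommGroup E] [InnerProductSpace ℝ E]
  [NormedAddCommGroup F] [NormedSpace ℝ F]

theorem dense_locSim [CompleteSpace E] (f : E ≃ₜ F) (hr : ∀ x, LittleO f x) :
    Dense {x | LocSim f x} := by
  rcases subsingleton_or_nontrivial E with hE | hE
  · intro x
    apply subset_closure
    exact ⟨1, 1, one_pos, one_pos, fun a b _ _ => by rw [Subsingleton.elim a b]; simp⟩
  set B : ℕ → Set E := fun n => {y : E | RoundAt f 1 (1 / ((n : ℝ) + 1)) y} with hB
  have hBc : ∀ n, IsClosed (B n) := fun n => isClosed_roundAt' f.continuous _ _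
  have hBU : ⋃ n, B n = univ := by
    rw [eq_univ_iff_forall]
    intro y
    obtain ⟨δ, hδ, hy⟩ := hr y 1 one_pos
    obtain ⟨n, hn⟩ := exists_nat_one_div_lt hδ
    rw [mem_iUnion]
    exact ⟨n, fun u v huv hu => hy u v huv (hu.trans hn)⟩
  have hd := dense_iUnion_interior_of_closed hBc hBU
  refine hd.mono ?_
  intro x hx
  rw [mem_iUnion] at hx
  obtain ⟨n, hx⟩ := hx
  rw [mem_interior_iff_mem_nhds, Metric.mem_nhds_iff] at hx
  obtain ⟨ρ, hρ, hball⟩ := hx
  have hn : (0 : ℝ) < 1 / ((n : ℝ) + 1) := by positivity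
  apply locSim_of_uniform f (C := 1) (δ := min ρ (1 / ((n : ℝ) + 1))) one_pos
    (lt_min hρ hn) _ hr
  intro y hy u v huv hu
  have h1 : y ∈ Metric.ball x ρ := by
    rw [Metric.mem_ball, dist_eq_norm]; exact hy.trans_le (min_le_left _ _)
  exact hball h1 u v huv (hu.trans_le (min_le_right _ _))

end Pool.Agent.Helper137_QC
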