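import Pool.Agent.Helper137_QC.D

set_option autoImplicit false
set_option linter.unusedSectionVars false

namespace Pool.Agent.Helper137_QC

open Filter Topology Set

variable {E F : Type*} [NormedAddCommGroup E] [NormedSpace ℝ E]
  [NormedAddCommGroup F] [NormedSpace ℝ F]

/-- `lower` with two radii -/
theorem lower' (f : E ≃ₜ F) {δ δ' : ℝ} {e : E} (he : ‖e‖ = 1) {q p z y' : E}
    {s t : ℝ} (hs : 0 < s) (ht : 0 < t) (hst : s + t < δ) (hsδ : s < δ')
    (hq : RoundAt f 0 δ q) (hp : RoundAt f 0 δ' p) (hpq : ‖p - q‖ = t) (hz : ‖z - q‖ = s + t)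
    (hy : ‖y' - p‖ = s) :
    ‖f p - f q‖ + ‖f y' - f p‖ ≤ ‖f z - f q‖ := by
  have hne : f p ≠ f q := by
    intro h
    have := f.injective h
    subst this
    simp at hpq
    linarith
  have h0 : ‖f.symm (ray f p q 0) - p‖ ≤ s := by
    have : ray f p q 0 = f p := by simp [ray]
    rw [this, f.symm_apply_apply]; simp [hs.le]
  obtain ⟨μ₁, hμ₁, he₁⟩ := exit f le_rfl he hne hsδ hp le_rfl h0
  have h1 := hp y' (f.symm (ray f p q μ₁)) (by rw [hy, he₁]) (by rw [hy]; linarith)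
  rw [f.apply_symm_apply, norm_ray_sub_p f p q hne hμ₁, hy] at h1
  have h2 : ‖f.symm (ray f p q μ₁) - q‖ ≤ s + t := by
    calc ‖f.symm (ray f p q μ₁) - q‖ = ‖(f.symm (ray f p q μ₁) - p) + (p - q)‖ := by
          congr 1; abel
      _ ≤ ‖f.symm (ray f p q μ₁) - p‖ + ‖p - q‖ := norm_add_le _ _
      _ = s + t := by rw [he₁, hpq]
  obtain ⟨μ₂, hμ₂, he₂⟩ := exit f le_rfl he hne hst hq hμ₁ h2
  have h3 := hq (f.symm (ray f p q μ₂)) z (by rw [he₂, hz]) (by rw [he₂]; exact hst)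
  rw [f.apply_symm_apply, norm_ray_sub_q f p q hne (hμ₁.trans hμ₂), he₂] at h3
  linarith

/-- Points closer to `f A` than the image of the sphere of radius `r` come from inside. -/
theorem inside (f : E ≃ₜ F) {δ r : ℝ} {A y : E} (hA : RoundAt f 0 δ A) (hr : r < δ)
    (hr0 : 0 ≤ r) (hy : ‖y - A‖ = r) {w : F} (hw : ‖w - f A‖ < ‖f y - f A‖) :
    ‖f.symm w - A‖ < r := by
  by_contra hcon
  push Not at hcon
  set g : ℝ → ℝ := fun θ => ‖f.symm (f A + θ • (w - f A)) - A‖ with hg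
  have hgc : Continuous g := by
    rw [hg]
    exact ((f.symm.continuous.comp (by fun_prop)).sub continuous_const).norm
  have g0 : g 0 = 0 := by simp [hg]
  have g1 : g 1 = ‖f.symm w - A‖ := by simp [hg]
  obtain ⟨θ, hθ, hθr⟩ := intermediate_value_Icc (zero_le_one (α := ℝ)) hgc.continuousOn
    (show r ∈ Icc (g 0) (g 1) from ⟨by rw [g0]; exact hr0, by rw [g1]; exact hcon⟩)
  have h1 := hA y (f.symm (f A + θ • (w - f A))) (by rw [hy]; exact hθr.symm)
    (by rw [hy]; exact hr)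
  rw [f.apply_symm_apply, add_sub_cancel_left, norm_smul, Real.norm_of_nonneg hθ.1] at h1
  have h2 : θ * ‖w - f A‖ ≤ ‖w - f A‖ := mul_le_of_le_one_left (norm_nonneg _) hθ.2
  linarith

/-- Additivity on segments both of whose end points are round. -/
theorem two_ends (f : E ≃ₜ F) {δ r₁ r₂ : ℝ} {A C y₁ y₂ : E} (hA : RoundAt f 0 δ A)
    (hC : RoundAt f 0 δ C) (h1 : r₁ < δ) (h2 : r₂ < δ) (h10 : 0 < r₁) (h20 : 0 < r₂)
    (hy₁ : ‖y₁ - A‖ = r₁) (hy₂ : ‖y₂ - C‖ = r₂) (hr : r₁ + r₂ ≤ ‖A - C‖) :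
    ‖f y₁ - f A‖ + ‖f y₂ - f C‖ ≤ ‖f A - f C‖ := by
  by_contra hcon
  push Not at hcon
  have p1 : 0 < ‖f y₁ - f A‖ := by
    rw [norm_pos_iff, sub_ne_zero]
    intro h
    have := f.injective h
    subst this
    simp at hy₁; linarith
  have p2 : 0 < ‖f y₂ - f C‖ := by
    rw [norm_pos_iff, sub_ne_zero]
    intro h
    have := f.injective h
    subst this
    simp at hy₂; linarith
  set R₁ := ‖f y₁ - f A‖ with hR₁
  set R₂ := ‖f y₂ - f C‖ with hR₂
  have hsum : 0 < R₁ + R₂ := by positivity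
  set w : F := f A + (R₁ / (R₁ + R₂)) • (f C - f A) with hw
  have hw1 : ‖w - f A‖ < R₁ := by
    rw [hw, add_sub_cancel_left, norm_smul, Real.norm_of_nonneg (by positivity),
      norm_sub_rev (f C), div_mul_eq_mul_div, div_lt_iff₀ hsum]
    exact mul_lt_mul_of_pos_left hcon p1
  have hw2 : ‖w - f C‖ < R₂ := by
    have e1 : w - f C = (R₂ / (R₁ + R₂)) • (f A - f C) := by
      have : (R₂ / (R₁ + R₂)) = 1 - R₁ / (R₁ + R₂) := by field_simp; ring
      rw [this, hw, sub_smul, one_smul, smul_sub, smul_sub]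
      abel
    rw [e1, norm_smul, Real.norm_of_nonneg (by positivity), div_mul_eq_mul_div,
      div_lt_iff₀ hsum]
    exact mul_lt_mul_of_pos_left hcon p2
  have i1 := inside f hA h1 h10.le hy₁ hw1
  have i2 := inside f hC h2 h20.le hy₂ hw2
  have : ‖A - C‖ ≤ ‖f.symm w - A‖ + ‖f.symm w - C‖ := by
    calc ‖A - C‖ = ‖(f.symm w - C) - (f.symm w - A)‖ := by congr 1; abel
      _ ≤ ‖f.symm w - C‖ + ‖f.symm w - A‖ := norm_sub_le _ _
      _ = _ := add_comm _ _
  linarith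

/-- `f` is a similarity near `x` -/
def LocSim (f : E → F) (x : E) : Prop :=
  ∃ c ρ : ℝ, 0 < c ∧ 0 < ρ ∧ ∀ a b : E, ‖a - x‖ < ρ → ‖b - x‖ < ρ → ‖f a - f b‖ = c * ‖a - b‖

/-- maximum principle for locally midpoint-affine functions -/
theorem max_principle {h : ℝ → ℝ} {T : ℝ} (hc : ContinuousOn h (Icc 0 T))
    (hα : h 0 ≤ 0) (hβ : h T ≤ 0)
    (hs : ∀ t, 0 < t → t < T → ∃ ε, 0 < ε ∧ ∀ s, 0 < s → s < ε → h (t + s) + h (t - s) = 2 * h t)
    {t : ℝ} (ht0 : 0 ≤ t) (htT : t ≤ T) : h t ≤ 0 := by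
  by_contra hcon
  push Not at hcon
  obtain ⟨t₁, ht₁, hmax⟩ := isCompact_Icc.exists_isMaxOn ⟨t, ht0, htT⟩ hc
  have hM : 0 < h t₁ := hcon.trans_le (hmax ⟨ht0, htT⟩)
  set S : Set ℝ := Icc 0 T ∩ h ⁻¹' {h t₁} with hS
  have hSc : IsCompact S := by
    have h1 : IsClosed S := hc.preimage_isClosed_of_isClosed isClosed_Icc isClosed_singleton
    exact isCompact_Icc.of_isClosed_subset h1 inter_subset_left
  have hSne : S.Nonempty := ⟨t₁, ht₁, rfl⟩
  obtain ⟨hm1, hm2⟩ := hSc.sSup_mem hSne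
  set m := sSup S with hm
  have hm2' : h m = h t₁ := hm2
  have hm0 : 0 < m := by
    rcases hm1.1.lt_or_eq with h | h
    · exact h
    · rw [← h] at hm2'; linarith
  have hmT : m < T := by
    rcases hm1.2.lt_or_eq with h | h
    · exact h
    · rw [h] at hm2'; linarith
  obtain ⟨ε, hε, hε'⟩ := hs m hm0 hmT
  obtain ⟨s, hs0, hsm⟩ := exists_between (lt_min hε (lt_min hm0 (sub_pos.mpr hmT)))
  have hsε : s < ε := hsm.trans_le (min_le_left _ _)
  have hsm' : s < m := hsm.trans_le ((min_le_right _ _).trans (min_le_left _ _))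
  have hsT : s < T - m := hsm.trans_le ((min_le_right _ _).trans (min_le_right _ _))
  have h1 := hε' s hs0 hsε
  have h2 : h (m + s) ≤ h t₁ := hmax ⟨by linarith, by linarith⟩
  have h3 : h (m - s) ≤ h t₁ := hmax ⟨by linarith, by linarith⟩
  have h4 : h (m + s) = h t₁ := by linarith
  have h5 : m + s ∈ S := ⟨⟨by linarith, by linarith⟩, h4⟩
  have h6 : m + s ≤ m := le_csSup hSc.bddAbove h5
  linarith

theorem affine_of_midpoint {g : ℝ → ℝ} {T : ℝ} (hT : 0 < T) (hc : ContinuousOn g (Icc 0 T))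
    (h0 : g 0 = 0)
    (hs : ∀ t, 0 < t → t < T → ∃ ε, 0 < ε ∧ ∀ s, 0 < s → s < ε → g (t + s) + g (t - s) = 2 * g t)
    {t : ℝ} (ht0 : 0 ≤ t) (htT : t ≤ T) : g t = t * (g T / T) := by
  have hl : ContinuousOn (fun t : ℝ => t * (g T / T)) (Icc 0 T) := by fun_prop
  have a1 := max_principle (h := fun t => g t - t * (g T / T)) (hc.sub hl) (by simp [h0])
    (by field_simp; simp) (fun t h1 h2 => by
      obtain ⟨ε, hε, hε'⟩ := hs t h1 h2
      exact ⟨ε, hε, fun s h3 h4 => by have := hε' s h3 h4; linarith⟩) ht0 htT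
  have a2 := max_principle (h := fun t => t * (g T / T) - g t) (hl.sub hc) (by simp [h0])
    (by field_simp; simp) (fun t h1 h2 => by
      obtain ⟨ε, hε, hε'⟩ := hs t h1 h2
      exact ⟨ε, hε, fun s h3 h4 => by have := hε' s h3 h4; linarith⟩) ht0 htT

  linarith

end Pool.Agent.Helper137_QC
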