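import Pool.Agent.Helper137_QC.X1

set_option autoImplicit false
set_option linter.unusedSectionVars false

namespace Pool.Agent.Helper137_QC

open Filter Topology Set

variable {E F : Type*} [NormedAddCommGroup E] [NormedSpace ℝ E]
  [NormedAddCommGroup F] [NormedSpace ℝ F]

theorem RoundAt.eq {f : E → F} {δ : ℝ} {x y z : E} (h : RoundAt f 0 δ x)
    (hyz : ‖y - x‖ = ‖z - x‖) (hy : ‖y - x‖ < δ) : ‖f y - f x‖ = ‖f z - f x‖ := by
  have h1 := h y z hyz hy
  have h2 := h z y hyz.symm (by rw [← hyz]; exact hy)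
  apply le_antisymm <;> linarith

theorem LocSim.spec {f : E → F} {x : E} (h : LocSim f x) :
    ∃ c ρ : ℝ, 0 < c ∧ 0 < ρ ∧
      (∀ a b : E, ‖a - x‖ < ρ → ‖b - x‖ < ρ → ‖f a - f b‖ = c * ‖a - b‖) ∧
      ∀ y : E, ‖y - x‖ < ρ → RoundAt f 0 ρ y := by
  obtain ⟨c, ρ, hc, hρ, h⟩ := h
  refine ⟨c, ρ / 2, hc, by positivity, fun a b ha hb => h a b (by linarith) (by linarith), ?_⟩
  intro y hy u v huv hu
  have tri : ∀ w : E, ‖w - y‖ < ρ / 2 → ‖w - x‖ < ρ := by
    intro w hw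
    calc ‖w - x‖ = ‖(w - y) + (y - x)‖ := by congr 1; abel
      _ ≤ ‖w - y‖ + ‖y - x‖ := norm_add_le _ _
      _ < ρ := by linarith
  have h1 := h u y (tri u hu) (by linarith)
  have h2 := h v y (tri v (by rw [← huv]; exact hu)) (by linarith)
  rw [h1, h2, huv]
  simp

theorem add_right (f : E ≃ₜ F) {e : E} (he : ‖e‖ = 1) {A : E} {δ δ' t s : ℝ}
    (hA : RoundAt f 0 δ A) (ht : 0 < t) (hs : 0 < s) (hts : s + t < δ) (hsδ : s < δ')
    (hp : RoundAt f 0 δ' (A + t • e)) :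
    phi f e A (t + s) = phi f e A t + phi f e (A + t • e) s := by
  apply le_antisymm (phi_add f e A t s)
  have nrm : ∀ (B : E) (r : ℝ), 0 < r → ‖B + r • e - B‖ = r := by
    intro B r hr
    rw [add_sub_cancel_left, norm_smul, he, mul_one, Real.norm_of_nonneg hr.le]
  exact lower' f he (q := A) (p := A + t • e) (z := A + (t + s) • e) (y' := A + t • e + s • e)
    hs ht hts hsδ hA hp (nrm _ _ ht) (by rw [nrm _ _ (by positivity)]; ring) (nrm _ _ hs)

theorem midpoint_round (f : E ≃ₜ F) {e : E} (he : ‖e‖ = 1) {A : E} {δ t s : ℝ}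
    (hA : RoundAt f 0 δ A) (hs : 0 < s) (hst : s < t) (hts : s + t < δ)
    (hp : RoundAt f 0 δ (A + t • e)) :
    phi f e A (t + s) + phi f e A (t - s) = 2 * phi f e A t := by
  have ht : 0 < t := hs.trans hst
  have nrm : ∀ (B : E) (r : ℝ), 0 < r → ‖B + r • e - B‖ = r := by
    intro B r hr
    rw [add_sub_cancel_left, norm_smul, he, mul_one, Real.norm_of_nonneg hr.le]
  have h1 := add_right f he hA ht hs hts (by linarith : s < δ) hp
  have e2 : ‖A + (t - s) • e - (A + t • e)‖ = s := by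
    have : A + (t - s) • e - (A + t • e) = -(s • e) := by rw [sub_smul]; abel
    rw [this, norm_neg, norm_smul, he, mul_one, Real.norm_of_nonneg hs.le]
  have e3 : ‖A - (A + t • e)‖ = t := by
    rw [norm_sub_rev, nrm _ _ ht]
  have h2 := two_ends f (r₁ := t - s) (r₂ := s) (y₁ := A + (t - s) • e)
    (y₂ := A + (t - s) • e) hA hp (by linarith) (by linarith) (by linarith) hs
    (nrm _ _ (by linarith)) e2 (by rw [e3]; linarith)
  have h3 : ‖f (A + (t - s) • e) - f (A + t • e)‖ = phi f e (A + t • e) s :=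
    hp.eq (by rw [e2, nrm _ _ hs]) (by rw [e2]; linarith)
  rw [h3, norm_sub_rev (f A)] at h2
  change phi f e A (t - s) + phi f e (A + t • e) s ≤ phi f e A t at h2
  have h4 : phi f e A t ≤ phi f e A (t - s) + phi f e (A + t • e) s := by
    rw [← h3]
    unfold phi
    calc ‖f (A + t • e) - f A‖
        = ‖(f (A + (t - s) • e) - f A) - (f (A + (t - s) • e) - f (A + t • e))‖ := by
          congr 1; abel
      _ ≤ _ := norm_sub_le _ _
  linarith

theorem midpoint_locSim (f : E ≃ₜ F) {e : E} (he : ‖e‖ = 1) {A : E} {δ t : ℝ}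
    (hA : RoundAt f 0 δ A) (ht : 0 < t) (htδ : t < δ) (hp : LocSim f (A + t • e)) :
    ∃ ε, 0 < ε ∧ ∀ s, 0 < s → s < ε → phi f e A (t + s) + phi f e A (t - s) = 2 * phi f e A t := by
  obtain ⟨c, ρ, hc, hρ, h, hr⟩ := hp.spec
  refine ⟨min ρ (min t (δ - t)), lt_min hρ (lt_min ht (sub_pos.mpr htδ)), fun s hs hsm => ?_⟩
  have hsρ : s < ρ := hsm.trans_le (min_le_left _ _)
  have hst : s < t := hsm.trans_le ((min_le_right _ _).trans (min_le_left _ _))
  have hsδ : s < δ - t := hsm.trans_le ((min_le_right _ _).trans (min_le_right _ _))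
  have nrm : ∀ (B : E) (r : ℝ), 0 < r → ‖B + r • e - B‖ = r := by
    intro B r hr
    rw [add_sub_cancel_left, norm_smul, he, mul_one, Real.norm_of_nonneg hr.le]
  have e2 : ‖A + (t - s) • e - (A + t • e)‖ = s := by
    have : A + (t - s) • e - (A + t • e) = -(s • e) := by rw [sub_smul]; abel
    rw [this, norm_neg, norm_smul, he, mul_one, Real.norm_of_nonneg hs.le]
  have e3 : A + (t - s) • e + s • e = A + t • e := by rw [sub_smul]; abel
  have h1 := add_right f he hA ht hs (by linarith) hsρ (hr (A + t • e) (by simpa using hρ))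
  have h2 := add_right f he hA (t := t - s) (by linarith) hs (by linarith) hsρ
    (hr (A + (t - s) • e) (by rw [e2]; exact hsρ))
  rw [sub_add_cancel] at h2
  have h3 : phi f e (A + t • e) s = c * s := by
    unfold phi
    rw [h _ _ (by rw [nrm _ _ hs]; exact hsρ) (by simpa using hρ), nrm _ _ hs]
  have h4 : phi f e (A + (t - s) • e) s = c * s := by
    unfold phi
    rw [h _ _ (by rw [e3]; simpa using hρ) (by rw [e2]; exact hsρ), nrm _ _ hs]
  linarith

theorem linear_from (f : E ≃ₜ F) {e : E} (he : ‖e‖ = 1) {A : E} {δ T : ℝ} (hT : 0 < T)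
    (hTδ : T < δ) (hA : RoundAt f 0 δ A)
    (hseg : ∀ t, 0 < t → t < T → LocSim f (A + t • e) ∨ RoundAt f 0 δ (A + t • e))
    {t : ℝ} (ht0 : 0 ≤ t) (htT : t ≤ T) :
    phi f e A t = t * (phi f e A T / T) := by
  apply affine_of_midpoint hT _ _ _ ht0 htT
  · apply Continuous.continuousOn
    unfold phi
    exact ((f.continuous.comp (by fun_prop)).sub continuous_const).norm
  · simp [phi]
  · intro t h0 hT'
    rcases hseg t h0 hT' with h | h
    · exact midpoint_locSim f he hA h0 (hT'.trans hTδ) h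
    · refine ⟨min t (δ - t), lt_min h0 (by linarith), fun s hs hsm => ?_⟩
      have h1 : s < t := hsm.trans_le (min_le_left _ _)
      have h2 : s < δ - t := hsm.trans_le (min_le_right _ _)
      exact midpoint_round f he hA hs h1 (by linarith) h

theorem ball_analysis [Nontrivial E] (f : E ≃ₜ F) {x₀ : E} {ρ δ : ℝ} (hρ : 0 < ρ) (hδ : 0 < δ)
    (hx₀ : RoundAt f 0 δ x₀)
    (h : ∀ x, ‖x - x₀‖ < ρ → LocSim f x ∨ RoundAt f 0 δ x) :
    ∃ κ R : ℝ, 0 < κ ∧ 0 < R ∧ ∀ x, ‖x - x₀‖ < R → ∀ᶠ z in 𝓝 x, ‖f z - f x‖ = κ * ‖z - x‖ := by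
  obtain ⟨e₀, he₀⟩ := exists_norm_eq E zero_le_one
  set R := min ρ δ / 4 with hR
  have hRpos : 0 < R := by have := lt_min hρ hδ; positivity
  have hRρ : 4 * R ≤ ρ := by rw [hR]; linarith [min_le_left ρ δ]
  have hRδ : 4 * R ≤ δ := by rw [hR]; linarith [min_le_right ρ δ]
  have nrm : ∀ (e B : E) (r : ℝ), ‖e‖ = 1 → 0 ≤ r → ‖B + r • e - B‖ = r := by
    intro e B r he hr
    rw [add_sub_cancel_left, norm_smul, he, mul_one, Real.norm_of_nonneg hr]
  have key : ∀ A z : E, ‖A - x₀‖ < R → RoundAt f 0 δ A → ‖z - x₀‖ < R →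
      ‖f z - f A‖ = (phi f e₀ A (2 * R) / (2 * R)) * ‖z - A‖ := by
    intro A z hA hAr hz
    have hzA : ‖z - A‖ < 2 * R := by
      calc ‖z - A‖ = ‖(z - x₀) - (A - x₀)‖ := by congr 1; abel
        _ ≤ ‖z - x₀‖ + ‖A - x₀‖ := norm_sub_le _ _
        _ < 2 * R := by linarith
    have h1 : ‖f z - f A‖ = phi f e₀ A ‖z - A‖ :=
      hAr.eq (by rw [nrm _ _ _ he₀ (norm_nonneg _)]) (by linarith)
    have h2 := linear_from f he₀ (T := 2 * R) (by positivity) (by linarith) hAr
      (fun t ht0 htT => h _ (by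
        calc ‖A + t • e₀ - x₀‖ = ‖(A - x₀) + t • e₀‖ := by congr 1; abel
          _ ≤ ‖A - x₀‖ + ‖t • e₀‖ := norm_add_le _ _
          _ = ‖A - x₀‖ + t := by rw [norm_smul, he₀, mul_one, Real.norm_of_nonneg ht0.le]
          _ < ρ := by linarith)) (norm_nonneg (z - A)) hzA.le
    rw [h1, h2]; ring
  set κ := phi f e₀ x₀ (2 * R) / (2 * R) with hκ
  have hκpos : 0 < κ := by
    have := phi_pos f he₀ x₀ (by positivity : 0 < 2 * R)
    positivity
  have hx₀R : ‖x₀ - x₀‖ < R := by simpa using hRpos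
  have k0 : ∀ z : E, ‖z - x₀‖ < R → ‖f z - f x₀‖ = κ * ‖z - x₀‖ := fun z hz =>
    key x₀ z hx₀R hx₀ hz
  refine ⟨κ, R, hκpos, hRpos, fun x hx => ?_⟩
  have hopen : ∀ᶠ z in 𝓝 x, ‖z - x₀‖ < R := by
    have : IsOpen {z : E | ‖z - x₀‖ < R} := isOpen_lt (by fun_prop) continuous_const
    exact this.mem_nhds hx
  by_cases hxx : x = x₀
  · subst hxx
    exact hopen.mono fun z hz => k0 z hz
  have hT : 0 < ‖x - x₀‖ := norm_pos_iff.mpr (sub_ne_zero.mpr hxx)
  rcases h x (by linarith) with hl | hr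
  · obtain ⟨c, ρ', hc, hρ', hloc, hrd⟩ := hl.spec
    set T := ‖x - x₀‖ with hTdef
    set e : E := T⁻¹ • (x - x₀) with he
    have he1 : ‖e‖ = 1 := by
      rw [he, norm_smul, norm_inv, Real.norm_of_nonneg hT.le, ← hTdef]
      field_simp
    have hxe : x₀ + T • e = x := by
      rw [he, smul_smul, mul_inv_cancel₀ hT.ne', one_smul]; abel
    obtain ⟨s, hs0, hsm⟩ := exists_between (lt_min hρ' (sub_pos.mpr hx))
    have hsρ : s < ρ' := hsm.trans_le (min_le_left _ _)
    have hsR : s < R - T := hsm.trans_le (min_le_right _ _)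
    have a1 := add_right f he1 hx₀ hT hs0 (by linarith) hsρ
      (by rw [hxe]; exact hrd x (by simpa using hρ'))
    rw [hxe] at a1
    have a2 : phi f e x₀ (T + s) = κ * (T + s) := by
      have := k0 (x₀ + (T + s) • e) (by rw [nrm _ _ _ he1 (by positivity)]; linarith)
      rw [nrm _ _ _ he1 (by positivity)] at this
      exact this
    have a3 : phi f e x₀ T = κ * T := by
      have := k0 (x₀ + T • e) (by rw [nrm _ _ _ he1 hT.le]; exact hx)
      rw [nrm _ _ _ he1 hT.le] at this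
      exact this
    have a4 : phi f e x s = c * s := by
      unfold phi
      rw [hloc _ _ (by rw [nrm _ _ _ he1 hs0.le]; exact hsρ) (by simpa using hρ'),
        nrm _ _ _ he1 hs0.le]
    have a5 : c = κ := by
      rw [a2, a3, a4] at a1
      have : c * s = κ * s := by linarith
      exact mul_right_cancel₀ hs0.ne' this
    have hopen' : ∀ᶠ z in 𝓝 x, ‖z - x‖ < ρ' := by
      have : IsOpen {z : E | ‖z - x‖ < ρ'} := isOpen_lt (by fun_prop) continuous_const
      exact this.mem_nhds (by simpa using hρ')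
    filter_upwards [hopen'] with z hz
    rw [hloc z x hz (by simpa using hρ'), a5]
  · have b1 := key x x₀ hx hr hx₀R
    have b2 := k0 x hx
    rw [norm_sub_rev, b2, norm_sub_rev x₀] at b1
    have b3 : κ = phi f e₀ x (2 * R) / (2 * R) := mul_right_cancel₀ hT.ne' b1
    filter_upwards [hopen] with z hz
    rw [key x z hx hr hz, ← b3]

theorem lipschitz_segment {g : E → F} (hg : Continuous g) {C : ℝ} {a b : E}
    (h : ∀ t ∈ Icc (0 : ℝ) 1, ∀ᶠ y in 𝓝 (a + t • (b - a)),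
      ‖g y - g (a + t • (b - a))‖ ≤ C * ‖y - (a + t • (b - a))‖) :
    ‖g b - g a‖ ≤ C * ‖b - a‖ := by
  set γ : ℝ → E := fun t => a + t • (b - a) with hγ
  have hγc : Continuous γ := by rw [hγ]; fun_prop
  set s : Set ℝ := {t | ‖g (γ t) - g a‖ ≤ C * (t * ‖b - a‖)} with hs
  have hclosed : IsClosed s := by
    apply isClosed_le
    · exact ((hg.comp hγc).sub continuous_const).norm
    · fun_prop
  have h0 : (0 : ℝ) ∈ s := by simp [hs, hγ]
  have hsub : Icc (0 : ℝ) 1 ⊆ s := by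
    apply IsClosed.Icc_subset_of_forall_exists_gt (hclosed.inter isClosed_Icc) h0
    rintro t ⟨hts, ht0, ht1⟩ y hy
    have hev : ∀ᶠ t' in 𝓝 t, ‖g (γ t') - g (γ t)‖ ≤ C * ‖γ t' - γ t‖ :=
      (hγc.tendsto t).eventually (h t ⟨ht0, ht1.le⟩)
    have hev2 : ∀ᶠ t' in 𝓝[>] t, ‖g (γ t') - g (γ t)‖ ≤ C * ‖γ t' - γ t‖ :=
      hev.filter_mono nhdsWithin_le_nhds
    have hev3 : ∀ᶠ t' in 𝓝[>] t, t' ∈ Ioc t y := Ioc_mem_nhdsGT hy
    obtain ⟨t', h1, h2⟩ := (hev2.and hev3).exists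
    refine ⟨t', ?_, h2⟩
    have e1 : γ t' - γ t = (t' - t) • (b - a) := by
      rw [hγ]; simp only [add_sub_add_left_eq_sub, sub_smul]
    rw [e1, norm_smul, Real.norm_of_nonneg (by linarith [h2.1])] at h1
    have h3 : ‖g (γ t) - g a‖ ≤ C * (t * ‖b - a‖) := hts
    change ‖g (γ t') - g a‖ ≤ C * (t' * ‖b - a‖)
    calc ‖g (γ t') - g a‖ = ‖(g (γ t') - g (γ t)) + (g (γ t) - g a)‖ := by congr 1; abel
      _ ≤ _ := norm_add_le _ _
      _ ≤ C * ((t' - t) * ‖b - a‖) + C * (t * ‖b - a‖) := add_le_add h1 h3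
      _ = _ := by ring
  have h1 := hsub (right_mem_Icc.mpr zero_le_one)
  simpa [hs, hγ] using h1

theorem locSim_of_infinitesimal (f : E ≃ₜ F) {x₀ : E} {κ R : ℝ} (hκ : 0 < κ) (hR : 0 < R)
    (h : ∀ x, ‖x - x₀‖ < R → ∀ᶠ z in 𝓝 x, ‖f z - f x‖ = κ * ‖z - x‖) : LocSim f x₀ := by
  have up : ∀ a b : E, ‖a - x₀‖ < R → ‖b - x₀‖ < R → ‖f b - f a‖ ≤ κ * ‖b - a‖ := by
    intro a b ha hb
    apply lipschitz_segment f.continuous
    intro t ht
    have hm : a + t • (b - a) ∈ Metric.ball x₀ R :=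
      (convex_ball x₀ R).add_smul_sub_mem (by simpa [dist_eq_norm] using ha)
        (by simpa [dist_eq_norm] using hb) ht
    rw [Metric.mem_ball, dist_eq_norm] at hm
    exact (h _ hm).mono fun y hy => hy.le
  obtain ⟨ε, hε, hε'⟩ := Metric.continuous_iff.mp f.symm.continuous (f x₀) R hR
  obtain ⟨r, hr, hr'⟩ := Metric.continuous_iff.mp f.continuous x₀ ε hε
  have low : ∀ u v : F, ‖u - f x₀‖ < ε → ‖v - f x₀‖ < ε →
      ‖f.symm v - f.symm u‖ ≤ κ⁻¹ * ‖v - u‖ := by
    intro u v hu hv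
    apply lipschitz_segment f.symm.continuous
    intro t ht
    have hm : u + t • (v - u) ∈ Metric.ball (f x₀) ε :=
      (convex_ball (f x₀) ε).add_smul_sub_mem (by simpa [dist_eq_norm] using hu)
        (by simpa [dist_eq_norm] using hv) ht
    set w := u + t • (v - u) with hw
    have h1 := hε' w hm
    rw [f.symm_apply_apply, dist_eq_norm] at h1
    have h2 : ∀ᶠ w' in 𝓝 w, ‖f (f.symm w') - f (f.symm w)‖ = κ * ‖f.symm w' - f.symm w‖ :=
      (f.symm.continuous.tendsto w).eventually (h _ h1)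
    filter_upwards [h2] with w' hw'
    rw [f.apply_symm_apply, f.apply_symm_apply] at hw'
    rw [hw', inv_mul_cancel_left₀ hκ.ne']
  refine ⟨κ, min r R, hκ, lt_min hr hR, fun a b ha hb => ?_⟩
  have ha1 : ‖a - x₀‖ < R := ha.trans_le (min_le_right _ _)
  have hb1 : ‖b - x₀‖ < R := hb.trans_le (min_le_right _ _)
  have ha2 := hr' a (by rw [dist_eq_norm]; exact ha.trans_le (min_le_left _ _))
  have hb2 := hr' b (by rw [dist_eq_norm]; exact hb.trans_le (min_le_left _ _))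
  rw [dist_eq_norm] at ha2 hb2
  apply le_antisymm (up b a hb1 ha1)
  have h3 := low (f b) (f a) hb2 ha2
  rw [f.symm_apply_apply, f.symm_apply_apply, inv_mul_eq_div, le_div_iff₀ hκ] at h3
  linarith

theorem isOpen_locSim (f : E → F) : IsOpen {x | LocSim f x} := by
  rw [Metric.isOpen_iff]
  rintro x ⟨c, ρ, hc, hρ, h⟩
  refine ⟨ρ / 2, by positivity, fun y hy => ?_⟩
  rw [Metric.mem_ball, dist_eq_norm] at hy
  have tri : ∀ w : E, ‖w - y‖ < ρ / 2 → ‖w - x‖ < ρ := by
    intro w hw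
    calc ‖w - x‖ = ‖(w - y) + (y - x)‖ := by congr 1; abel
      _ ≤ ‖w - y‖ + ‖y - x‖ := norm_add_le _ _
      _ < ρ := by linarith
  exact ⟨c, ρ / 2, hc, by positivity, fun a b ha hb => h a b (tri a ha) (tri b hb)⟩

theorem isClosed_roundAt {f : E → F} (hf : Continuous f) (δ : ℝ) :
    IsClosed {x | RoundAt f 0 δ x} := by
  have : {x | RoundAt f 0 δ x} = ⋂ (u : E) (v : E) (_ : ‖u‖ = ‖v‖) (_ : ‖u‖ < δ),
      {x | ‖f (x + u) - f x‖ ≤ ‖f (x + v) - f x‖} := by
    ext x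
    simp only [mem_setOf_eq, mem_iInter]
    constructor
    · intro h u v huv hu
      have := h (x + u) (x + v) (by simpa using huv) (by simpa using hu)
      simpa using this
    · intro h y z hyz hy
      have := h (y - x) (z - x) hyz hy
      simpa using this
  rw [this]
  refine isClosed_iInter fun u => isClosed_iInter fun v => isClosed_iInter fun _ =>
    isClosed_iInter fun _ => isClosed_le ?_ ?_
  · exact ((hf.comp (by fun_prop)).sub hf).norm
  · exact ((hf.comp (by fun_prop)).sub hf).norm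

theorem all_locSim [CompleteSpace E] [Nontrivial E] (f : E ≃ₜ F)
    (h : ∀ x : E, ∃ δ : ℝ, 0 < δ ∧ RoundAt f 0 δ x) (x : E) : LocSim f x := by
  by_contra hx
  set K : Set E := {x | ¬ LocSim f x} with hK
  have hKc : IsClosed K := (isOpen_locSim (f : E → F)).isClosed_compl
  haveI : CompleteSpace K := hKc.completeSpace_coe
  haveI : Nonempty K := ⟨⟨x, hx⟩⟩
  set B : ℕ → Set K := fun n => {y : K | RoundAt f 0 (1 / ((n : ℝ) + 1)) (y : E)} with hB
  have hBc : ∀ n, IsClosed (B n) := fun n =>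
    (isClosed_roundAt f.continuous _).preimage continuous_subtype_val
  have hBU : ⋃ n, B n = univ := by
    rw [eq_univ_iff_forall]
    intro y
    obtain ⟨δ, hδ, hy⟩ := h (y : E)
    obtain ⟨n, hn⟩ := exists_nat_one_div_lt hδ
    rw [mem_iUnion]
    exact ⟨n, fun u v huv hu => hy u v huv (hu.trans hn)⟩
  obtain ⟨n, x₀, hx₀⟩ := nonempty_interior_of_iUnion_of_closed hBc hBU
  rw [mem_interior_iff_mem_nhds, Metric.mem_nhds_iff] at hx₀
  obtain ⟨ρ, hρ, hball⟩ := hx₀
  have hδ : (0 : ℝ) < 1 / ((n : ℝ) + 1) := by positivity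
  have hx₀r : RoundAt f 0 (1 / ((n : ℝ) + 1)) (x₀ : E) := hball (Metric.mem_ball_self hρ)
  obtain ⟨κ, R, hκ, hR, hinf⟩ := ball_analysis f hρ hδ hx₀r (fun y hy => by
    by_cases hl : LocSim f y
    · exact Or.inl hl
    · right
      have : (⟨y, hl⟩ : K) ∈ Metric.ball x₀ ρ := by
        rw [Metric.mem_ball, Subtype.dist_eq, dist_eq_norm]; exact hy
      exact hball this)
  exact x₀.2 (locSim_of_infinitesimal f hκ hR hinf)

theorem main_pointwise [CompleteSpace E] (f : E ≃ₜ F)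
    (h : ∀ x : E, ∃ δ : ℝ, 0 < δ ∧ RoundAt f 0 δ x) :
    ∃ c : ℝ, 0 < c ∧ ∀ a b : E, ‖f a - f b‖ = c * ‖a - b‖ := by
  rcases subsingleton_or_nontrivial E with hE | hE
  · refine ⟨1, one_pos, fun a b => ?_⟩
    rw [Subsingleton.elim a b]; simp
  · apply main f
    intro x₀ η hη
    obtain ⟨c, ρ, hc, hρ, -, hr⟩ := (all_locSim f h x₀).spec
    refine ⟨ρ, hρ, fun x hx y z hyz hy => ?_⟩
    have h1 := hr x hx y z hyz hy
    have h2 : 0 ≤ η * ‖y - x‖ := by positivity
    nlinarith [norm_nonneg (f z - f x)]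

end Pool.Agent.Helper137_QC
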